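import Mathlib

open MvPolynomial

namespace Pool.Agent.H13.Par

section general

variable {k V : Type*} [Field k] [AddCommGroup V] [Module k V]

/-- The curl of a triple `u` of endomorphisms with respect to a triple `X`. -/
def curl (X : Fin 3 → Module.End k V) :
    (Fin 3 → Module.End k V) →ₗ[k] (Fin 3 → Module.End k V) where
  toFun u i := (X (i + 1) * u (i + 2) - u (i + 2) * X (i + 1))
    - (X (i + 2) * u (i + 1) - u (i + 1) * X (i + 2))
  map_add' u v := by
    refine funext fun i => LinearMap.ext fun x => ?_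
    simp [mul_add, add_mul]
    abel
  map_smul' c u := by
    refine funext fun i => LinearMap.ext fun x => ?_
    simp [smul_sub]

/-- The infinitesimal conjugation map. -/
def gauge (X : Fin 3 → Module.End k V) :
    Module.End k V →ₗ[k] (Fin 3 → Module.End k V) where
  toFun a i := X i * a - a * X i
  map_add' u v := by
    refine funext fun i => LinearMap.ext fun x => ?_
    simp [mul_add, add_mul]
    abel
  map_smul' c u := by
    refine funext fun i => LinearMap.ext fun x => ?_
    simp [smul_sub]

theorem mem_ker_curl (X : Fin 3 → Module.End k V) (u : Fin 3 → Module.End k V) :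
    u ∈ LinearMap.ker (curl X) ↔
      ∀ i j, X i * u j - u j * X i = X j * u i - u i * X j := by
  rw [LinearMap.mem_ker]
  constructor
  · intro h
    have h0 := congrFun h 0
    have h1 := congrFun h 1
    have h2 := congrFun h 2
    simp only [curl, LinearMap.coe_mk, AddHom.coe_mk, Pi.zero_apply] at h0 h1 h2
    have e01 : (0 : Fin 3) + 1 = 1 := rfl
    have e02 : (0 : Fin 3) + 2 = 2 := rfl
    have e11 : (1 : Fin 3) + 1 = 2 := rfl
    have e12 : (1 : Fin 3) + 2 = 0 := rfl
    have e21 : (2 : Fin 3) + 1 = 0 := rfl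
    have e22 : (2 : Fin 3) + 2 = 1 := rfl
    rw [e01, e02, sub_eq_zero] at h0
    rw [e11, e12, sub_eq_zero] at h1
    rw [e21, e22, sub_eq_zero] at h2
    intro i j
    fin_cases i <;> fin_cases j
    · rfl
    · exact h2
    · exact h1.symm
    · exact h2.symm
    · rfl
    · exact h0
    · exact h1
    · exact h0.symm
    · rfl
  · intro h
    funext i
    simp only [curl, LinearMap.coe_mk, AddHom.coe_mk, Pi.zero_apply]
    rw [h (i + 1) (i + 2), sub_self]

end general

section ideal

variable {k : Type*} [Field k] (I : Ideal (MvPolynomial (Fin 3) k))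

/-- Multiplication by the coordinate functions on the coordinate ring `S/I`. -/
noncomputable def op (i : Fin 3) : Module.End k (MvPolynomial (Fin 3) k ⧸ I) :=
  LinearMap.mulLeft k (Ideal.Quotient.mk I (X i))

theorem op_apply (i : Fin 3) (v : MvPolynomial (Fin 3) k ⧸ I) :
    op I i v = (X i : MvPolynomial (Fin 3) k) • v := by
  simp only [op, LinearMap.mulLeft_apply]
  obtain ⟨f, rfl⟩ := Ideal.Quotient.mk_surjective v
  rw [← map_mul]
  rfl

theorem op_comm (i j : Fin 3) : op I i * op I j = op I j * op I i := by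
  refine LinearMap.ext fun v => ?_
  simp only [Module.End.mul_apply, op_apply, smul_smul, mul_comm]

/-- A `k`-linear section of the projection. -/
theorem exists_section : ∃ σ : (MvPolynomial (Fin 3) k ⧸ I) →ₗ[k] MvPolynomial (Fin 3) k,
    ∀ v, Ideal.Quotient.mk I (σ v) = v := by
  obtain ⟨σ, hσ⟩ := LinearMap.exists_rightInverse_of_surjective
    (Ideal.Quotient.mkₐ k I).toLinearMap
    (LinearMap.range_eq_top.2 (Ideal.Quotient.mkₐ_surjective k I))
  exact ⟨σ, fun v => congrFun (congrArg DFunLike.coe hσ) v⟩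

/-- A chosen `k`-linear section. -/
noncomputable def sec : (MvPolynomial (Fin 3) k ⧸ I) →ₗ[k] MvPolynomial (Fin 3) k :=
  (exists_section I).choose

theorem mk_sec (v) : Ideal.Quotient.mk I (sec I v) = v := (exists_section I).choose_spec v

theorem sec_mem (i : Fin 3) (v : MvPolynomial (Fin 3) k ⧸ I) :
    X i * sec I v - sec I ((X i : MvPolynomial (Fin 3) k) • v) ∈ I := by
  rw [← Ideal.Quotient.eq, map_mul, mk_sec, mk_sec]
  obtain ⟨f, rfl⟩ := Ideal.Quotient.mk_surjective v
  rw [← map_mul]
  rfl

/-- The cocycle attached to a tangent vector. -/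
noncomputable def coc : (I →ₗ[MvPolynomial (Fin 3) k] MvPolynomial (Fin 3) k ⧸ I) →ₗ[k]
    (Fin 3 → Module.End k (MvPolynomial (Fin 3) k ⧸ I)) where
  toFun φ i :=
    { toFun := fun v => φ ⟨X i * sec I v - sec I ((X i : MvPolynomial (Fin 3) k) • v),
        sec_mem I i v⟩
      map_add' := fun v w => by
        rw [← map_add]
        congr 1
        apply Subtype.ext
        simp only [map_add, smul_add, mul_add, Submodule.coe_add]
        ring
      map_smul' := fun c v => by
        rw [RingHom.id_apply, ← LinearMap.map_smul_of_tower]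
        congr 1
        apply Subtype.ext
        simp only [map_smul, smul_comm (X i : MvPolynomial (Fin 3) k) c v, mul_smul_comm]
        rw [← smul_sub]
        rfl }
  map_add' φ ψ := funext fun i => LinearMap.ext fun v => rfl
  map_smul' c φ := funext fun i => LinearMap.ext fun v => rfl

theorem coc_apply (φ : I →ₗ[MvPolynomial (Fin 3) k] MvPolynomial (Fin 3) k ⧸ I) (i : Fin 3)
    (v : MvPolynomial (Fin 3) k ⧸ I) :
    coc I φ i v = φ ⟨X i * sec I v - sec I ((X i : MvPolynomial (Fin 3) k) • v),
        sec_mem I i v⟩ := rfl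

theorem coc_mem (φ : I →ₗ[MvPolynomial (Fin 3) k] MvPolynomial (Fin 3) k ⧸ I) :
    coc I φ ∈ LinearMap.ker (curl (op I)) := by
  rw [mem_ker_curl]
  intro i j
  refine LinearMap.ext fun v => ?_
  simp only [LinearMap.sub_apply, Module.End.mul_apply, op_apply, coc_apply]
  rw [← map_smul, ← map_smul, ← map_sub, ← map_sub]
  congr 1
  apply Subtype.ext
  simp only [Submodule.coe_sub, SetLike.val_smul, smul_eq_mul,
    smul_comm (X i : MvPolynomial (Fin 3) k) (X j : MvPolynomial (Fin 3) k) v]
  ring

theorem gauge_mem (a : Module.End k (MvPolynomial (Fin 3) k ⧸ I)) :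
    gauge (op I) a ∈ LinearMap.ker (curl (op I)) := by
  rw [mem_ker_curl]
  intro i j
  simp only [gauge, LinearMap.coe_mk, AddHom.coe_mk]
  have h := op_comm I i j
  have h1 : op I i * (op I j * a) = op I j * (op I i * a) := by
    rw [← mul_assoc, h, mul_assoc]
  simp only [mul_sub, sub_mul, mul_assoc, h1, h]
  abel

/-- The combined map. -/
noncomputable def comb :
    ((I →ₗ[MvPolynomial (Fin 3) k] MvPolynomial (Fin 3) k ⧸ I) ×
      Module.End k (MvPolynomial (Fin 3) k ⧸ I)) →ₗ[k]
    (Fin 3 → Module.End k (MvPolynomial (Fin 3) k ⧸ I)) :=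
  LinearMap.coprod (coc I) (gauge (op I))

theorem comb_apply (φ : I →ₗ[MvPolynomial (Fin 3) k] MvPolynomial (Fin 3) k ⧸ I)
    (a : Module.End k (MvPolynomial (Fin 3) k ⧸ I)) :
    comb I (φ, a) = coc I φ + gauge (op I) a := by
  simp [comb]

theorem linear_of_X {M : Type*} [AddCommGroup M] [Module k M] [Module (MvPolynomial (Fin 3) k) M]
    [IsScalarTower k (MvPolynomial (Fin 3) k) M]
    (ψ : MvPolynomial (Fin 3) k →ₗ[k] M)
    (h : ∀ i f, ψ (X i * f) = (X i : MvPolynomial (Fin 3) k) • ψ f) (f : MvPolynomial (Fin 3) k) :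
    ψ f = f • ψ 1 := by
  induction f using MvPolynomial.induction_on with
  | C a =>
    have : (C a : MvPolynomial (Fin 3) k) = a • 1 := by
      rw [MvPolynomial.smul_eq_C_mul, mul_one]
    rw [this, map_smul, smul_assoc, one_smul]
  | add p q hp hq => rw [map_add, hp, hq, add_smul]
  | mul_X p i hp => rw [mul_comm, h, hp, smul_smul]

theorem ker_comb_fst (φ : I →ₗ[MvPolynomial (Fin 3) k] MvPolynomial (Fin 3) k ⧸ I)
    (a : Module.End k (MvPolynomial (Fin 3) k ⧸ I)) (h : comb I (φ, a) = 0) :
    φ = 0 ∧ ∀ v, a v = v * a 1 := by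
  have hmem : ∀ f : MvPolynomial (Fin 3) k, f - sec I (Ideal.Quotient.mk I f) ∈ I := by
    intro f
    rw [← Ideal.Quotient.eq, mk_sec]
  let ψ : MvPolynomial (Fin 3) k →ₗ[k] MvPolynomial (Fin 3) k ⧸ I :=
    { toFun := fun f => φ ⟨f - sec I (Ideal.Quotient.mk I f), hmem f⟩
        - a (Ideal.Quotient.mk I f)
      map_add' := fun f g => by
        have : (⟨f + g - sec I (Ideal.Quotient.mk I (f + g)), hmem (f + g)⟩ : I)
            = ⟨f - sec I (Ideal.Quotient.mk I f), hmem f⟩
              + ⟨g - sec I (Ideal.Quotient.mk I g), hmem g⟩ := by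
          apply Subtype.ext
          simp only [map_add, Submodule.coe_add]
          ring
        rw [this, map_add, map_add, map_add]
        abel
      map_smul' := fun c f => by
        have h1 : Ideal.Quotient.mk I (c • f) = c • Ideal.Quotient.mk I f := rfl
        have : (⟨c • f - sec I (Ideal.Quotient.mk I (c • f)), hmem (c • f)⟩ : I)
            = c • ⟨f - sec I (Ideal.Quotient.mk I f), hmem f⟩ := by
          apply Subtype.ext
          change c • f - sec I (Ideal.Quotient.mk I (c • f)) =
            c • (f - sec I (Ideal.Quotient.mk I f))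
          rw [h1, map_smul, smul_sub]
        rw [this, h1, LinearMap.map_smul_of_tower, map_smul, RingHom.id_apply, smul_sub] }
  have hψ : ∀ f, ψ f = φ ⟨f - sec I (Ideal.Quotient.mk I f), hmem f⟩
        - a (Ideal.Quotient.mk I f) := fun f => rfl
  have hX : ∀ i f, ψ (X i * f) = (X i : MvPolynomial (Fin 3) k) • ψ f := by
    intro i f
    have h1 : Ideal.Quotient.mk I (X i * f)
      = (X i : MvPolynomial (Fin 3) k) • Ideal.Quotient.mk I f := rfl
    have h2 : (⟨X i * f - sec I (Ideal.Quotient.mk I (X i * f)), hmem (X i * f)⟩ : I)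
        = (X i : MvPolynomial (Fin 3) k) • (⟨f - sec I (Ideal.Quotient.mk I f), hmem f⟩ : I)
          + ⟨X i * sec I (Ideal.Quotient.mk I f)
            - sec I ((X i : MvPolynomial (Fin 3) k) • Ideal.Quotient.mk I f),
              sec_mem I i _⟩ := by
      apply Subtype.ext
      simp only [Submodule.coe_add, SetLike.val_smul, smul_eq_mul, h1]
      ring
    have h3 : coc I φ i (Ideal.Quotient.mk I f) +
        (op I i (a (Ideal.Quotient.mk I f)) - a (op I i (Ideal.Quotient.mk I f))) = 0 := by
      have := LinearMap.congr_fun (congrFun h i) (Ideal.Quotient.mk I f)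
      rw [comb_apply] at this
      exact this
    rw [op_apply, op_apply] at h3
    rw [hψ, hψ, h2, map_add, map_smul, ← coc_apply, h1, smul_sub]
    rw [eq_neg_of_add_eq_zero_left h3]
    abel
  have hlin := linear_of_X ψ hX
  have hφ : φ = 0 := by
    refine LinearMap.ext fun f => ?_
    have h1 := hlin f.1
    rw [hψ] at h1
    have h2 : Ideal.Quotient.mk I f.1 = 0 := Ideal.Quotient.eq_zero_iff_mem.2 f.2
    have h3 : (⟨f.1 - sec I (Ideal.Quotient.mk I f.1), hmem f.1⟩ : I) = f := by
      apply Subtype.ext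
      simp only [h2, map_zero, sub_zero]
    rw [h3, h2, map_zero, sub_zero] at h1
    rw [h1, LinearMap.zero_apply]
    obtain ⟨g, hg⟩ := Ideal.Quotient.mk_surjective (ψ 1)
    rw [← hg]
    change Ideal.Quotient.mk I (f.1 * g) = 0
    exact Ideal.Quotient.eq_zero_iff_mem.2 (I.mul_mem_right _ f.2)
  refine ⟨hφ, fun v => ?_⟩
  obtain ⟨f, rfl⟩ := Ideal.Quotient.mk_surjective v
  have h1 := hlin f
  rw [hψ, hψ, hφ, LinearMap.zero_apply, LinearMap.zero_apply, zero_sub, zero_sub, map_one,
    smul_neg, neg_inj] at h1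
  rw [h1]
  obtain ⟨g, hg⟩ := Ideal.Quotient.mk_surjective (a 1)
  rw [← hg, ← map_mul]
  rfl

section lift

open scoped IsMulCommutative

/-- A commuting family in a (noncommutative) algebra extends to polynomials. -/
theorem exists_lift {A : Type*} [Ring A] [Algebra k A] (Y : Fin 3 → A)
    (hY : ∀ i j, Y i * Y j = Y j * Y i) :
    ∃ ρ : MvPolynomial (Fin 3) k →ₐ[k] A, ∀ i, ρ (X i) = Y i := by
  have hc : ∀ a ∈ Set.range Y, ∀ b ∈ Set.range Y, a * b = b * a := by
    rintro _ ⟨i, rfl⟩ _ ⟨j, rfl⟩
    exact hY i j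
  have := Algebra.isMulCommutative_adjoin k hc
  let Z : Fin 3 → Algebra.adjoin k (Set.range Y) :=
    fun i => ⟨Y i, Algebra.subset_adjoin ⟨i, rfl⟩⟩
  refine ⟨(Algebra.adjoin k (Set.range Y)).val.comp (MvPolynomial.aeval Z), fun i => ?_⟩
  rw [AlgHom.comp_apply, MvPolynomial.aeval_X]
  rfl

end lift

theorem comb_surj (u : Fin 3 → Module.End k (MvPolynomial (Fin 3) k ⧸ I))
    (hu : u ∈ LinearMap.ker (curl (op I))) : u ∈ LinearMap.range (comb I) := by
  rw [mem_ker_curl] at hu
  let V := MvPolynomial (Fin 3) k ⧸ I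
  let Y : Fin 3 → Module.End k (V × V) := fun i =>
    LinearMap.prod ((op I i).comp (LinearMap.fst k V V) + (u i).comp (LinearMap.snd k V V))
      ((op I i).comp (LinearMap.snd k V V))
  have hYa : ∀ i a b, Y i (a, b) = (op I i a + u i b, op I i b) := fun i a b => rfl
  have hY : ∀ i j, Y i * Y j = Y j * Y i := by
    intro i j
    refine LinearMap.ext fun p => ?_
    obtain ⟨a, b⟩ := p
    rw [Module.End.mul_apply, Module.End.mul_apply, hYa, hYa, hYa, hYa]
    have h1 : ∀ c, op I i (op I j c) = op I j (op I i c) := fun c =>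
      LinearMap.congr_fun (op_comm I i j) c
    have h2 : op I i (u j b) - u j (op I i b) = op I j (u i b) - u i (op I j b) :=
      LinearMap.congr_fun (hu i j) b
    rw [map_add, map_add, h1 a, h1 b]
    refine Prod.ext ?_ rfl
    change op I j (op I i a) + op I i (u j b) + u i (op I j b)
      = op I j (op I i a) + op I j (u i b) + u j (op I i b)
    have h3 : op I i (u j b) + u i (op I j b) = op I j (u i b) + u j (op I i b) := by
      calc op I i (u j b) + u i (op I j b)
          = op I i (u j b) - u j (op I i b) + (u j (op I i b) + u i (op I j b)) := by abel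
        _ = op I j (u i b) - u i (op I j b) + (u j (op I i b) + u i (op I j b)) := by rw [h2]
        _ = _ := by abel
    rw [add_assoc, h3, add_assoc]
  obtain ⟨ρ, hρ⟩ := exists_lift (k := k) Y hY
  have hρ2 : ∀ f (a b : V), (ρ f (a, b)).2 = f • b := by
    intro f a b
    induction f using MvPolynomial.induction_on generalizing a b with
    | C c =>
      rw [← MvPolynomial.algebraMap_eq, AlgHom.commutes]
      rw [Module.algebraMap_end_apply]
      change c • b = _
      rw [MvPolynomial.algebraMap_eq]
      have : (C c : MvPolynomial (Fin 3) k) = c • 1 := by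
        rw [MvPolynomial.smul_eq_C_mul, mul_one]
      rw [this, smul_assoc, one_smul]
    | add p q hp hq =>
      rw [map_add, LinearMap.add_apply, Prod.snd_add, hp, hq, add_smul]
    | mul_X p i hp =>
      rw [map_mul, hρ, Module.End.mul_apply, hYa, hp, op_apply, smul_smul]
  have hρ1 : ∀ f (a : V), (ρ f (a, 0)).1 = f • a := by
    intro f a
    induction f using MvPolynomial.induction_on generalizing a with
    | C c =>
      rw [← MvPolynomial.algebraMap_eq, AlgHom.commutes]
      rw [Module.algebraMap_end_apply]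
      change c • a = _
      rw [MvPolynomial.algebraMap_eq]
      have : (C c : MvPolynomial (Fin 3) k) = c • 1 := by
        rw [MvPolynomial.smul_eq_C_mul, mul_one]
      rw [this, smul_assoc, one_smul]
    | add p q hp hq =>
      rw [map_add, LinearMap.add_apply, Prod.fst_add, hp, hq, add_smul]
    | mul_X p i hp =>
      rw [map_mul, hρ, Module.End.mul_apply, hYa, map_zero, map_zero, add_zero, hp, op_apply,
        smul_smul]
  have hsm : ∀ f : MvPolynomial (Fin 3) k, f ∈ I → ∀ v : V, f • v = 0 := by
    intro f hf v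
    obtain ⟨g, rfl⟩ := Ideal.Quotient.mk_surjective v
    change Ideal.Quotient.mk I (f * g) = 0
    exact Ideal.Quotient.eq_zero_iff_mem.2 (I.mul_mem_right _ hf)
  let φ : I →ₗ[MvPolynomial (Fin 3) k] V :=
    { toFun := fun f => (ρ f.1 (0, 1)).1
      map_add' := fun f g => by
        rw [Submodule.coe_add, map_add, LinearMap.add_apply, Prod.fst_add]
      map_smul' := fun g f => by
        rw [SetLike.val_smul, smul_eq_mul, map_mul, Module.End.mul_apply, RingHom.id_apply,
          ← hρ1]
        congr 2
        exact Prod.ext rfl ((hρ2 f.1 0 1).trans (hsm _ f.2 1)) }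
  have hφ : ∀ f : I, φ f = (ρ f.1 (0, 1)).1 := fun f => rfl
  let a : Module.End k V :=
    { toFun := fun v => (ρ (sec I v) (0, 1)).1
      map_add' := fun v w => by
        rw [map_add, map_add, LinearMap.add_apply, Prod.fst_add]
      map_smul' := fun c v => by
        rw [map_smul, map_smul, LinearMap.smul_apply, Prod.smul_fst, RingHom.id_apply] }
  have ha : ∀ v, a v = (ρ (sec I v) (0, 1)).1 := fun v => rfl
  have hone : ∀ f : MvPolynomial (Fin 3) k, f • (1 : V) = Ideal.Quotient.mk I f := by
    intro f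
    change Ideal.Quotient.mk I (f * 1) = _
    rw [mul_one]
  have hτ : ∀ v, ρ (sec I v) (0, 1) = (a v, v) := by
    intro v
    refine Prod.ext rfl ?_
    rw [hρ2, hone, mk_sec]
  refine ⟨(φ, -a), ?_⟩
  rw [comb_apply]
  refine funext fun i => LinearMap.ext fun v => ?_
  rw [Pi.add_apply, LinearMap.add_apply, coc_apply, hφ]
  change (ρ (X i * sec I v - sec I ((X i : MvPolynomial (Fin 3) k) • v)) (0, 1)).1
    + (op I i (-(a v)) - (-(a (op I i v)))) = u i v
  rw [map_sub, map_mul, LinearMap.sub_apply, Module.End.mul_apply, hτ, hτ, hρ, hYa, op_apply,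
    op_apply, op_apply, smul_neg]
  change (X i : MvPolynomial (Fin 3) k) • a v + u i v
    - a ((X i : MvPolynomial (Fin 3) k) • v) + _ = _
  abel

theorem range_comb : LinearMap.range (comb I) = LinearMap.ker (curl (op I)) := by
  apply le_antisymm
  · rintro _ ⟨⟨φ, a⟩, rfl⟩
    rw [comb_apply]
    exact Submodule.add_mem _ (coc_mem I φ) (gauge_mem I a)
  · intro u hu
    exact comb_surj I u hu

/-- The kernel of the combined map is a copy of `S/I`. -/
noncomputable def kerEmb : (MvPolynomial (Fin 3) k ⧸ I) →ₗ[k]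
    ((I →ₗ[MvPolynomial (Fin 3) k] MvPolynomial (Fin 3) k ⧸ I) ×
      Module.End k (MvPolynomial (Fin 3) k ⧸ I)) :=
  LinearMap.inr k _ _ ∘ₗ (LinearMap.mul k (MvPolynomial (Fin 3) k ⧸ I))

theorem kerEmb_apply (v : MvPolynomial (Fin 3) k ⧸ I) :
    kerEmb I v = (0, LinearMap.mul k (MvPolynomial (Fin 3) k ⧸ I) v) := rfl

theorem kerEmb_inj : Function.Injective (kerEmb I) := by
  intro v w h
  rw [kerEmb_apply, kerEmb_apply, Prod.mk.injEq] at h
  have := LinearMap.congr_fun h.2 1
  rwa [LinearMap.mul_apply', LinearMap.mul_apply', mul_one, mul_one] at this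

theorem range_kerEmb : LinearMap.range (kerEmb I) = LinearMap.ker (comb I) := by
  apply le_antisymm
  · rintro _ ⟨v, rfl⟩
    rw [LinearMap.mem_ker, kerEmb_apply, comb_apply, map_zero, zero_add]
    refine funext fun i => LinearMap.ext fun w => ?_
    change op I i (v * w) - v * (op I i w) = 0
    rw [op_apply, op_apply]
    obtain ⟨f, rfl⟩ := Ideal.Quotient.mk_surjective v
    obtain ⟨g, rfl⟩ := Ideal.Quotient.mk_surjective w
    change Ideal.Quotient.mk I (X i * (f * g)) - Ideal.Quotient.mk I (f * (X i * g)) = 0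
    rw [← map_sub, show X i * (f * g) - f * (X i * g) = 0 by ring, map_zero]
  · rintro ⟨φ, a⟩ h
    rw [LinearMap.mem_ker] at h
    obtain ⟨h1, h2⟩ := ker_comb_fst I φ a h
    refine ⟨a 1, ?_⟩
    rw [kerEmb_apply, h1]
    refine Prod.ext rfl (LinearMap.ext fun v => ?_)
    change a 1 * v = a v
    rw [h2 v, mul_comm]

theorem finite_hom [Module.Finite k (MvPolynomial (Fin 3) k ⧸ I)] :
    Module.Finite k (I →ₗ[MvPolynomial (Fin 3) k] MvPolynomial (Fin 3) k ⧸ I) := by
  have hI : (I : Submodule (MvPolynomial (Fin 3) k) (MvPolynomial (Fin 3) k)).FG :=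
    IsNoetherian.noetherian I
  have : Module.Finite (MvPolynomial (Fin 3) k) I := Module.Finite.iff_fg.2 hI
  obtain ⟨n, s, hs⟩ := Module.Finite.exists_fin (R := MvPolynomial (Fin 3) k) (M := I)
  let ev : (I →ₗ[MvPolynomial (Fin 3) k] MvPolynomial (Fin 3) k ⧸ I) →ₗ[k]
      (Fin n → MvPolynomial (Fin 3) k ⧸ I) :=
    { toFun := fun φ i => φ (s i)
      map_add' := fun φ ψ => rfl
      map_smul' := fun c φ => rfl }
  have hinj : Function.Injective ev := by
    intro φ ψ h
    apply LinearMap.ext_on_range hs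
    intro i
    exact congrFun h i
  exact Module.Finite.of_injective ev hinj

/-- **Dimension formula**: `t + d² = z + d` with `z` the dimension of the kernel of the curl. -/
theorem finrank_hom [Module.Finite k (MvPolynomial (Fin 3) k ⧸ I)] :
    Module.finrank k (I →ₗ[MvPolynomial (Fin 3) k] MvPolynomial (Fin 3) k ⧸ I)
      + Module.finrank k (MvPolynomial (Fin 3) k ⧸ I) ^ 2
    = Module.finrank k (LinearMap.ker (curl (op I)))
      + Module.finrank k (MvPolynomial (Fin 3) k ⧸ I) := by
  have := finite_hom I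
  have h1 := LinearMap.finrank_range_add_finrank_ker (comb I)
  have hE : Module.finrank k (Module.End k (MvPolynomial (Fin 3) k ⧸ I))
      = Module.finrank k (MvPolynomial (Fin 3) k ⧸ I)
        * Module.finrank k (MvPolynomial (Fin 3) k ⧸ I) :=
    Module.finrank_linearMap k k _ _
  rw [range_comb, ← range_kerEmb, LinearMap.finrank_range_of_inj (kerEmb_inj I),
    Module.finrank_prod, hE] at h1
  rw [h1, sq]

/-- Rank form of the dimension formula: `t + rank = 2 d² + d`. -/
theorem finrank_hom_add_rank [Module.Finite k (MvPolynomial (Fin 3) k ⧸ I)] :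
    Module.finrank k (I →ₗ[MvPolynomial (Fin 3) k] MvPolynomial (Fin 3) k ⧸ I)
      + Module.finrank k (LinearMap.range (curl (op I)))
    = 2 * Module.finrank k (MvPolynomial (Fin 3) k ⧸ I) ^ 2
      + Module.finrank k (MvPolynomial (Fin 3) k ⧸ I) := by
  have h1 := finrank_hom I
  have h2 := LinearMap.finrank_range_add_finrank_ker (curl (op I))
  rw [Module.finrank_pi_fintype] at h2
  simp only [Module.finrank_linearMap, Finset.sum_const, Finset.card_univ, Fintype.card_fin,
    smul_eq_mul] at h2
  nlinarith [h1, h2]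

end ideal

end Pool.Agent.H13.Par
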