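import Mathlib
import Pool.Agent.H13.ParTangent

namespace Pool.Agent.H13.Par

section skew

variable {k W : Type*} [Field k] [AddCommGroup W] [Module k W] [Module.Finite k W]

theorem even_rank_of_skew (h2 : (2 : k) ≠ 0) (K : W →ₗ[k] W →ₗ[k] k)
    (hK : ∀ u v, K u v = - K v u) : Even (Module.finrank k (LinearMap.range K)) := by
  obtain ⟨C, hC⟩ := Submodule.exists_isCompl (LinearMap.ker K)
  have hdim : Module.finrank k (LinearMap.range K) = Module.finrank k C := by
    have h3 := Submodule.finrank_add_eq_of_isCompl hC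
    have h4 := LinearMap.finrank_range_add_finrank_ker K
    omega
  rw [hdim]
  let b := Module.finBasis k C
  let M : Matrix (Fin (Module.finrank k C)) (Fin (Module.finrank k C)) k :=
    Matrix.of fun i j => K (b i) (b j)
  have hT : M.transpose = -M := by
    ext i j
    simp only [M, Matrix.transpose_apply, Matrix.of_apply, Matrix.neg_apply]
    exact hK _ _
  have hdet : M.det ≠ 0 := by
    intro h0
    obtain ⟨c, hc, hcM⟩ := Matrix.exists_mulVec_eq_zero_iff.2 h0
    let x : C := ∑ j, c j • b j
    have hx : ∀ y : C, K y x = 0 := by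
      intro y
      have h5 : ∀ i, K (b i) x = 0 := by
        intro i
        have h6 := congrFun hcM i
        simp only [Matrix.mulVec, dotProduct, M, Matrix.of_apply, Pi.zero_apply] at h6
        simp only [x, AddSubmonoidClass.coe_finsetSum, SetLike.val_smul, map_sum, map_smul,
          smul_eq_mul]
        rw [← h6]
        exact Finset.sum_congr rfl fun j _ => mul_comm _ _
      rw [← b.sum_repr y]
      simp only [AddSubmonoidClass.coe_finsetSum, SetLike.val_smul, map_sum, map_smul,
        LinearMap.sum_apply, LinearMap.smul_apply, h5, smul_zero, Finset.sum_const_zero]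
    have hxk : (x : W) ∈ LinearMap.ker K := by
      rw [LinearMap.mem_ker]
      refine LinearMap.ext fun w => ?_
      have hw : w ∈ LinearMap.ker K ⊔ C := by
        rw [hC.sup_eq_top]
        trivial
      obtain ⟨p, hp, q, hq, rfl⟩ := Submodule.mem_sup.1 hw
      rw [hK, map_add, LinearMap.add_apply, LinearMap.mem_ker.1 hp, hx ⟨q, hq⟩]
      simp
    have hx0 : x = 0 := by
      have : (x : W) ∈ LinearMap.ker K ⊓ C := ⟨hxk, x.2⟩
      rw [hC.inf_eq_bot, Submodule.mem_bot] at this
      exact Subtype.ext this
    apply hc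
    funext j
    have h7 := b.repr_sum_self c
    have h8 : ∑ i, c i • b i = 0 := hx0
    rw [h8, map_zero] at h7
    exact (congrFun h7 j).symm
  have h9 := Matrix.det_transpose M
  rw [hT, Matrix.det_neg, Fintype.card_fin] at h9
  rcases Nat.even_or_odd (Module.finrank k C) with he | ho
  · exact he
  · exfalso
    rw [ho.neg_one_pow] at h9
    apply hdet
    have : (2 : k) * M.det = 0 := by linear_combination -h9
    exact (mul_eq_zero.1 this).resolve_left h2

end skew

section trace

variable {k V : Type*} [Field k] [AddCommGroup V] [Module k V] [Module.Finite k V]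

theorem trace_nondeg (a : Module.End k V) (h : ∀ b, LinearMap.trace k V (a * b) = 0) : a = 0 := by
  refine LinearMap.ext fun v => ?_
  by_contra hv
  obtain ⟨f, hf⟩ := Module.Projective.exists_dual_ne_zero k (x := a v) (by simpa using hv)
  apply hf
  have h1 := h (f.smulRight v)
  have h2 : a * f.smulRight v = f.smulRight (a v) := by
    refine LinearMap.ext fun w => ?_
    simp
  rwa [h2, LinearMap.trace_smulRight] at h1

/-- The trace pairing on triples of endomorphisms. -/
noncomputable def tp : (Fin 3 → Module.End k V) →ₗ[k] (Fin 3 → Module.End k V) →ₗ[k] k :=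
  LinearMap.mk₂ k (fun u v => ∑ i, LinearMap.trace k V (u i * v i))
    (fun u v w => by simp [add_mul, Finset.sum_add_distrib])
    (fun c u v => by simp [Finset.mul_sum])
    (fun u v w => by simp [mul_add, Finset.sum_add_distrib])
    (fun c u v => by simp [Finset.mul_sum])

theorem tp_apply (u v : Fin 3 → Module.End k V) :
    tp u v = ∑ i, LinearMap.trace k V (u i * v i) := rfl

theorem tp_nondeg (u : Fin 3 → Module.End k V) (h : ∀ v, tp u v = 0) : u = 0 := by
  funext i
  apply trace_nondeg
  intro b
  have := h (Pi.single i b)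
  rw [tp_apply, Finset.sum_eq_single i] at this
  · simpa using this
  · intro j _ hj
    rw [Pi.single_eq_of_ne hj, mul_zero, map_zero]
  · intro hi
    exact absurd (Finset.mem_univ i) hi

/-- Trilinear building block. -/
noncomputable def tri (X u v : Fin 3 → Module.End k V) (a b c : Fin 3) : k :=
  LinearMap.trace k V ((X a * u b - u b * X a) * v c)

theorem tp_curl (X u v : Fin 3 → Module.End k V) :
    tp (curl X u) v = tri X u v 1 2 0 - tri X u v 2 1 0 + tri X u v 2 0 1 - tri X u v 0 2 1
      + tri X u v 0 1 2 - tri X u v 1 0 2 := by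
  rw [tp_apply, Fin.sum_univ_three]
  simp only [curl, LinearMap.coe_mk, AddHom.coe_mk, tri, sub_mul, map_sub]
  have e01 : (0 : Fin 3) + 1 = 1 := rfl
  have e02 : (0 : Fin 3) + 2 = 2 := rfl
  have e11 : (1 : Fin 3) + 1 = 2 := rfl
  have e12 : (1 : Fin 3) + 2 = 0 := rfl
  have e21 : (2 : Fin 3) + 1 = 0 := rfl
  have e22 : (2 : Fin 3) + 2 = 1 := rfl
  rw [e01, e02, e11, e12, e21, e22]
  ring

theorem tri_symm (X u v : Fin 3 → Module.End k V) (a b c : Fin 3) :
    tri X u v a b c = - tri X v u a c b := by
  simp only [tri, sub_mul, map_sub]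
  rw [LinearMap.trace_mul_comm k (X a * u b) (v c), LinearMap.trace_mul_comm k (u b * X a) (v c),
    ← mul_assoc, ← mul_assoc]
  have h1 : LinearMap.trace k V (v c * X a * u b) = LinearMap.trace k V (v c * X a * u b) := rfl
  have h2 : LinearMap.trace k V (v c * u b * X a) = LinearMap.trace k V (X a * v c * u b) := by
    rw [LinearMap.trace_mul_comm, mul_assoc]
  rw [h2]
  ring

theorem tp_curl_symm (X u v : Fin 3 → Module.End k V) :
    tp (curl X u) v = tp (curl X v) u := by
  rw [tp_curl, tp_curl, tri_symm X u v 1 2 0, tri_symm X u v 2 1 0, tri_symm X u v 2 0 1,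
    tri_symm X u v 0 2 1, tri_symm X u v 0 1 2, tri_symm X u v 1 0 2]
  ring

/-- The action of an affine symmetry on triples. -/
def sg (A : Matrix (Fin 3) (Fin 3) k) (s : Module.End k V) :
    (Fin 3 → Module.End k V) →ₗ[k] (Fin 3 → Module.End k V) where
  toFun u i := ∑ j, A i j • (s * u j * s)
  map_add' u v := by
    refine funext fun i => ?_
    simp only [Pi.add_apply, mul_add, add_mul, smul_add, Finset.sum_add_distrib]
  map_smul' c u := by
    refine funext fun i => ?_
    simp only [Pi.smul_apply, RingHom.id_apply, mul_smul_comm, smul_mul_assoc, Finset.smul_sum]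
    exact Finset.sum_congr rfl fun j _ => smul_comm _ _ _

theorem sg_apply (A : Matrix (Fin 3) (Fin 3) k) (s : Module.End k V)
    (u : Fin 3 → Module.End k V) (i : Fin 3) : sg A s u i = ∑ j, A i j • (s * u j * s) := rfl

theorem sg_sg (A : Matrix (Fin 3) (Fin 3) k) (s : Module.End k V) (hs : s * s = 1)
    (hA : A * A = 1) (u : Fin 3 → Module.End k V) : sg A s (sg A s u) = u := by
  refine funext fun i => ?_
  rw [sg_apply]
  have h1 : ∀ j, s * sg A s u j * s = ∑ l, A j l • u l := by
    intro j
    rw [sg_apply, Finset.mul_sum, Finset.sum_mul]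
    refine Finset.sum_congr rfl fun l _ => ?_
    rw [mul_smul_comm, smul_mul_assoc]
    congr 1
    calc s * (s * u l * s) * s = (s * s) * u l * (s * s) := by simp only [mul_assoc]
      _ = u l := by rw [hs, one_mul, mul_one]
  simp only [h1, Finset.smul_sum, smul_smul]
  rw [Finset.sum_comm]
  have h2 : ∀ l, ∑ j, (A i j * A j l) • u l = (1 : Matrix (Fin 3) (Fin 3) k) i l • u l := by
    intro l
    rw [← Finset.sum_smul, ← hA, Matrix.mul_apply]
  simp only [h2, Matrix.one_apply, ite_smul, one_smul, zero_smul, Finset.sum_ite_eq,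
    Finset.mem_univ, if_true]

theorem tri_sg (X : Fin 3 → Module.End k V) (s : Module.End k V) (hs : s * s = 1)
    (A : Matrix (Fin 3) (Fin 3) k) (b : Fin 3 → k)
    (hX : ∀ i, s * X i * s = ∑ j, A i j • X j + b i • 1) (u v : Fin 3 → Module.End k V)
    (p q r : Fin 3) :
    tri X (sg A s u) (sg A s v) p q r
      = ∑ i, ∑ j, ∑ l, A p i * A q j * A r l * tri X u v i j l := by
  have h0 : ∀ j l, LinearMap.trace k V ((X p * (s * u j * s) - (s * u j * s) * X p) * (s * v l * s))
      = ∑ i, A p i * tri X u v i j l := by
    intro j l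
    have h1 : (X p * (s * u j * s) - (s * u j * s) * X p) * (s * v l * s)
        = s * ((s * X p * s * u j - u j * (s * X p * s)) * v l) * s := by
      have e1 : X p * (s * u j * s) * (s * v l * s)
          = s * (s * X p * s * u j * v l) * s := by
        calc X p * (s * u j * s) * (s * v l * s)
            = X p * s * u j * (s * s) * v l * s := by simp only [mul_assoc]
          _ = X p * s * u j * v l * s := by rw [hs, mul_one]
          _ = (s * s) * X p * s * u j * v l * s := by rw [hs, one_mul]
          _ = _ := by simp only [mul_assoc]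
      have e2 : s * u j * s * X p * (s * v l * s)
          = s * (u j * (s * X p * s) * v l) * s := by simp only [mul_assoc]
      rw [sub_mul, e1, e2, sub_mul, mul_sub, sub_mul]
    rw [h1, LinearMap.trace_mul_comm, ← mul_assoc, hs, one_mul, hX]
    have h2 : (∑ j, A p j • X j + b p • 1) * u j - u j * (∑ j, A p j • X j + b p • 1)
        = ∑ i, A p i • (X i * u j - u j * X i) := by
      rw [add_mul, mul_add, smul_mul_assoc, one_mul, mul_smul_comm, mul_one, Finset.sum_mul,
        Finset.mul_sum]
      simp only [smul_mul_assoc, mul_smul_comm, smul_sub, Finset.sum_sub_distrib]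
      abel
    rw [h2, Finset.sum_mul, map_sum]
    refine Finset.sum_congr rfl fun i _ => ?_
    rw [smul_mul_assoc, map_smul, smul_eq_mul, tri]
  have h5 : X p * (∑ j, A q j • (s * u j * s)) - (∑ j, A q j • (s * u j * s)) * X p
      = ∑ j, A q j • (X p * (s * u j * s) - (s * u j * s) * X p) := by
    rw [Finset.mul_sum, Finset.sum_mul, ← Finset.sum_sub_distrib]
    refine Finset.sum_congr rfl fun j _ => ?_
    rw [mul_smul_comm, smul_mul_assoc, smul_sub]
  rw [tri, sg_apply, sg_apply, h5, Finset.sum_mul_sum]
  simp only [map_sum, mul_smul_comm, smul_mul_assoc, map_smul, smul_eq_mul, h0]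
  simp only [Fin.sum_univ_three]
  ring

theorem tp_curl_sg (X : Fin 3 → Module.End k V) (s : Module.End k V) (hs : s * s = 1)
    (A : Matrix (Fin 3) (Fin 3) k) (b : Fin 3 → k)
    (hX : ∀ i, s * X i * s = ∑ j, A i j • X j + b i • 1) (u v : Fin 3 → Module.End k V) :
    tp (curl X (sg A s u)) (sg A s v) = A.det * tp (curl X u) v := by
  rw [tp_curl, tp_curl]
  simp only [tri_sg X s hs A b hX u v]
  rw [Matrix.det_fin_three]
  simp only [Fin.sum_univ_three]
  ring

theorem even_rank_curl (h2 : (2 : k) ≠ 0) (X : Fin 3 → Module.End k V) (s : Module.End k V)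
    (hs : s * s = 1) (A : Matrix (Fin 3) (Fin 3) k) (b : Fin 3 → k)
    (hX : ∀ i, s * X i * s = ∑ j, A i j • X j + b i • 1) (hA : A * A = 1) (hdet : A.det = -1) :
    Even (Module.finrank k (LinearMap.range (curl X))) := by
  let K : (Fin 3 → Module.End k V) →ₗ[k] (Fin 3 → Module.End k V) →ₗ[k] k :=
    (LinearMap.lcomp k k (sg A s)) ∘ₗ (tp ∘ₗ curl X)
  have hKa : ∀ u v, K u v = tp (curl X u) (sg A s v) := fun u v => rfl
  have hsk : ∀ u v, K u v = - K v u := by
    intro u v
    rw [hKa, hKa, tp_curl_symm X v]
    have := tp_curl_sg X s hs A b hX u (sg A s v)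
    rw [sg_sg A s hs hA, hdet] at this
    rw [this]
    have h3 := tp_curl_symm X (sg A s u) v
    rw [this] at h3
    have h4 := tp_curl_symm X u (sg A s v)
    ring
  have hrk : Module.finrank k (LinearMap.range K) = Module.finrank k (LinearMap.range (curl X)) := by
    have hinj : Function.Injective ((LinearMap.lcomp k k (sg A s)) ∘ₗ
        (tp : (Fin 3 → Module.End k V) →ₗ[k] (Fin 3 → Module.End k V) →ₗ[k] k)) := by
      rw [injective_iff_map_eq_zero]
      intro w hw
      apply tp_nondeg
      intro v
      have := LinearMap.congr_fun hw (sg A s v)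
      change tp w (sg A s (sg A s v)) = 0 at this
      rwa [sg_sg A s hs hA] at this
    have : LinearMap.range K = (LinearMap.range (curl X)).map ((LinearMap.lcomp k k (sg A s)) ∘ₗ
        (tp : (Fin 3 → Module.End k V) →ₗ[k] (Fin 3 → Module.End k V) →ₗ[k] k)) := by
      rw [← LinearMap.range_comp]
      rfl
    rw [this]
    exact (LinearEquiv.finrank_eq (Submodule.equivMapOfInjective _ hinj _)).symm
  rw [← hrk]
  exact even_rank_of_skew h2 K hsk

end trace

end Pool.Agent.H13.Par
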