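import Mathlib
import Pool.Agent.H13.ParEven

open MvPolynomial

namespace Pool.Agent.H13.Par

variable {k : Type*} [Field k]

/-- `J` is preserved by an affine involution of affine three-space with linear part of
determinant `-1`. -/
def ReversingSymmetric (J : Ideal (MvPolynomial (Fin 3) k)) : Prop :=
  ∃ (g : MvPolynomial (Fin 3) k →ₐ[k] MvPolynomial (Fin 3) k)
    (A : Matrix (Fin 3) (Fin 3) k) (b : Fin 3 → k),
    (∀ i, g (X i) = ∑ j, C (A i j) * X j + C (b i)) ∧ A.det = -1 ∧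
    (∀ p, g (g p) = p) ∧ ∀ p ∈ J, g p ∈ J

theorem matrix_sq (g : MvPolynomial (Fin 3) k →ₐ[k] MvPolynomial (Fin 3) k)
    (A : Matrix (Fin 3) (Fin 3) k) (b : Fin 3 → k)
    (hg : ∀ i, g (X i) = ∑ j, C (A i j) * X j + C (b i)) (hgg : ∀ p, g (g p) = p) :
    A * A = 1 := by
  ext i l
  have h1 := hgg (X i)
  rw [hg, map_add, map_sum] at h1
  have hC : ∀ c : k, g (C c) = C c := fun c => g.commutes c
  simp only [map_mul, hC, hg] at h1
  have h2 := congrArg (coeff (Finsupp.single l 1)) h1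
  have hcX : ∀ j, coeff (Finsupp.single l 1) (X j : MvPolynomial (Fin 3) k)
      = if j = l then 1 else 0 := by
    intro j
    rw [coeff_X]
    simp only [Finsupp.single_left_inj one_ne_zero]
  have hne : (0 : Fin 3 →₀ ℕ) ≠ Finsupp.single l 1 := by
    intro h
    have := DFunLike.congr_fun h l
    simp at this
  simp only [coeff_add, coeff_sum, coeff_C_mul, hcX, coeff_C, hne, if_false, add_zero] at h2
  rw [Matrix.mul_apply, Matrix.one_apply]
  simpa using h2

theorem parity_of_symmetric (h2 : (2 : k) ≠ 0) (J : Ideal (MvPolynomial (Fin 3) k))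
    [Module.Finite k (MvPolynomial (Fin 3) k ⧸ J)] (hJ : ReversingSymmetric J) :
    Module.finrank k (J →ₗ[MvPolynomial (Fin 3) k] MvPolynomial (Fin 3) k ⧸ J)
      ≡ Module.finrank k (MvPolynomial (Fin 3) k ⧸ J) [MOD 2] := by
  obtain ⟨g, A, b, hg, hdet, hgg, hgJ⟩ := hJ
  let gb : (MvPolynomial (Fin 3) k ⧸ J) →ₐ[k] (MvPolynomial (Fin 3) k ⧸ J) :=
    Ideal.quotientMapₐ J g (fun p hp => hgJ p hp)
  have hgb : ∀ p, gb (Ideal.Quotient.mk J p) = Ideal.Quotient.mk J (g p) := fun p => rfl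
  have hgbgb : ∀ v, gb (gb v) = v := by
    intro v
    obtain ⟨p, rfl⟩ := Ideal.Quotient.mk_surjective v
    rw [hgb, hgb, hgg]
  let s : Module.End k (MvPolynomial (Fin 3) k ⧸ J) := gb.toLinearMap
  have hs : s * s = 1 := LinearMap.ext fun v => hgbgb v
  have hCs : ∀ (c : k) (w : MvPolynomial (Fin 3) k ⧸ J),
      Ideal.Quotient.mk J (C c) * w = c • w := by
    intro c w
    obtain ⟨f, rfl⟩ := Ideal.Quotient.mk_surjective w
    rw [← map_mul, ← MvPolynomial.smul_eq_C_mul]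
    rfl
  have hX : ∀ i, s * op J i * s = ∑ j, A i j • op J j + b i • 1 := by
    intro i
    refine LinearMap.ext fun v => ?_
    change gb (Ideal.Quotient.mk J (X i) * gb v) = _
    rw [map_mul, hgbgb, hgb, hg, map_add, map_sum, add_mul, Finset.sum_mul, LinearMap.add_apply,
      LinearMap.sum_apply]
    congr 1
    · refine Finset.sum_congr rfl fun j _ => ?_
      rw [map_mul, mul_assoc, hCs]
      rfl
    · rw [hCs]
      rfl
  have hev := even_rank_curl h2 (op J) s hs A b hX (matrix_sq g A b hg hgg) hdet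
  have hdim := finrank_hom_add_rank J
  obtain ⟨r, hr⟩ := hev
  unfold Nat.ModEq
  omega

section union

abbrev PS (k : Type*) [Field k] := MvPolynomial (Fin 3) k

theorem ann_smul (I : Ideal (PS k)) (f : PS k) (hf : f ∈ I) (v : PS k ⧸ I) : f • v = 0 := by
  obtain ⟨g, rfl⟩ := Ideal.Quotient.mk_surjective v
  change Ideal.Quotient.mk I (f * g) = 0
  exact Ideal.Quotient.eq_zero_iff_mem.2 (I.mul_mem_right _ hf)

/-- Restriction `Hom(I, S/I) → Hom(I ⊓ J, S/I)` for coprime `I`, `J`. -/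
noncomputable def restr (I J : Ideal (PS k)) :
    (I →ₗ[PS k] PS k ⧸ I) →ₗ[PS k] ((I ⊓ J : Ideal (PS k)) →ₗ[PS k] PS k ⧸ I) :=
  LinearMap.lcomp (PS k) (PS k ⧸ I) (Submodule.inclusion inf_le_left)

theorem restr_bij (I J : Ideal (PS k)) (h : IsCoprime I J) :
    Function.Bijective (restr I J) := by
  obtain ⟨a, ha, e, he, hae⟩ := Ideal.isCoprime_iff_exists.1 h
  have hact : ∀ v : PS k ⧸ I, e • v = v := by
    intro v
    have h1 : (a + e) • v = v := by rw [hae, one_smul]
    rwa [add_smul, ann_smul I a ha, zero_add] at h1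
  constructor
  · rw [injective_iff_map_eq_zero]
    intro φ hφ
    refine LinearMap.ext fun x => ?_
    have h1 : (⟨e * x.1, ⟨I.mul_mem_left _ x.2, J.mul_mem_right _ he⟩⟩ :
      (I ⊓ J : Ideal (PS k))).1 = e * x.1 := rfl
    have h2 := LinearMap.congr_fun hφ ⟨e * x.1, ⟨I.mul_mem_left _ x.2, J.mul_mem_right _ he⟩⟩
    change φ ⟨e * x.1, _⟩ = 0 at h2
    have h3 : (⟨e * x.1, I.mul_mem_left _ x.2⟩ : I) = e • x := rfl
    rw [h3, map_smul, hact] at h2
    exact h2
  · intro ψ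
    refine ⟨{ toFun := fun x => ψ ⟨e * x.1, ⟨I.mul_mem_left _ x.2, J.mul_mem_right _ he⟩⟩
              map_add' := fun x y => ?_
              map_smul' := fun c x => ?_ }, ?_⟩
    · rw [← map_add]
      congr 1
      apply Subtype.ext
      change e * (x.1 + y.1) = e * x.1 + e * y.1
      ring
    · rw [RingHom.id_apply, ← map_smul]
      congr 1
      apply Subtype.ext
      change e * (c * x.1) = c * (e * x.1)
      ring
    · refine LinearMap.ext fun x => ?_
      change ψ ⟨e * x.1, _⟩ = ψ x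
      have h3 : (⟨e * x.1, ⟨I.mul_mem_left _ x.2.1, J.mul_mem_right _ he⟩⟩ :
        (I ⊓ J : Ideal (PS k))) = e • x := rfl
      rw [h3, map_smul, hact]

/-- The Chinese remainder isomorphism as a linear map. -/
noncomputable def crt (I J : Ideal (PS k)) :
    (PS k ⧸ (I ⊓ J)) →ₗ[PS k] (PS k ⧸ I) × (PS k ⧸ J) :=
  LinearMap.prod (Submodule.factor inf_le_left) (Submodule.factor inf_le_right)

theorem crt_bij (I J : Ideal (PS k)) (h : IsCoprime I J) : Function.Bijective (crt I J) := by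
  obtain ⟨a, ha, e, he, hae⟩ := Ideal.isCoprime_iff_exists.1 h
  have hcrt : ∀ f : PS k, crt I J (Ideal.Quotient.mk _ f)
    = (Ideal.Quotient.mk I f, Ideal.Quotient.mk J f) := fun f => rfl
  constructor
  · rw [injective_iff_map_eq_zero]
    intro v hv
    obtain ⟨f, rfl⟩ := Ideal.Quotient.mk_surjective v
    rw [hcrt, Prod.mk_eq_zero] at hv
    exact Ideal.Quotient.eq_zero_iff_mem.2 ⟨Ideal.Quotient.eq_zero_iff_mem.1 hv.1,
      Ideal.Quotient.eq_zero_iff_mem.1 hv.2⟩
  · rintro ⟨v, w⟩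
    obtain ⟨f, rfl⟩ := Ideal.Quotient.mk_surjective v
    obtain ⟨g, rfl⟩ := Ideal.Quotient.mk_surjective w
    refine ⟨Ideal.Quotient.mk _ (e * f + a * g), ?_⟩
    rw [hcrt]
    refine Prod.ext ?_ ?_
    · change Ideal.Quotient.mk I (e * f + a * g) = Ideal.Quotient.mk I f
      rw [Ideal.Quotient.eq]
      have : e * f + a * g - f = a * (g - f) := by linear_combination f * hae
      rw [this]
      exact I.mul_mem_right _ ha
    · change Ideal.Quotient.mk J (e * f + a * g) = Ideal.Quotient.mk J g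
      rw [Ideal.Quotient.eq]
      have : e * f + a * g - g = e * (f - g) := by linear_combination g * hae
      rw [this]
      exact J.mul_mem_right _ he

/-- `S/I` is finite-dimensional and the parity statement holds for `I`. -/
def Good (I : Ideal (PS k)) : Prop :=
  Module.Finite k (PS k ⧸ I) ∧
  Module.finrank k (I →ₗ[PS k] PS k ⧸ I) ≡ Module.finrank k (PS k ⧸ I) [MOD 2]

theorem good_top : Good (⊤ : Ideal (PS k)) := by
  have hsub : Subsingleton (PS k ⧸ (⊤ : Ideal (PS k))) := Ideal.Quotient.subsingleton_iff.2 rfl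
  refine ⟨inferInstance, ?_⟩
  have hsub2 : Subsingleton ((⊤ : Ideal (PS k)) →ₗ[PS k] PS k ⧸ (⊤ : Ideal (PS k))) :=
    ⟨fun φ ψ => LinearMap.ext fun x => Subsingleton.elim _ _⟩
  rw [Module.finrank_zero_of_subsingleton, Module.finrank_zero_of_subsingleton]

theorem finrank_congr {M N : Type*} [AddCommGroup M] [AddCommGroup N] [Module (PS k) M]
    [Module (PS k) N] [Module k M] [Module k N] [IsScalarTower k (PS k) M]
    [IsScalarTower k (PS k) N] (e : M ≃ₗ[PS k] N) : Module.finrank k M = Module.finrank k N :=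
  LinearEquiv.finrank_eq (e.restrictScalars k)

theorem good_inf (I J : Ideal (PS k)) (h : IsCoprime I J) (hI : Good I) (hJ : Good J) :
    Good (I ⊓ J) := by
  obtain ⟨hI1, hI2⟩ := hI
  obtain ⟨hJ1, hJ2⟩ := hJ
  have hI3 := finite_hom I
  have hJ3 := finite_hom J
  let c : (PS k ⧸ (I ⊓ J)) ≃ₗ[PS k] (PS k ⧸ I) × (PS k ⧸ J) :=
    LinearEquiv.ofBijective (crt I J) (crt_bij I J h)
  let r1 : (I →ₗ[PS k] PS k ⧸ I) ≃ₗ[PS k] ((I ⊓ J : Ideal (PS k)) →ₗ[PS k] PS k ⧸ I) :=
    LinearEquiv.ofBijective (restr I J) (restr_bij I J h)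
  let r2' : (J →ₗ[PS k] PS k ⧸ J) ≃ₗ[PS k] ((J ⊓ I : Ideal (PS k)) →ₗ[PS k] PS k ⧸ J) :=
    LinearEquiv.ofBijective (restr J I) (restr_bij J I h.symm)
  let r2 : (J →ₗ[PS k] PS k ⧸ J) ≃ₗ[PS k] ((I ⊓ J : Ideal (PS k)) →ₗ[PS k] PS k ⧸ J) :=
    r2'.trans (LinearEquiv.congrLeft (PS k ⧸ J) (PS k) (LinearEquiv.ofEq _ _ (inf_comm J I)))
  let t : ((I ⊓ J : Ideal (PS k)) →ₗ[PS k] PS k ⧸ (I ⊓ J)) ≃ₗ[PS k]
      (I →ₗ[PS k] PS k ⧸ I) × (J →ₗ[PS k] PS k ⧸ J) :=
    (LinearEquiv.congrRight c).trans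
      ((LinearMap.prodEquiv (PS k)).symm.trans (LinearEquiv.prodCongr r1.symm r2.symm))
  have e1 : Module.finrank k (PS k ⧸ (I ⊓ J))
      = Module.finrank k (PS k ⧸ I) + Module.finrank k (PS k ⧸ J) := by
    rw [finrank_congr c, Module.finrank_prod]
  have e2 : Module.finrank k ((I ⊓ J : Ideal (PS k)) →ₗ[PS k] PS k ⧸ (I ⊓ J))
      = Module.finrank k (I →ₗ[PS k] PS k ⧸ I) + Module.finrank k (J →ₗ[PS k] PS k ⧸ J) := by
    rw [finrank_congr t, Module.finrank_prod]
  refine ⟨Module.Finite.equiv (c.restrictScalars k).symm, ?_⟩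
  rw [e1, e2]
  exact Nat.ModEq.add hI2 hJ2

theorem good_iInf {ι : Type*} (J : ι → Ideal (PS k)) (s : Finset ι)
    (hcop : Set.Pairwise (s : Set ι) fun i j => IsCoprime (J i) (J j))
    (hgood : ∀ i ∈ s, Good (J i)) : Good (⨅ i ∈ s, J i) := by
  classical
  induction s using Finset.induction_on with
  | empty => simpa using good_top
  | insert a s ha ih =>
    rw [Finset.iInf_insert]
    refine good_inf _ _ ?_ (hgood a (Finset.mem_insert_self a s)) (ih ?_ ?_)
    · exact Ideal.isCoprime_biInf fun j hj => hcop (by simp) (by simp [hj])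
        (fun h => ha (h ▸ hj))
    · exact hcop.mono (by simp)
    · exact fun i hi => hgood i (Finset.mem_insert_of_mem hi)

end union

end Pool.Agent.H13.Par
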