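import Mathlib

/-! Definitions for tridiagonal pairs of constant shape (MP_0867a7_al). -/

open Module Polynomial

namespace Pool.Agent.H13.TD

/-- `StandardOrder A B d θ`: the elements `θ 0, …, θ d` are distinct, they are exactly the
eigenvalues of `A`, and if `V_i` is the eigenspace of `A` for `θ i` then
`B V_i ⊆ V_{i-1} + V_i + V_{i+1}` for `0 ≤ i ≤ d` (with `V_{-1} = V_{d+1} = 0`). -/
def StandardOrder {K V : Type*} [Field K] [AddCommGroup V] [Module K V]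
    (A B : End K V) (d : ℕ) (θ : ℕ → K) : Prop :=
  (∀ i ≤ d, ∀ j ≤ d, θ i = θ j → i = j) ∧
  (∀ μ : K, A.HasEigenvalue μ ↔ ∃ i ≤ d, θ i = μ) ∧
  (∀ i ≤ d, ∀ v ∈ A.eigenspace (θ i),
    B v ∈ ⨆ j ∈ {j : ℕ | j ≤ d ∧ j ≤ i + 1 ∧ i ≤ j + 1}, A.eigenspace (θ j))

/-- A tridiagonal pair: both maps are diagonalizable, both have a standard ordering of the
eigenspaces, and the only subspaces invariant under both are `0` and the whole space. -/
def IsTridiagonalPair {K V : Type*} [Field K] [AddCommGroup V] [Module K V]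
    (A B : End K V) : Prop :=
  (⨆ μ : K, A.eigenspace μ = ⊤) ∧ (⨆ μ : K, B.eigenspace μ = ⊤) ∧
  (∃ (d : ℕ) (θ : ℕ → K), StandardOrder A B d θ) ∧
  (∃ (δ : ℕ) (θ' : ℕ → K), StandardOrder B A δ θ') ∧
  (∀ W : Submodule K V, (∀ w ∈ W, A w ∈ W) → (∀ w ∈ W, B w ∈ W) → W = ⊥ ∨ W = ⊤)

/-- The shape vector is `(ρ, ρ, …, ρ)`: every eigenspace of `A` has dimension `ρ`. -/
def ConstantShape {K V : Type*} [Field K] [AddCommGroup V] [Module K V]
    (A : End K V) (ρ : ℕ) : Prop :=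
  ∀ μ : K, A.HasEigenvalue μ → finrank K (A.eigenspace μ) = ρ

/-- Two pairs of linear maps are isomorphic. -/
def PairIso {K V W : Type*} [Field K] [AddCommGroup V] [Module K V] [AddCommGroup W] [Module K W]
    (A B : End K V) (A' B' : End K W) : Prop :=
  ∃ σ : V ≃ₗ[K] W, (∀ v, σ (A v) = A' (σ v)) ∧ (∀ v, σ (B v) = B' (σ v))

/-- The data `(d, θ, θ', m)` of the classification: `d ≥ 1`, the `θ 0, …, θ d` are distinct, the
`θ' 0, …, θ' d` are distinct, `(θ i - θ (i+3)) / (θ (i+1) - θ (i+2))` and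
`(θ' i - θ' (i+3)) / (θ' (i+1) - θ' (i+2))` are equal and independent of `i` (`0 ≤ i ≤ d-3`),
and `m` is a monic irreducible polynomial of degree `ρ`. -/
def Admissible {K : Type*} [Field K] (ρ d : ℕ) (θ θ' : ℕ → K) (m : K[X]) : Prop :=
  1 ≤ d ∧ (∀ i ≤ d, ∀ j ≤ d, θ i = θ j → i = j) ∧ (∀ i ≤ d, ∀ j ≤ d, θ' i = θ' j → i = j) ∧
  (∃ c : K, ∀ i, i + 3 ≤ d → θ i - θ (i + 3) = c * (θ (i + 1) - θ (i + 2)) ∧
    θ' i - θ' (i + 3) = c * (θ' (i + 1) - θ' (i + 2))) ∧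
  m.Monic ∧ Irreducible m ∧ m.natDegree = ρ

/-- `ϑ_i = ∑_{h<i} (θ_h - θ_{d-h}) / (θ_0 - θ_d)`. -/
noncomputable def vth {K : Type*} [Field K] (d : ℕ) (θ : ℕ → K) (i : ℕ) : K :=
  (∑ h ∈ Finset.range i, (θ h - θ (d - h))) / (θ 0 - θ d)

/-- The split sequence `φ_i = (x + (θ_0 - θ_d)(θ'_0 - θ'_1)) ϑ_i + (θ'_i - θ'_0)(θ_{i-1} - θ_d)`
(so that `φ_1 = x`). -/
noncomputable def splitSeq {K L : Type*} [Field K] [CommRing L] [Algebra K L] (d : ℕ)
    (θ θ' : ℕ → K) (x : L) (i : ℕ) : L :=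
  (x + algebraMap K L ((θ 0 - θ d) * (θ' 0 - θ' 1))) * algebraMap K L (vth d θ i) +
    algebraMap K L ((θ' i - θ' 0) * (θ (i - 1) - θ d))

/-- The first matrix of the model: lower bidiagonal, diagonal `θ_0, …, θ_d`, subdiagonal `1`. -/
def modelMatA {K L : Type*} [Field K] [CommRing L] [Algebra K L] (d : ℕ) (θ : ℕ → K) :
    Matrix (Fin (d + 1)) (Fin (d + 1)) L :=
  fun i j => if i = j then algebraMap K L (θ i) else if (i : ℕ) = j + 1 then 1 else 0

/-- The second matrix of the model: upper bidiagonal, diagonal `θ'_0, …, θ'_d`,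
superdiagonal `φ_1, …, φ_d`. -/
noncomputable def modelMatB {K L : Type*} [Field K] [CommRing L] [Algebra K L] (d : ℕ)
    (θ θ' : ℕ → K) (x : L) : Matrix (Fin (d + 1)) (Fin (d + 1)) L :=
  fun i j => if i = j then algebraMap K L (θ' i) else
    if (j : ℕ) = i + 1 then splitSeq d θ θ' x j else 0

/-- The first map of the model, a `K`-linear map of `(K[X]/(m))^{d+1}`. -/
noncomputable def modelA {K : Type*} [Field K] (d : ℕ) (θ : ℕ → K) (m : K[X]) :
    End K (Fin (d + 1) → AdjoinRoot m) :=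
  (Matrix.mulVecLin (modelMatA d θ : Matrix _ _ (AdjoinRoot m))).restrictScalars K

/-- The second map of the model, a `K`-linear map of `(K[X]/(m))^{d+1}`. -/
noncomputable def modelB {K : Type*} [Field K] (d : ℕ) (θ θ' : ℕ → K) (m : K[X]) :
    End K (Fin (d + 1) → AdjoinRoot m) :=
  (Matrix.mulVecLin (modelMatB d θ θ' (AdjoinRoot.root m))).restrictScalars K

/-- Two data describe isomorphic pairs: they agree up to reversing `θ` and/or `θ'` and the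
corresponding translation of the variable of `m`. -/
def Related {K : Type*} [Field K] (d : ℕ) (θ θ' : ℕ → K) (m : K[X])
    (e : ℕ) (η η' : ℕ → K) (n : K[X]) : Prop :=
  e = d ∧
  (((∀ i ≤ d, η i = θ i) ∧ (∀ i ≤ d, η' i = θ' i) ∧ n = m) ∨
   ((∀ i ≤ d, η i = θ (d - i)) ∧ (∀ i ≤ d, η' i = θ' i) ∧
      n = m.comp (X - C ((θ 0 - θ d) * (θ' 0 - θ' 1)))) ∨
   ((∀ i ≤ d, η i = θ i) ∧ (∀ i ≤ d, η' i = θ' (d - i)) ∧
      n = m.comp (X - C ((θ' 0 - θ' d) * (θ 0 - θ 1)))) ∨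
   ((∀ i ≤ d, η i = θ (d - i)) ∧ (∀ i ≤ d, η' i = θ' (d - i)) ∧
      n = m.comp (X - C ((θ' 0 - θ' d) * (θ 0 - θ 1) + (θ 0 - θ d) * (θ' d - θ' (d - 1))))))

end Pool.Agent.H13.TD
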