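import Mathlib

/-! Scalar identities for recurrent sequences. -/

namespace Pool.Agent.H13.TD

variable {K : Type*} [Field K]

/-- universal sequence -/
def uu (β : K) : ℕ → K
  | 0 => 0
  | 1 => 1
  | (n + 2) => β * uu β (n + 1) - uu β n

/-- Casoratian translation: if `x, y` are homogeneous recurrent up to index `N`, then
`x_h y_{h+n} - y_h x_{h+n} = U_n (x_h y_{h+1} - y_h x_{h+1})`. -/
lemma cas_step (β : K) (x y : ℕ → K) (N : ℕ)
    (hx : ∀ k, k + 2 ≤ N → x k - β * x (k + 1) + x (k + 2) = 0)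
    (hy : ∀ k, k + 2 ≤ N → y k - β * y (k + 1) + y (k + 2) = 0) (h : ℕ) :
    ∀ n, h + n + 1 ≤ N →
      (x h * y (h + n) - y h * x (h + n) = uu β n * (x h * y (h + 1) - y h * x (h + 1))) ∧
      (x h * y (h + (n + 1)) - y h * x (h + (n + 1)) =
        uu β (n + 1) * (x h * y (h + 1) - y h * x (h + 1))) := by
  intro n
  induction n with
  | zero => intro _; simp [uu]; ring
  | succ n ih =>
    intro hn
    obtain ⟨h1, h2⟩ := ih (by omega)
    refine ⟨h2, ?_⟩
    have e1 := hx (h + n) (by omega)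
    have e2 := hy (h + n) (by omega)
    have e3 : h + n + 1 = h + (n + 1) := by ring
    have e4 : h + n + 2 = h + (n + 1 + 1) := by ring
    rw [e3, e4] at e1 e2
    have : uu β (n + 1 + 1) = β * uu β (n + 1) - uu β n := rfl
    rw [this]
    linear_combination x h * e2 - y h * e1 + β * h2 - h1

lemma cas_const (β : K) (x y : ℕ → K) (N : ℕ)
    (hx : ∀ k, k + 2 ≤ N → x k - β * x (k + 1) + x (k + 2) = 0)
    (hy : ∀ k, k + 2 ≤ N → y k - β * y (k + 1) + y (k + 2) = 0) :
    ∀ h, h + 1 ≤ N → x h * y (h + 1) - y h * x (h + 1) = x 0 * y 1 - y 0 * x 1 := by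
  intro h
  induction h with
  | zero => intro _; rfl
  | succ h ih =>
    intro hh
    rw [← ih (by omega)]
    have e1 := hx h (by omega)
    have e2 := hy h (by omega)
    have e4 : h + 1 + 1 = h + 2 := by ring
    rw [e4]
    linear_combination x (h + 1) * e2 - y (h + 1) * e1

lemma cas (β : K) (x y : ℕ → K) (N : ℕ)
    (hx : ∀ k, k + 2 ≤ N → x k - β * x (k + 1) + x (k + 2) = 0)
    (hy : ∀ k, k + 2 ≤ N → y k - β * y (k + 1) + y (k + 2) = 0) (h n : ℕ) (hn : h + n ≤ N) :
    x h * y (h + n) - y h * x (h + n) = uu β n * (x 0 * y 1 - y 0 * x 1) := by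
  rcases n with _ | n
  · simp [uu]; ring
  · rw [← cas_const β x y N hx hy h (by omega)]
    exact (cas_step β x y N hx hy h n (by omega)).2

/-- The key identity. -/
lemma cas_sum (β : K) (x y : ℕ → K) (m : ℕ)
    (hx : ∀ k, k + 2 ≤ m + 1 → x k - β * x (k + 1) + x (k + 2) = 0)
    (hy : ∀ k, k + 2 ≤ m + 1 → y k - β * y (k + 1) + y (k + 2) = 0) :
    (x 0 + x (m + 1)) * ∑ k ∈ Finset.range m, y (k + 1) =
      (y 0 + y (m + 1)) * ∑ k ∈ Finset.range m, x (k + 1) := by
  rw [← sub_eq_zero, Finset.mul_sum, Finset.mul_sum, ← Finset.sum_sub_distrib]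
  have h1 : ∀ k ∈ Finset.range m,
      (x 0 + x (m + 1)) * y (k + 1) - (y 0 + y (m + 1)) * x (k + 1) =
        uu β (k + 1) * (x 0 * y 1 - y 0 * x 1) - uu β (m - k) * (x 0 * y 1 - y 0 * x 1) := by
    intro k hk
    rw [Finset.mem_range] at hk
    have e1 := cas β x y (m + 1) hx hy 0 (k + 1) (by omega)
    have e2 := cas β x y (m + 1) hx hy (k + 1) (m - k) (by omega)
    have e3 : k + 1 + (m - k) = m + 1 := by omega
    rw [e3] at e2
    rw [zero_add] at e1
    linear_combination e1 - e2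
  rw [Finset.sum_congr rfl h1, Finset.sum_sub_distrib, ← Finset.sum_mul, ← Finset.sum_mul]
  have h2 : ∑ k ∈ Finset.range m, uu β (m - k) = ∑ k ∈ Finset.range m, uu β (k + 1) := by
    rw [← Finset.sum_range_reflect]
    apply Finset.sum_congr rfl
    intro k hk
    rw [Finset.mem_range] at hk
    congr 1
    omega
  rw [h2, sub_self]

/-- Ratio identity for two recurrent sequences. -/
lemma ratio (β : K) (θ η : ℕ → K) (a c m d : ℕ) (γ γ' : K) (ha : a + m + 2 ≤ d)
    (hc : c + m + 2 ≤ d)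
    (hθ : ∀ i, i + 2 ≤ d → θ i - β * θ (i + 1) + θ (i + 2) = γ)
    (hη : ∀ i, i + 2 ≤ d → η i - β * η (i + 1) + η (i + 2) = γ') :
    (θ a - θ (a + m + 2)) * (η (c + 1) - η (c + m + 1)) =
      (η c - η (c + m + 2)) * (θ (a + 1) - θ (a + m + 1)) := by
  have key := cas_sum β (fun k => θ (a + k + 1) - θ (a + k)) (fun k => η (c + k + 1) - η (c + k)) m
    (by
      intro k hk
      have e1 := hθ (a + k) (by omega)
      have e2 := hθ (a + k + 1) (by omega)
      simp only [show a + (k + 1) = a + k + 1 by ring, show a + (k + 2) = a + k + 2 by ring]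
      simp only [show a + k + 1 + 1 = a + k + 2 by ring, show a + k + 1 + 2 = a + k + 3 by ring]
        at e2
      linear_combination e2 - e1)
    (by
      intro k hk
      have e1 := hη (c + k) (by omega)
      have e2 := hη (c + k + 1) (by omega)
      simp only [show c + (k + 1) = c + k + 1 by ring, show c + (k + 2) = c + k + 2 by ring]
      simp only [show c + k + 1 + 1 = c + k + 2 by ring, show c + k + 1 + 2 = c + k + 3 by ring]
        at e2
      linear_combination e2 - e1)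
  have t1 : ∀ (f : ℕ → K) (b : ℕ), ∑ k ∈ Finset.range m, (f (b + (k + 1) + 1) - f (b + (k + 1))) =
      f (b + m + 1) - f (b + 1) := by
    intro f b
    have := Finset.sum_range_sub (fun k => f (b + k + 1)) m
    simp only [add_zero] at this
    rw [← this]
    apply Finset.sum_congr rfl
    intro k _
    rfl
  rw [t1, t1] at key
  simp only [add_zero] at key
  simp only [show a + (m + 1) = a + m + 1 by ring, show c + (m + 1) = c + m + 1 by ring] at key
  linear_combination key

/-- partial sums `s_i = ∑_{h<i} (θ_h - θ_{d-h})` -/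
def ss (d : ℕ) (θ : ℕ → K) (i : ℕ) : K := ∑ h ∈ Finset.range i, (θ h - θ (d - h))

lemma ss_succ (d : ℕ) (θ : ℕ → K) (i : ℕ) : ss d θ (i + 1) = ss d θ i + (θ i - θ (d - i)) := by
  rw [ss, Finset.sum_range_succ]
  rfl

lemma ss_zero (d : ℕ) (θ : ℕ → K) : ss d θ 0 = 0 := by simp [ss]

lemma ss_one (d : ℕ) (θ : ℕ → K) : ss d θ 1 = θ 0 - θ d := by simp [ss]

lemma ss_top (d : ℕ) (θ : ℕ → K) : ss d θ (d + 1) = 0 := by
  rw [ss, Finset.sum_sub_distrib, sub_eq_zero, ← Finset.sum_range_reflect]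
  apply Finset.sum_congr rfl
  intro k _
  congr 1

/-- `s_i = s_{d+1-i}` -/
lemma ss_symm (d : ℕ) (θ : ℕ → K) (i : ℕ) (hi : i ≤ d + 1) : ss d θ (d + 1 - i) = ss d θ i := by
  induction i with
  | zero => simp [ss_top, ss_zero]
  | succ i ih =>
    have h1 := ih (by omega)
    have e : d + 1 - i = (d - i) + 1 := by omega
    rw [e, ss_succ] at h1
    have e2 : d - (d - i) = i := by omega
    rw [e2] at h1
    have e3 : d + 1 - (i + 1) = d - i := by omega
    rw [e3, ss_succ]
    linear_combination h1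

/-- recurrence of the partial sums -/
lemma ss_rec (β γ : K) (d : ℕ) (θ : ℕ → K)
    (hθ : ∀ i, i + 2 ≤ d → θ i - β * θ (i + 1) + θ (i + 2) = γ) (j : ℕ) (hj : j + 2 ≤ d) :
    ss d θ (j + 1) - β * ss d θ (j + 2) + ss d θ (j + 3) =
      ss d θ j - β * ss d θ (j + 1) + ss d θ (j + 2) := by
  have e1 := ss_succ d θ j
  have e2 := ss_succ d θ (j + 1)
  have e3 := ss_succ d θ (j + 2)
  have r1 := hθ j hj
  have r2 := hθ (d - j - 2) (by omega)
  have f1 : d - j - 2 + 1 = d - (j + 1) := by omega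
  have f2 : d - j - 2 + 2 = d - j := by omega
  have f3 : d - j - 2 = d - (j + 2) := by omega
  rw [f1, f2, f3] at r2
  linear_combination e1 - β * e2 + e3 + r1 - r2

/-- The identity (J). -/
lemma identJ (β γ : K) (d : ℕ) (θ : ℕ → K)
    (hθ : ∀ i, i + 2 ≤ d → θ i - β * θ (i + 1) + θ (i + 2) = γ) (i : ℕ) (hi : 1 ≤ i)
    (hid : i + 1 ≤ d) :
    (θ (i - 1) - θ d) * (ss d θ (i + 1) - ss d θ 1) = (θ i - θ (d - 1)) * ss d θ i := by
  obtain ⟨m, rfl⟩ : ∃ m, d = i + m + 1 := ⟨d - i - 1, by omega⟩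
  obtain ⟨i, rfl⟩ : ∃ k, i = k + 1 := ⟨i - 1, by omega⟩
  simp only [Nat.add_sub_cancel]
  have hs1 : ss (i + 1 + m + 1) θ (i + 1) =
      ∑ h ∈ Finset.range (i + 1), (θ h - θ (h + m + 2)) := by
    rw [ss, Finset.sum_sub_distrib, Finset.sum_sub_distrib]
    congr 1
    rw [← Finset.sum_range_reflect (fun h => θ (h + m + 2))]
    apply Finset.sum_congr rfl
    intro k hk
    rw [Finset.mem_range] at hk
    congr 1
    omega
  have hs2 : ss (i + 1 + m + 1) θ (i + 1 + 1) - ss (i + 1 + m + 1) θ 1 =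
      ∑ h ∈ Finset.range (i + 1), (θ (h + 1) - θ (h + 1 + m)) := by
    rw [ss, ss, Finset.sum_range_succ', Finset.sum_range_one]
    simp only [Nat.sub_zero]
    rw [add_sub_assoc, sub_self, add_zero]
    rw [Finset.sum_sub_distrib, Finset.sum_sub_distrib]
    congr 1
    rw [← Finset.sum_range_reflect (fun h => θ (h + 1 + m))]
    apply Finset.sum_congr rfl
    intro k hk
    rw [Finset.mem_range] at hk
    congr 1
    omega
  rw [hs1, hs2, Finset.mul_sum, Finset.mul_sum]
  apply Finset.sum_congr rfl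
  intro h hh
  rw [Finset.mem_range] at hh
  have := ratio β θ θ h i m (i + 1 + m + 1) γ γ (by omega) (by omega) hθ hθ
  have e1 : i + m + 2 = i + 1 + m + 1 := by ring
  have e2 : i + m + 1 = i + 1 + m := by ring
  have e3 : h + m + 1 = h + 1 + m := by ring
  rw [e1, e2, e3] at this
  linear_combination -this

end Pool.Agent.H13.TD
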