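import Mathlib
import Pool.Agent.H13.TDDefs
import Pool.Agent.H13.TDScalar

/-! Abstract theory of tridiagonal pairs of constant shape. -/

open Module Polynomial

namespace Pool.Agent.H13.TD

variable {K V : Type*} [Field K] [AddCommGroup V] [Module K V]

/-- Sum of the eigenspaces with index in `I`. -/
def Sp (A : End K V) (θ : ℕ → K) (I : Finset ℕ) : Submodule K V :=
  ⨆ h ∈ I, A.eigenspace (θ h)

lemma eig_le_Sp {A : End K V} {θ : ℕ → K} {I : Finset ℕ} {h : ℕ} (hh : h ∈ I) :
    A.eigenspace (θ h) ≤ Sp A θ I := le_iSup₂_of_le h hh le_rfl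

lemma Sp_mono {A : End K V} {θ : ℕ → K} {I J : Finset ℕ} (h : I ⊆ J) :
    Sp A θ I ≤ Sp A θ J := iSup₂_le fun _ hh => eig_le_Sp (h hh)

lemma Sp_le {A : End K V} {θ : ℕ → K} {I : Finset ℕ} {Q : Submodule K V}
    (f : V →ₗ[K] V) (h : ∀ k ∈ I, ∀ v, A v = θ k • v → f v ∈ Q) :
    ∀ v ∈ Sp A θ I, f v ∈ Q := by
  have : Sp A θ I ≤ Q.comap f := iSup₂_le fun k hk v hv => by
    rw [Submodule.mem_comap]
    exact h k hk v (Module.End.mem_eigenspace_iff.1 hv)
  exact this

lemma Sp_disjoint {A : End K V} {θ : ℕ → K} {I J : Finset ℕ} {d : ℕ}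
    (inj : ∀ i ≤ d, ∀ j ≤ d, θ i = θ j → i = j) (hI : ∀ i ∈ I, i ≤ d) (hJ : ∀ i ∈ J, i ≤ d)
    (hIJ : Disjoint I J) : Sp A θ I ⊓ Sp A θ J = ⊥ := by
  have h := A.eigenspaces_iSupIndep
  have h2 := h.disjoint_biSup_biSup (s := θ '' (I : Set ℕ)) (t := θ '' (J : Set ℕ)) (by
    rw [Set.disjoint_left]
    rintro _ ⟨i, hi, rfl⟩ ⟨j, hj, hij⟩
    have := inj j (hJ j hj) i (hI i hi) hij
    subst this
    exact Finset.disjoint_left.1 hIJ hi hj)
  rw [iSup_image, iSup_image] at h2
  exact h2.eq_bot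

lemma Sp_insert {A : End K V} {θ : ℕ → K} {I : Finset ℕ} {h : ℕ} :
    Sp A θ (insert h I) = A.eigenspace (θ h) ⊔ Sp A θ I := by
  rw [Sp, Finset.iSup_insert]
  rfl

lemma Sp_empty {A : End K V} {θ : ℕ → K} : Sp A θ ∅ = ⊥ := by simp [Sp]

/-- Internal form of a standard order. -/
structure Std (A B : End K V) (d : ℕ) (θ : ℕ → K) : Prop where
  inj : ∀ i ≤ d, ∀ j ≤ d, θ i = θ j → i = j
  ne : ∀ i ≤ d, A.eigenspace (θ i) ≠ ⊥
  top : Sp A θ (Finset.range (d + 1)) = ⊤
  tri : ∀ i ≤ d, ∀ v, A v = θ i • v → B v ∈ Sp A θ (Finset.Icc (i - 1) (min (i + 1) d))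

lemma Std.rev {A B : End K V} {d : ℕ} {θ : ℕ → K} (h : Std A B d θ) :
    Std A B d (fun i => θ (d - i)) where
  inj := by
    intro i hi j hj hij
    have := h.inj (d - i) (by omega) (d - j) (by omega) hij
    omega
  ne := fun i _ => h.ne (d - i) (by omega)
  top := by
    rw [eq_top_iff, ← h.top]
    refine iSup₂_le fun k hk => ?_
    rw [Finset.mem_range] at hk
    refine le_iSup₂_of_le (d - k) (by rw [Finset.mem_range]; omega) ?_
    beta_reduce
    rw [show d - (d - k) = k by omega]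
  tri := by
    intro i hi v hv
    have := h.tri (d - i) (by omega) v hv
    refine (show Sp A θ _ ≤ _ from ?_) this
    refine iSup₂_le fun k hk => ?_
    rw [Finset.mem_Icc] at hk
    refine le_iSup₂_of_le (d - k) (by rw [Finset.mem_Icc]; omega) ?_
    beta_reduce
    rw [show d - (d - k) = k by omega]

/-- upper flag -/
def FF (A : End K V) (θ : ℕ → K) (d i : ℕ) : Submodule K V :=
  Sp A θ ((Finset.range (d + 1)).filter (fun k => i ≤ k))

/-- lower flag -/
def GG (B : End K V) (θ : ℕ → K) (d i : ℕ) : Submodule K V :=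
  Sp B θ ((Finset.range (d + 1)).filter (fun k => k < i))

lemma FF_anti (A : End K V) (θ : ℕ → K) (d : ℕ) {i j : ℕ} (h : i ≤ j) :
    FF A θ d j ≤ FF A θ d i := by
  apply Sp_mono
  intro k
  simp only [Finset.mem_filter]
  rintro ⟨h1, h2⟩
  exact ⟨h1, by omega⟩

lemma GG_mono (A : End K V) (θ : ℕ → K) (d : ℕ) {i j : ℕ} (h : i ≤ j) :
    GG A θ d i ≤ GG A θ d j := by
  apply Sp_mono
  intro k
  simp only [Finset.mem_filter]
  rintro ⟨h1, h2⟩
  exact ⟨h1, by omega⟩

lemma FF_zero {A B : End K V} {θ : ℕ → K} {d : ℕ} (h : Std A B d θ) : FF A θ d 0 = ⊤ := by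
  rw [← h.top, FF]
  congr 1
  ext k
  simp

lemma GG_top {A B : End K V} {θ : ℕ → K} {d i : ℕ} (h : Std A B d θ) (hi : d + 1 ≤ i) :
    GG A θ d i = ⊤ := by
  rw [← h.top, GG]
  congr 1
  ext k
  simp only [Finset.mem_filter, Finset.mem_range]
  omega

lemma FF_bot (A : End K V) (θ : ℕ → K) {d i : ℕ} (hi : d < i) : FF A θ d i = ⊥ := by
  rw [FF, ← Sp_empty (A := A) (θ := θ)]
  congr 1
  ext k
  simp only [Finset.mem_filter, Finset.mem_range, Finset.notMem_empty, iff_false]
  omega

lemma GG_zero (A : End K V) (θ : ℕ → K) (d : ℕ) : GG A θ d 0 = ⊥ := by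
  rw [GG, ← Sp_empty (A := A) (θ := θ)]
  congr 1
  ext k
  simp

lemma GG_one (A : End K V) (θ : ℕ → K) (d : ℕ) : GG A θ d 1 = A.eigenspace (θ 0) := by
  have : (Finset.range (d + 1)).filter (fun k => k < 1) = insert 0 ∅ := by
    ext k
    simp only [Finset.mem_filter, Finset.mem_range, Finset.mem_insert, Finset.notMem_empty,
      or_false]
    omega
  rw [GG, this, Sp_insert, Sp_empty, sup_bot_eq]

lemma FF_A {A : End K V} {θ : ℕ → K} {d i : ℕ} :
    ∀ v ∈ FF A θ d i, A v - θ i • v ∈ FF A θ d (i + 1) := by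
  have := Sp_le (A := A) (θ := θ) (I := (Finset.range (d + 1)).filter (fun k => i ≤ k))
    (Q := FF A θ d (i + 1)) (A - θ i • 1) (by
      intro k hk v hv
      simp only [Finset.mem_filter] at hk
      simp only [LinearMap.sub_apply, LinearMap.smul_apply, Module.End.one_apply]
      rw [hv, ← sub_smul]
      by_cases hki : k = i
      · subst hki; simp
      · apply Submodule.smul_mem
        refine eig_le_Sp (h := k) ?_ (Module.End.mem_eigenspace_iff.2 hv)
        simp only [Finset.mem_filter]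
        exact ⟨hk.1, by omega⟩)
  exact fun v hv => this v hv

lemma GG_A {A : End K V} {θ : ℕ → K} {d i : ℕ} :
    ∀ v ∈ GG A θ d (i + 1), A v - θ i • v ∈ GG A θ d i := by
  have := Sp_le (A := A) (θ := θ) (I := (Finset.range (d + 1)).filter (fun k => k < i + 1))
    (Q := GG A θ d i) (A - θ i • 1) (by
      intro k hk v hv
      simp only [Finset.mem_filter] at hk
      simp only [LinearMap.sub_apply, LinearMap.smul_apply, Module.End.one_apply]
      rw [hv, ← sub_smul]
      by_cases hki : k = i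
      · subst hki; simp
      · apply Submodule.smul_mem
        refine eig_le_Sp (h := k) ?_ (Module.End.mem_eigenspace_iff.2 hv)
        simp only [Finset.mem_filter]
        exact ⟨hk.1, by omega⟩)
  exact fun v hv => this v hv

lemma FF_B {A B : End K V} {θ : ℕ → K} {d i : ℕ} (h : Std A B d θ) :
    ∀ v ∈ FF A θ d (i + 1), B v ∈ FF A θ d i := by
  apply Sp_le
  intro k hk v hv
  simp only [Finset.mem_filter, Finset.mem_range] at hk
  refine Sp_mono ?_ (h.tri k (by omega) v hv)
  intro l hl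
  simp only [Finset.mem_Icc] at hl
  simp only [Finset.mem_filter, Finset.mem_range]
  omega

lemma GG_B {A B : End K V} {θ : ℕ → K} {d i : ℕ} (h : Std A B d θ) :
    ∀ v ∈ GG A θ d i, B v ∈ GG A θ d (i + 1) := by
  apply Sp_le
  intro k hk v hv
  simp only [Finset.mem_filter, Finset.mem_range] at hk
  refine Sp_mono ?_ (h.tri k (by omega) v hv)
  intro l hl
  simp only [Finset.mem_Icc] at hl
  simp only [Finset.mem_filter, Finset.mem_range]
  omega

/-- irreducibility -/
def Irr (A B : End K V) : Prop :=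
  ∀ W : Submodule K V, (∀ w ∈ W, A w ∈ W) → (∀ w ∈ W, B w ∈ W) → W = ⊥ ∨ W = ⊤

lemma GF_bot {A B : End K V} {θ θ' : ℕ → K} {d δ : ℕ} (hA : Std A B d θ) (hB : Std B A δ θ')
    (irr : Irr A B) (i : ℕ) : GG B θ' δ i ⊓ FF A θ d i = ⊥ := by
  set W : Submodule K V := ⨆ i, GG B θ' δ i ⊓ FF A θ d i with hW
  have hle : ∀ i, GG B θ' δ i ⊓ FF A θ d i ≤ W := fun i =>
    le_iSup (fun i => GG B θ' δ i ⊓ FF A θ d i) i
  have h1 : ∀ w ∈ W, A w ∈ W := by
    have : W ≤ W.comap A := by
      refine iSup_le fun i v hv => ?_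
      rw [Submodule.mem_comap]
      have e1 : A v - θ i • v ∈ W := hle (i + 1) ⟨by
        apply Submodule.sub_mem
        · exact GG_B hB v hv.1
        · exact Submodule.smul_mem _ _ (GG_mono _ _ _ (by omega) hv.1), FF_A v hv.2⟩
      have e2 : θ i • v ∈ W := Submodule.smul_mem _ _ (hle i hv)
      have := Submodule.add_mem _ e1 e2
      rwa [sub_add_cancel] at this
    exact this
  have h2 : ∀ w ∈ W, B w ∈ W := by
    have : W ≤ W.comap B := by
      refine iSup_le fun i v hv => ?_
      rw [Submodule.mem_comap]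
      rcases i with _ | i
      · rw [GG_zero] at hv
        have : v = 0 := by simpa using hv.1
        rw [this, map_zero]
        exact Submodule.zero_mem _
      · have e1 : B v - θ' i • v ∈ W := hle i ⟨GG_A v hv.1, by
          apply Submodule.sub_mem
          · exact FF_B hA v hv.2
          · exact Submodule.smul_mem _ _ (FF_anti _ _ _ (by omega) hv.2)⟩
        have e2 : θ' i • v ∈ W := Submodule.smul_mem _ _ (hle (i + 1) hv)
        have := Submodule.add_mem _ e1 e2
        rwa [sub_add_cancel] at this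
    exact this
  have h3 : W ≤ FF A θ d 1 := by
    refine iSup_le fun i => ?_
    rcases i with _ | i
    · rw [GG_zero]; simp
    · exact inf_le_right.trans (FF_anti _ _ _ (by omega))
  have h4 : W ≠ ⊤ := by
    intro h
    rw [h, top_le_iff] at h3
    have h5 := Sp_disjoint (A := A) (θ := θ) (I := {0})
      (J := (Finset.range (d + 1)).filter (fun k => 1 ≤ k)) hA.inj (by simp)
      (by intro k hk; simp only [Finset.mem_filter, Finset.mem_range] at hk; omega)
      (by simp)
    change Sp A θ {0} ⊓ FF A θ d 1 = ⊥ at h5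
    rw [h3, inf_top_eq] at h5
    apply hA.ne 0 (Nat.zero_le _)
    rw [eq_bot_iff, ← h5]
    exact eig_le_Sp (by simp)
  rcases irr W h1 h2 with h | h
  · rw [eq_bot_iff, ← h]
    exact hle i
  · exact absurd h h4

lemma GF_top {A B : End K V} {θ θ' : ℕ → K} {d δ : ℕ} (hA : Std A B d θ) (hB : Std B A δ θ')
    (irr : Irr A B) : ⨆ i, GG B θ' δ (i + 1) ⊓ FF A θ d i = ⊤ := by
  set W : Submodule K V := ⨆ i, GG B θ' δ (i + 1) ⊓ FF A θ d i with hW
  have hle : ∀ i, GG B θ' δ (i + 1) ⊓ FF A θ d i ≤ W := fun i =>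
    le_iSup (fun i => GG B θ' δ (i + 1) ⊓ FF A θ d i) i
  have h1 : ∀ w ∈ W, A w ∈ W := by
    have : W ≤ W.comap A := by
      refine iSup_le fun i v hv => ?_
      rw [Submodule.mem_comap]
      have e1 : A v - θ i • v ∈ W := hle (i + 1) ⟨by
        apply Submodule.sub_mem
        · exact GG_B hB v hv.1
        · exact Submodule.smul_mem _ _ (GG_mono _ _ _ (by omega) hv.1), FF_A v hv.2⟩
      have e2 : θ i • v ∈ W := Submodule.smul_mem _ _ (hle i hv)
      have := Submodule.add_mem _ e1 e2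
      rwa [sub_add_cancel] at this
    exact this
  have h2 : ∀ w ∈ W, B w ∈ W := by
    have : W ≤ W.comap B := by
      refine iSup_le fun i v hv => ?_
      rw [Submodule.mem_comap]
      have e2 : θ' i • v ∈ W := Submodule.smul_mem _ _ (hle i hv)
      have e1 : B v - θ' i • v ∈ W := by
        rcases i with _ | i
        · have := GG_A v hv.1
          rw [GG_zero, Submodule.mem_bot] at this
          rw [this]
          exact Submodule.zero_mem _
        · exact hle i ⟨GG_A v hv.1, by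
            apply Submodule.sub_mem
            · exact FF_B hA v hv.2
            · exact Submodule.smul_mem _ _ (FF_anti _ _ _ (by omega) hv.2)⟩
      have := Submodule.add_mem _ e1 e2
      rwa [sub_add_cancel] at this
    exact this
  rcases irr W h1 h2 with h | h
  · exfalso
    have h5 := hle 0
    rw [h, zero_add, GG_one, FF_zero hA, inf_top_eq, le_bot_iff] at h5
    exact hB.ne 0 (Nat.zero_le _) h5
  · exact h

lemma diam_le {A B : End K V} {θ θ' : ℕ → K} {d δ : ℕ} (hA : Std A B d θ) (hB : Std B A δ θ')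
    (irr : Irr A B) : d ≤ δ := by
  by_contra hlt
  have h1 := GF_bot hA hB irr (δ + 1)
  rw [GG_top hB le_rfl, top_inf_eq] at h1
  apply hA.ne d le_rfl
  rw [eq_bot_iff, ← h1]
  refine eig_le_Sp ?_
  simp only [Finset.mem_filter, Finset.mem_range]
  omega

lemma Irr.symm {A B : End K V} (h : Irr A B) : Irr B A := fun W h1 h2 => h W h2 h1

lemma diam_eq {A B : End K V} {θ θ' : ℕ → K} {d δ : ℕ} (hA : Std A B d θ) (hB : Std B A δ θ')
    (irr : Irr A B) : d = δ :=
  le_antisymm (diam_le hA hB irr) (diam_le hB hA irr.symm)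

end Pool.Agent.H13.TD
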