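import Mathlib

/-! An irreducible operator is multiplication by the root in `K[X]/(m)`. -/

open Module Polynomial

namespace Pool.Agent.H13.TD

lemma cyclic_model {K W : Type*} [Field K] [AddCommGroup W] [Module K W] [FiniteDimensional K W]
    [Nontrivial W] (φ : End K W)
    (h : ∀ S : Submodule K W, (∀ w ∈ S, φ w ∈ S) → S = ⊥ ∨ S = ⊤) :
    ∃ m : K[X], m.Monic ∧ Irreducible m ∧ m.natDegree = finrank K W ∧
      ∃ e : AdjoinRoot m ≃ₗ[K] W, ∀ a, e (AdjoinRoot.root m * a) = φ (e a) := by
  set m := minpoly K φ with hm
  have hint : IsIntegral K φ := Algebra.IsIntegral.isIntegral φ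
  have hmonic : m.Monic := minpoly.monic hint
  -- invariant subspaces
  have hrange : ∀ q : K[X], aeval φ q = 0 ∨ LinearMap.range (aeval φ q) = ⊤ := by
    intro q
    rcases h (LinearMap.range (aeval φ q)) (by
      rintro _ ⟨w, rfl⟩
      refine ⟨φ w, ?_⟩
      have : aeval φ q * φ = φ * aeval φ q := by
        have h1 : aeval φ (q * X) = aeval φ q * φ := by rw [map_mul, aeval_X]
        have h2 : aeval φ (X * q) = φ * aeval φ q := by rw [map_mul, aeval_X]
        rw [← h1, ← h2, mul_comm]
      exact LinearMap.congr_fun this w) with h1 | h1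
    · left
      exact LinearMap.range_eq_bot.1 h1
    · right; exact h1
  have hirr : Irreducible m := by
    constructor
    · exact minpoly.not_isUnit K φ
    · intro a b hab
      have h0 : aeval φ a * aeval φ b = 0 := by rw [← map_mul, ← hab, hm, minpoly.aeval]
      have ha0 : a ≠ 0 := by
        rintro rfl
        rw [zero_mul] at hab
        exact hmonic.ne_zero hab
      have hb0 : b ≠ 0 := by
        rintro rfl
        rw [mul_zero] at hab
        exact hmonic.ne_zero hab
      have hdeg : m.natDegree = a.natDegree + b.natDegree := by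
        rw [hab, natDegree_mul ha0 hb0]
      rcases hrange b with h1 | h1
      · -- m ∣ b
        left
        have h2 : m ∣ b := minpoly.dvd K φ h1
        have h3 := Polynomial.natDegree_le_of_dvd h2 hb0
        rw [Polynomial.isUnit_iff_degree_eq_zero, degree_eq_natDegree ha0]
        have : a.natDegree = 0 := by omega
        rw [this]; rfl
      · right
        have h2 : aeval φ a = 0 := by
          ext w
          have : w ∈ LinearMap.range (aeval φ b) := by rw [h1]; exact Submodule.mem_top
          obtain ⟨v, rfl⟩ := this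
          exact LinearMap.congr_fun h0 v
        have h3 : m ∣ a := minpoly.dvd K φ h2
        have h4 := Polynomial.natDegree_le_of_dvd h3 ha0
        rw [Polynomial.isUnit_iff_degree_eq_zero, degree_eq_natDegree hb0]
        have : b.natDegree = 0 := by omega
        rw [this]; rfl
  obtain ⟨u0, hu0⟩ := exists_ne (0 : W)
  set G : K[X] →ₗ[K] W := (LinearMap.applyₗ u0 : End K W →ₗ[K] W) ∘ₗ (aeval φ).toLinearMap
    with hG
  have hGp : ∀ p, G p = aeval φ p u0 := fun p => rfl
  have hGX : ∀ p, G (X * p) = φ (G p) := by
    intro p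
    rw [hGp, hGp, map_mul, aeval_X]
    rfl
  have hsurj : Function.Surjective G := by
    rw [← LinearMap.range_eq_top]
    rcases h (LinearMap.range G) (by
      rintro _ ⟨a, rfl⟩
      exact ⟨_, hGX a⟩) with h1 | h1
    · exfalso
      have : G 1 ∈ LinearMap.range G := ⟨1, rfl⟩
      rw [h1, Submodule.mem_bot, hGp, map_one] at this
      exact hu0 this
    · exact h1
  have hker : ∀ p, G p = 0 ↔ m ∣ p := by
    intro p
    constructor
    · intro ha
      apply minpoly.dvd K φ
      ext w
      obtain ⟨q, rfl⟩ := hsurj w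
      have h1 : aeval φ p * aeval φ q = aeval φ q * aeval φ p := by
        rw [← map_mul, ← map_mul, mul_comm]
      have h2 := LinearMap.congr_fun h1 u0
      rw [Module.End.mul_apply, Module.End.mul_apply, ← hGp p, ha, map_zero] at h2
      exact h2
    · rintro ⟨q, rfl⟩
      rw [hGp, map_mul, hm, minpoly.aeval, zero_mul]
      rfl
  set N : K[X] →ₗ[K] AdjoinRoot m := (AdjoinRoot.mkₐ m).toLinearMap with hN
  have hNp : ∀ p, N p = AdjoinRoot.mk m p := fun p => rfl
  have hNsurj : Function.Surjective N := AdjoinRoot.mk_surjective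
  have hkk : LinearMap.ker N = LinearMap.ker G := by
    ext p
    rw [LinearMap.mem_ker, LinearMap.mem_ker, hker, hNp, AdjoinRoot.mk_eq_zero]
  set e : AdjoinRoot m ≃ₗ[K] W := (N.quotKerEquivOfSurjective hNsurj).symm ≪≫ₗ
    (Submodule.quotEquivOfEq _ _ hkk) ≪≫ₗ (G.quotKerEquivOfSurjective hsurj) with he
  have hemk : ∀ p, e (AdjoinRoot.mk m p) = G p := by
    intro p
    rw [he, LinearEquiv.trans_apply, LinearEquiv.trans_apply, ← hNp]
    have : (N.quotKerEquivOfSurjective hNsurj).symm (N p) = Submodule.Quotient.mk p := by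
      rw [LinearEquiv.symm_apply_eq]
      rfl
    rw [this]
    rfl
  have heroot : ∀ a, e (AdjoinRoot.root m * a) = φ (e a) := by
    intro a
    induction a using AdjoinRoot.induction_on with
    | ih p => rw [← AdjoinRoot.mk_X, ← map_mul, hemk, hemk, hGX]
  refine ⟨m, hmonic, hirr, ?_, e, heroot⟩
  rw [← e.finrank_eq]
  exact (finrank_quotient_span_eq_natDegree (f := m)).symm

end Pool.Agent.H13.TD
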