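import Mathlib
import Pool.Agent.H13.TDAbs

/-! Dimension counts for tridiagonal pairs of constant shape. -/

open Module Polynomial

namespace Pool.Agent.H13.TD

variable {K V : Type*} [Field K] [AddCommGroup V] [Module K V]

lemma aeval_eig {A : End K V} {μ : K} {v : V} (h : A v = μ • v) (p : K[X]) :
    aeval A p v = (p.eval μ) • v := by
  induction p using Polynomial.induction_on' with
  | add p q hp hq => rw [map_add, LinearMap.add_apply, hp, hq, eval_add, add_smul]
  | monomial n a =>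
    rw [aeval_monomial, eval_monomial]
    have h2 : ∀ n : ℕ, (A ^ n) v = μ ^ n • v := by
      intro n
      induction n with
      | zero => simp
      | succ n ih => rw [pow_succ', Module.End.mul_apply, ih, map_smul, h, smul_smul, pow_succ]
    rw [Module.End.mul_apply, h2, map_smul, Module.algebraMap_end_apply, smul_smul, mul_comm]

/-- product of the `A - θ_h`, `h < i` -/
def TT (A : End K V) (θ : ℕ → K) : ℕ → End K V
  | 0 => 1
  | (i + 1) => (A - θ i • 1) * TT A θ i

@[simp] lemma TT_zero (A : End K V) (θ : ℕ → K) (v : V) : TT A θ 0 v = v := rfl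

lemma TT_succ (A : End K V) (θ : ℕ → K) (i : ℕ) (v : V) :
    TT A θ (i + 1) v = A (TT A θ i v) - θ i • TT A θ i v := rfl

lemma A_TT (A : End K V) (θ : ℕ → K) (i : ℕ) (v : V) :
    A (TT A θ i v) = TT A θ (i + 1) v + θ i • TT A θ i v := by
  rw [TT_succ, sub_add_cancel]

/-- scalar product -/
def tau (θ : ℕ → K) (x : K) : ℕ → K
  | 0 => 1
  | (i + 1) => (x - θ i) * tau θ x i

lemma tau_ne {θ : ℕ → K} {d : ℕ} (inj : ∀ i ≤ d, ∀ j ≤ d, θ i = θ j → i = j) {i : ℕ}
    (hi : i ≤ d) : tau θ (θ d) i ≠ 0 := by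
  induction i with
  | zero => exact one_ne_zero
  | succ i ih =>
    refine mul_ne_zero ?_ (ih (by omega))
    rw [sub_ne_zero]
    intro h
    have := inj d le_rfl i (by omega) h
    omega

lemma TT_GG {A B : End K V} {θ θ' : ℕ → K} {d : ℕ} (hB : Std B A d θ') {u : V}
    (hu : u ∈ GG B θ' d 1) (i : ℕ) : TT A θ i u ∈ GG B θ' d (i + 1) := by
  induction i with
  | zero => exact hu
  | succ i ih =>
    rw [TT_succ]
    apply Submodule.sub_mem
    · exact GG_B hB _ ih
    · exact Submodule.smul_mem _ _ (GG_mono _ _ _ (by omega) ih)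

lemma TT_FF {A B : End K V} {θ : ℕ → K} {d : ℕ} (hA : Std A B d θ) (v : V) (i : ℕ) :
    TT A θ i v ∈ FF A θ d i := by
  induction i with
  | zero => rw [FF_zero hA]; exact Submodule.mem_top
  | succ i ih => exact FF_A _ ih

lemma A_modR {A B : End K V} {θ : ℕ → K} {d : ℕ} (hA : Std A B d θ) (v : V) :
    A v - θ d • v ∈ GG A θ d d :=
  GG_A _ (by rw [GG_top hA le_rfl]; exact Submodule.mem_top)

lemma GG_stable {A : End K V} {θ : ℕ → K} {d i : ℕ} {v : V} (hv : v ∈ GG A θ d i) :
    A v ∈ GG A θ d i := by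
  have h1 := GG_A (A := A) (θ := θ) (d := d) (i := i) v (GG_mono _ _ _ (by omega) hv)
  have h2 := Submodule.add_mem _ h1 (Submodule.smul_mem _ (θ i) hv)
  rwa [sub_add_cancel] at h2

lemma TT_modR {A B : End K V} {θ : ℕ → K} {d : ℕ} (hA : Std A B d θ) (v : V) (i : ℕ) :
    TT A θ i v - tau θ (θ d) i • v ∈ GG A θ d d := by
  induction i with
  | zero => simp [tau]
  | succ i ih =>
    have h1 := GG_stable ih
    have h2 := A_modR hA v
    have : TT A θ (i + 1) v - tau θ (θ d) (i + 1) • v =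
        A (TT A θ i v - tau θ (θ d) i • v) - θ i • (TT A θ i v - tau θ (θ d) i • v) +
          tau θ (θ d) i • (A v - θ d • v) := by
      rw [TT_succ, tau, map_sub, map_smul]
      module
    rw [this]
    exact Submodule.add_mem _ (Submodule.sub_mem _ h1 (Submodule.smul_mem _ _ ih))
      (Submodule.smul_mem _ _ h2)

lemma W_R {A B : End K V} {θ θ' : ℕ → K} {d δ : ℕ} (hA : Std A B d θ) (hB : Std B A δ θ')
    (irr : Irr A B) : GG B θ' δ 1 ⊓ GG A θ d d = ⊥ := by
  have h := GF_bot hA.rev hB irr 1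
  rw [eq_bot_iff, ← h]
  refine inf_le_inf le_rfl ?_
  refine iSup₂_le fun k hk => ?_
  simp only [Finset.mem_filter, Finset.mem_range] at hk
  refine le_iSup₂_of_le (d - k) (by simp only [Finset.mem_filter, Finset.mem_range]; omega) ?_
  beta_reduce
  rw [show d - (d - k) = k by omega]

lemma TT_inj {A B : End K V} {θ θ' : ℕ → K} {d : ℕ} (hA : Std A B d θ) (hB : Std B A d θ')
    (irr : Irr A B) {u : V} (hu : u ∈ GG B θ' d 1) {i : ℕ} (hi : i ≤ d) (h : TT A θ i u = 0) :
    u = 0 := by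
  have h1 := TT_modR hA u i
  rw [h, zero_sub, Submodule.neg_mem_iff] at h1
  have h2 : u ∈ GG A θ d d := by
    have := Submodule.smul_mem _ (tau θ (θ d) i)⁻¹ h1
    rwa [smul_smul, inv_mul_cancel₀ (tau_ne hA.inj hi), one_smul] at this
  have : u ∈ GG B θ' d 1 ⊓ GG A θ d d := ⟨hu, h2⟩
  rw [W_R hA hB irr] at this
  exact this

variable [FiniteDimensional K V]

lemma finrank_Sp {A : End K V} {θ : ℕ → K} {d ρ : ℕ}
    (inj : ∀ i ≤ d, ∀ j ≤ d, θ i = θ j → i = j)
    (hρ : ∀ i ≤ d, finrank K (A.eigenspace (θ i)) = ρ) (I : Finset ℕ) (hI : ∀ i ∈ I, i ≤ d) :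
    finrank K (Sp A θ I) = I.card * ρ := by
  induction I using Finset.induction_on with
  | empty => simp [Sp_empty]
  | insert a I ha ih =>
    rw [Sp_insert, Finset.card_insert_of_notMem ha]
    have h1 := Submodule.finrank_sup_add_finrank_inf_eq (A.eigenspace (θ a)) (Sp A θ I)
    have h2 := Sp_disjoint (A := A) (θ := θ) (I := {a}) (J := I) inj
      (by simpa using hI a (Finset.mem_insert_self _ _))
      (fun i hi => hI i (Finset.mem_insert_of_mem hi)) (by simpa using ha)
    have h3 : Sp A θ {a} = A.eigenspace (θ a) := by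
      rw [show ({a} : Finset ℕ) = insert a ∅ from rfl, Sp_insert, Sp_empty, sup_bot_eq]
    rw [h3] at h2
    rw [h2, finrank_bot, add_zero, hρ a (hI a (Finset.mem_insert_self _ _)),
      ih (fun i hi => hI i (Finset.mem_insert_of_mem hi))] at h1
    rw [h1]
    ring

lemma finrank_FF {A : End K V} {θ : ℕ → K} {d ρ : ℕ}
    (inj : ∀ i ≤ d, ∀ j ≤ d, θ i = θ j → i = j)
    (hρ : ∀ i ≤ d, finrank K (A.eigenspace (θ i)) = ρ) (i : ℕ) :
    finrank K (FF A θ d i) = (d + 1 - i) * ρ := by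
  rw [FF, finrank_Sp inj hρ _ (by
    intro k hk
    simp only [Finset.mem_filter, Finset.mem_range] at hk
    omega)]
  congr 1
  have : (Finset.range (d + 1)).filter (fun k => i ≤ k) = Finset.Ico i (d + 1) := by
    ext k
    simp only [Finset.mem_filter, Finset.mem_range, Finset.mem_Ico]
    omega
  rw [this, Nat.card_Ico]

lemma finrank_V {A B : End K V} {θ : ℕ → K} {d ρ : ℕ} (hA : Std A B d θ)
    (hρ : ∀ i ≤ d, finrank K (A.eigenspace (θ i)) = ρ) : finrank K V = (d + 1) * ρ := by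
  have := finrank_FF hA.inj hρ 0
  rw [FF_zero hA, finrank_top] at this
  exact this

lemma GG_le {A B : End K V} {θ θ' : ℕ → K} {d ρ : ℕ} (hA : Std A B d θ) (hB : Std B A d θ')
    (irr : Irr A B) (hρ : ∀ i ≤ d, finrank K (A.eigenspace (θ i)) = ρ) (i : ℕ) (hi : i ≤ d + 1) :
    finrank K (GG B θ' d i) ≤ i * ρ := by
  have h1 := Submodule.finrank_add_finrank_le_of_disjoint
    (disjoint_iff.2 (GF_bot hA hB irr i))
  rw [finrank_FF hA.inj hρ, finrank_V hA hρ] at h1
  have h2 : (d + 1) * ρ = i * ρ + (d + 1 - i) * ρ := by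
    rw [← add_mul]; congr 1; omega
  omega

lemma finrank_GG {A B : End K V} {θ θ' : ℕ → K} {d ρ : ℕ} (hA : Std A B d θ)
    (hB : Std B A d θ') (irr : Irr A B)
    (hρ : ∀ i ≤ d, finrank K (A.eigenspace (θ i)) = ρ) (i : ℕ) (hi : i ≤ d + 1) :
    finrank K (GG B θ' d i) = i * ρ := by
  have h1 := GG_le hA hB irr hρ i hi
  have h2 := GG_le hA hB.rev irr hρ (d + 1 - i) (by omega)
  have h3 : GG B θ' d i ⊔ GG B (fun i => θ' (d - i)) d (d + 1 - i) = ⊤ := by
    rw [eq_top_iff, ← hB.top]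
    refine iSup₂_le fun k hk => ?_
    rw [Finset.mem_range] at hk
    by_cases hki : k < i
    · refine le_sup_of_le_left (eig_le_Sp (h := k) ?_)
      simp only [Finset.mem_filter, Finset.mem_range]
      omega
    · refine le_sup_of_le_right ?_
      refine le_iSup₂_of_le (d - k) (by simp only [Finset.mem_filter, Finset.mem_range]; omega) ?_
      beta_reduce
      rw [show d - (d - k) = k by omega]
  have h4 := Submodule.finrank_add_le_finrank_add_finrank (GG B θ' d i)
    (GG B (fun i => θ' (d - i)) d (d + 1 - i))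
  rw [h3, finrank_top, finrank_V hA hρ] at h4
  have h5 : (d + 1) * ρ = i * ρ + (d + 1 - i) * ρ := by
    rw [← add_mul]; congr 1; omega
  omega

/-- the split subspace `U_i` is the image of `U_0` -/
lemma U_le {A B : End K V} {θ θ' : ℕ → K} {d ρ : ℕ} (hA : Std A B d θ)
    (hB : Std B A d θ') (irr : Irr A B)
    (hρ : ∀ i ≤ d, finrank K (A.eigenspace (θ i)) = ρ) (i : ℕ) (hi : i ≤ d) :
    GG B θ' d (i + 1) ⊓ FF A θ d i = (GG B θ' d 1).map (TT A θ i) := by
  symm
  apply Submodule.eq_of_le_of_finrank_le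
  · rintro _ ⟨u, hu, rfl⟩
    exact ⟨TT_GG hB hu i, TT_FF hA u i⟩
  · have h1 : finrank K ((GG B θ' d 1).map (TT A θ i)) = ρ := by
      have : finrank K ((GG B θ' d 1).map (TT A θ i)) = finrank K (GG B θ' d 1) := by
        have hinj : Function.Injective ((TT A θ i).domRestrict (GG B θ' d 1)) := by
          rw [← LinearMap.ker_eq_bot, LinearMap.ker_eq_bot']
          rintro ⟨u, hu⟩ h
          ext
          exact TT_inj hA hB irr hu hi h
        rw [← LinearMap.finrank_range_of_inj hinj, LinearMap.range_domRestrict]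
      rw [this, finrank_GG hA hB irr hρ 1 (by omega), one_mul]
    rw [h1]
    have h2 : Disjoint (GG B θ' d (i + 1) ⊓ FF A θ d i) (GG B θ' d i) := by
      rw [disjoint_iff, eq_bot_iff, ← GF_bot hA hB irr i]
      exact le_inf inf_le_right (inf_le_left.trans inf_le_right)
    have h3 : (GG B θ' d (i + 1) ⊓ FF A θ d i) ⊔ GG B θ' d i ≤ GG B θ' d (i + 1) :=
      sup_le inf_le_left (GG_mono _ _ _ (by omega))
    have h4 := Submodule.finrank_sup_add_finrank_inf_eq
      (GG B θ' d (i + 1) ⊓ FF A θ d i) (GG B θ' d i)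
    rw [h2.eq_bot, finrank_bot, add_zero, finrank_GG hA hB irr hρ i (by omega)] at h4
    have h5 := Submodule.finrank_mono h3
    rw [h4, finrank_GG hA hB irr hρ (i + 1) (by omega)] at h5
    rw [add_mul, one_mul] at h5
    omega

lemma lower {A B : End K V} {θ θ' : ℕ → K} {d ρ : ℕ} (hA : Std A B d θ)
    (hB : Std B A d θ') (irr : Irr A B)
    (hρ : ∀ i ≤ d, finrank K (A.eigenspace (θ i)) = ρ) {i : ℕ} (hi : i + 1 ≤ d) {u : V}
    (hu : u ∈ GG B θ' d 1) :
    ∃ u' ∈ GG B θ' d 1, B (TT A θ (i + 1) u) =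
      θ' (i + 1) • TT A θ (i + 1) u + TT A θ i u' := by
  have h1 : B (TT A θ (i + 1) u) - θ' (i + 1) • TT A θ (i + 1) u ∈
      GG B θ' d (i + 1) ⊓ FF A θ d i := by
    have a1 := TT_GG (A := A) (θ := θ) hB hu (i + 1)
    have a2 := TT_FF hA u (i + 1)
    exact ⟨GG_A _ a1, Submodule.sub_mem _ (FF_B hA _ a2)
      (Submodule.smul_mem _ _ (FF_anti _ _ _ (by omega) a2))⟩
  rw [U_le hA hB irr hρ i (by omega)] at h1
  obtain ⟨u', hu', h⟩ := h1
  exact ⟨u', hu', by rw [h]; abel⟩

omit [FiniteDimensional K V] in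
lemma B_W {B : End K V} {θ' : ℕ → K} {d : ℕ} {u : V} (hu : u ∈ GG B θ' d 1) :
    B u = θ' 0 • u := by
  rw [GG_one] at hu
  exact Module.End.mem_eigenspace_iff.1 hu

end Pool.Agent.H13.TD
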