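import Mathlib
import Pool.Agent.H13.TDDims

/-! The recurrences satisfied by the eigenvalues of a tridiagonal pair. -/

open Module Polynomial

namespace Pool.Agent.H13.TD

variable {K V : Type*} [Field K] [AddCommGroup V] [Module K V]

lemma exists_poly {A B : End K V} {θ : ℕ → K} {d : ℕ} (hA : Std A B d θ) :
    ∃ P : K[X], P.natDegree ≤ d ∧
      (∀ j, j + 1 ≤ d → P.eval (θ (j + 1)) - P.eval (θ j) =
        θ j * θ (j + 1) * (θ (j + 1) - θ j)) ∧
      ∀ v, A (A (B (A v))) - A (B (A (A v))) = aeval A P (B v) - B (aeval A P v) := by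
  classical
  set r : ℕ → K := fun j => ∑ h ∈ Finset.range j, θ h * θ (h + 1) * (θ (h + 1) - θ h) with hr
  have hinj : Set.InjOn θ (Finset.range (d + 1) : Set ℕ) := by
    intro i hi j hj hij
    simp only [Finset.coe_range, Set.mem_Iio] at hi hj
    exact hA.inj i (by omega) j (by omega) hij
  set P := Lagrange.interpolate (Finset.range (d + 1)) θ r with hP
  have hev : ∀ j ≤ d, P.eval (θ j) = r j := fun j hj =>
    Lagrange.eval_interpolate_at_node _ hinj (by simpa [Nat.lt_succ_iff] using hj)
  have hdiff : ∀ j, j + 1 ≤ d → P.eval (θ (j + 1)) - P.eval (θ j) =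
      θ j * θ (j + 1) * (θ (j + 1) - θ j) := by
    intro j hj
    rw [hev _ hj, hev j (by omega), hr]
    simp only
    rw [Finset.sum_range_succ]
    ring
  refine ⟨P, ?_, hdiff, ?_⟩
  · have h1 : P.degree < ((Finset.range (d + 1)).card : ℕ) := by
      rw [hP]; exact Lagrange.degree_interpolate_lt _ hinj
    rw [Finset.card_range] at h1
    by_cases h0 : P = 0
    · rw [h0]; simp
    · rw [← Polynomial.natDegree_lt_iff_degree_lt h0] at h1
      omega
  · have key : ∀ v ∈ Sp A θ (Finset.range (d + 1)),
        (A * A * B * A - A * B * A * A - aeval A P * B + B * aeval A P) v ∈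
          (⊥ : Submodule K V) := by
      apply Sp_le
      intro j hj v hv
      rw [Finset.mem_range] at hj
      simp only [LinearMap.add_apply, LinearMap.sub_apply, Module.End.mul_apply]
      rw [Submodule.mem_bot, hv, map_smul, map_smul, map_smul, map_smul, hv, map_smul, map_smul,
        map_smul, aeval_eig hv]
      have h2 : ∀ w ∈ Sp A θ (Finset.Icc (j - 1) (min (j + 1) d)),
          (θ j • (A * A) - (θ j * θ j) • A - aeval A P + (P.eval (θ j)) • (1 : End K V)) w ∈
            (⊥ : Submodule K V) := by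
        apply Sp_le
        intro k hk w hw
        rw [Finset.mem_Icc] at hk
        simp only [LinearMap.add_apply, LinearMap.sub_apply, Module.End.mul_apply,
          LinearMap.smul_apply, Module.End.one_apply]
        rw [Submodule.mem_bot, hw, map_smul, hw, aeval_eig hw]
        have h3 : P.eval (θ k) - P.eval (θ j) = θ j * θ k * (θ k - θ j) := by
          rcases Nat.lt_trichotomy k j with h | h | h
          · have : j = k + 1 := by omega
            subst this
            have := hdiff k (by omega)
            linear_combination -this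
          · rw [h]; ring
          · have : k = j + 1 := by omega
            subst this
            exact hdiff j (by omega)
        have : θ j • θ k • θ k • w - (θ j * θ j) • θ k • w - P.eval (θ k) • w + P.eval (θ j) • w
            = (θ j * θ k * (θ k - θ j) - (P.eval (θ k) - P.eval (θ j))) • w := by module
        rw [this, h3, sub_self, zero_smul]
      have h4 := h2 (B v) (hA.tri j (by omega) v hv)
      rw [Submodule.mem_bot] at h4
      simp only [LinearMap.add_apply, LinearMap.sub_apply, Module.End.mul_apply,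
          LinearMap.smul_apply, Module.End.one_apply] at h4
      rw [map_smul, map_smul]
      linear_combination (norm := module) h4
    intro v
    have h5 := key v (by rw [hA.top]; exact Submodule.mem_top)
    rw [Submodule.mem_bot] at h5
    simp only [LinearMap.add_apply, LinearMap.sub_apply, Module.End.mul_apply] at h5
    rw [← sub_eq_zero, ← h5]
    abel

/-- leading behaviour of a vector -/
def Lead (A B : End K V) (θ θ' : ℕ → K) (d : ℕ) (u : V) (n : ℕ) (c : K) (v : V) : Prop :=
  v - c • TT A θ n u ∈ GG B θ' d n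

section Lead

variable {A B : End K V} {θ θ' : ℕ → K} {d : ℕ} {u : V}

lemma Lead.applyA (hB : Std B A d θ') (hu : u ∈ GG B θ' d 1) {n : ℕ} {c : K} {v : V}
    (h : Lead A B θ θ' d u n c v) : Lead A B θ θ' d u (n + 1) c (A v) := by
  unfold Lead at *
  have e : A v - c • TT A θ (n + 1) u = A (v - c • TT A θ n u) + (c * θ n) • TT A θ n u := by
    rw [TT_succ, map_sub, map_smul]
    module
  rw [e]
  exact Submodule.add_mem _ (GG_B hB _ h) (Submodule.smul_mem _ _ (TT_GG hB hu n))

lemma Lead.applyB (hB : Std B A d θ') (hu : u ∈ GG B θ' d 1) {n : ℕ} {c : K} {v : V}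
    (h : Lead A B θ θ' d u n c v) : Lead A B θ θ' d u n (c * θ' n) (B v) := by
  unfold Lead at *
  have e : B v - (c * θ' n) • TT A θ n u = B (v - c • TT A θ n u) +
      c • (B (TT A θ n u) - θ' n • TT A θ n u) := by
    rw [map_sub, map_smul]
    module
  rw [e]
  exact Submodule.add_mem _ (GG_stable h) (Submodule.smul_mem _ _ (GG_A _ (TT_GG hB hu n)))

lemma Lead.sub {n : ℕ} {c c' : K} {v v' : V} (h : Lead A B θ θ' d u n c v)
    (h' : Lead A B θ θ' d u n c' v') : Lead A B θ θ' d u n (c - c') (v - v') := by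
  unfold Lead at *
  have := Submodule.sub_mem _ h h'
  convert this using 1
  module

lemma Lead.add {n : ℕ} {c c' : K} {v v' : V} (h : Lead A B θ θ' d u n c v)
    (h' : Lead A B θ θ' d u n c' v') : Lead A B θ θ' d u n (c + c') (v + v') := by
  unfold Lead at *
  have := Submodule.add_mem _ h h'
  convert this using 1
  module

lemma Lead.smul {n : ℕ} {c : K} {v : V} (a : K) (h : Lead A B θ θ' d u n c v) :
    Lead A B θ θ' d u n (a * c) (a • v) := by
  unfold Lead at *
  have := Submodule.smul_mem _ a h
  convert this using 1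
  module

lemma Lead.up (hB : Std B A d θ') (hu : u ∈ GG B θ' d 1) {m n : ℕ} {c : K} {v : V}
    (h : Lead A B θ θ' d u m c v) (hmn : m < n) : Lead A B θ θ' d u n 0 v := by
  unfold Lead at *
  rw [zero_smul, sub_zero]
  have := Submodule.add_mem _ (GG_mono B θ' d (show m ≤ n by omega) h)
    (Submodule.smul_mem _ c (GG_mono B θ' d (show m + 1 ≤ n by omega) (TT_GG (A := A) (θ := θ) hB hu m)))
  rwa [sub_add_cancel] at this

lemma Lead.pow (hB : Std B A d θ') (hu : u ∈ GG B θ' d 1) {n : ℕ} {c : K} {v : V}
    (h : Lead A B θ θ' d u n c v) (k : ℕ) : Lead A B θ θ' d u (n + k) c ((A ^ k) v) := by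
  induction k with
  | zero => exact h
  | succ k ih =>
    rw [pow_succ', Module.End.mul_apply]
    exact ih.applyA hB hu

lemma Lead.aeval (hB : Std B A d θ') (hu : u ∈ GG B θ' d 1) {n : ℕ} {c : K} {v : V}
    (h : Lead A B θ θ' d u n c v) (P : K[X]) (k : ℕ) (hP : P.natDegree ≤ k) :
    Lead A B θ θ' d u (n + k) (P.coeff k * c) (aeval A P v) := by
  rw [aeval_eq_sum_range' (show P.natDegree < k + 1 by omega), Finset.sum_range_succ]
  have h1 : Lead A B θ θ' d u (n + k) 0
      ((∑ x ∈ Finset.range k, P.coeff x • A ^ x) v) := by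
    rw [LinearMap.sum_apply]
    unfold Lead
    rw [zero_smul, sub_zero]
    apply Submodule.sum_mem
    intro i hi
    rw [Finset.mem_range] at hi
    have := ((h.pow hB hu i).smul (P.coeff i)).up hB hu (show n + i < n + k by omega)
    unfold Lead at this
    rw [zero_smul, sub_zero] at this
    exact this
  have h2 := (h.pow hB hu k).smul (P.coeff k)
  have h3 := h1.add h2
  rw [zero_add] at h3
  exact h3

lemma Lead.unique (hA : Std A B d θ) (hB : Std B A d θ')
    (irr : Irr A B) (hu : u ∈ GG B θ' d 1) (hu0 : u ≠ 0) {n : ℕ} (hn : n ≤ d) {c c' : K} {v : V}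
    (h : Lead A B θ θ' d u n c v) (h' : Lead A B θ θ' d u n c' v) : c = c' := by
  have h1 := h'.sub h
  unfold Lead at h1
  rw [sub_self, zero_sub, Submodule.neg_mem_iff] at h1
  by_contra hne
  have h2 := Submodule.smul_mem _ (c' - c)⁻¹ h1
  rw [smul_smul, inv_mul_cancel₀ (sub_ne_zero.2 (Ne.symm hne)), one_smul] at h2
  have h3 : TT A θ n u ∈ GG B θ' d n ⊓ FF A θ d n := ⟨h2, TT_FF hA u n⟩
  rw [GF_bot hA hB irr n] at h3
  exact hu0 (TT_inj hA hB irr hu hn h3)

end Lead

lemma rec_exists {A B : End K V} {θ θ' : ℕ → K} {d : ℕ} (hA : Std A B d θ)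
    (hB : Std B A d θ') (irr : Irr A B) :
    ∃ c : K, ∀ i, i + 3 ≤ d → θ i - θ (i + 3) = c * (θ (i + 1) - θ (i + 2)) ∧
      θ' i - θ' (i + 3) = c * (θ' (i + 1) - θ' (i + 2)) := by
  by_cases hd : d < 3
  · exact ⟨0, fun i hi => absurd hi (by omega)⟩
  push Not at hd
  obtain ⟨P, hPd, hP1, hP2⟩ := exists_poly hA
  obtain ⟨u, hu, hu0⟩ := Submodule.exists_mem_ne_zero_of_ne_bot (hB.ne 0 (Nat.zero_le _))
  rw [← GG_one B θ' d] at hu
  have hlead0 : Lead A B θ θ' d u 0 1 u := by
    unfold Lead
    simp
  have hleadT : ∀ j, Lead A B θ θ' d u j 1 (TT A θ j u) := by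
    intro j
    unfold Lead
    simp
  -- degree of P
  have hdeg : P.natDegree ≤ 3 := by
    by_contra hk
    push Not at hk
    set k := P.natDegree with hkdef
    have l1 := ((((hlead0.applyA hB hu).applyB hB hu).applyA hB hu).applyA hB hu).sub
      ((((hlead0.applyA hB hu).applyA hB hu).applyB hB hu).applyA hB hu)
    have l2 := l1.up hB hu (show 0 + 1 + 1 + 1 < k by omega)
    have l3 := ((hlead0.applyB hB hu).aeval hB hu P k le_rfl).sub
      ((hlead0.aeval hB hu P k le_rfl).applyB hB hu)
    rw [← hP2 u, zero_add] at l3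
    have h4 := Lead.unique hA hB irr hu hu0 hPd l2 l3
    have h5 : P.coeff k ≠ 0 := by
      rw [hkdef]
      rw [Polynomial.coeff_natDegree]
      intro h0
      rw [leadingCoeff_eq_zero] at h0
      rw [h0] at hkdef
      simp at hkdef
      omega
    have h6 : θ' 0 - θ' k ≠ 0 := by
      rw [sub_ne_zero]
      intro h
      have := hB.inj 0 (by omega) k hPd h
      omega
    apply mul_ne_zero h5 h6
    linear_combination -h4
  have hθ' : ∀ j, j + 3 ≤ d → θ' (j + 1) - θ' (j + 2) = P.coeff 3 * (θ' j - θ' (j + 3)) := by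
    intro j hj
    have l1 := (((((hleadT j).applyA hB hu).applyB hB hu).applyA hB hu).applyA hB hu).sub
      (((((hleadT j).applyA hB hu).applyA hB hu).applyB hB hu).applyA hB hu)
    have l3 := (((hleadT j).applyB hB hu).aeval hB hu P 3 hdeg).sub
      (((hleadT j).aeval hB hu P 3 hdeg).applyB hB hu)
    rw [← hP2] at l3
    have h4 := Lead.unique hA hB irr hu hu0 hj l1 l3
    simp only [show j + 1 + 1 = j + 2 by ring] at h4
    linear_combination h4
  have hθ : ∀ j, j + 3 ≤ d → θ (j + 1) - θ (j + 2) = P.coeff 3 * (θ j - θ (j + 3)) := by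
    have hP3 : ∀ x : K, P.eval x = P.coeff 0 + P.coeff 1 * x + P.coeff 2 * x ^ 2 +
        P.coeff 3 * x ^ 3 := by
      intro x
      rw [Polynomial.eval_eq_sum_range' (show P.natDegree < 4 by omega)]
      simp [Finset.sum_range_succ]
    have hq : ∀ j, j + 1 ≤ d → P.coeff 1 + P.coeff 2 * (θ j + θ (j + 1)) +
        P.coeff 3 * (θ j ^ 2 + θ j * θ (j + 1) + θ (j + 1) ^ 2) = θ j * θ (j + 1) := by
      intro j hj
      have h1 := hP1 j hj
      rw [hP3, hP3] at h1
      have hne : θ (j + 1) - θ j ≠ 0 := by
        rw [sub_ne_zero]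
        intro h
        have := hA.inj (j + 1) hj j (by omega) h
        omega
      apply mul_right_cancel₀ hne
      linear_combination h1
    have hq2 : ∀ j, j + 2 ≤ d → P.coeff 2 + P.coeff 3 * (θ j + θ (j + 1) + θ (j + 2)) =
        θ (j + 1) := by
      intro j hj
      have h1 := hq j (by omega)
      have h2 := hq (j + 1) hj
      rw [show j + 1 + 1 = j + 2 by ring] at h2
      have hne : θ (j + 2) - θ j ≠ 0 := by
        rw [sub_ne_zero]
        intro h
        have := hA.inj (j + 2) hj j (by omega) h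
        omega
      apply mul_right_cancel₀ hne
      linear_combination h2 - h1
    intro j hj
    have h1 := hq2 j (by omega)
    have h2 := hq2 (j + 1) hj
    rw [show j + 1 + 1 = j + 2 by ring, show j + 1 + 2 = j + 3 by ring] at h2
    linear_combination h2 - h1
  have hc3 : P.coeff 3 ≠ 0 := by
    intro h
    have h1 := hθ 0 (by omega)
    rw [h, zero_mul, sub_eq_zero] at h1
    have := hA.inj (0 + 1) (by omega) (0 + 2) (by omega) h1
    omega
  refine ⟨(P.coeff 3)⁻¹, fun i hi => ⟨?_, ?_⟩⟩
  · rw [hθ i hi, inv_mul_cancel_left₀ hc3]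
  · rw [hθ' i hi, inv_mul_cancel_left₀ hc3]

end Pool.Agent.H13.TD
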