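import Mathlib
import Pool.Agent.H13.TDPoly

/-! The split form of a tridiagonal pair of constant shape. -/

open Module Polynomial

namespace Pool.Agent.H13.TD

variable {K V : Type*} [Field K] [AddCommGroup V] [Module K V] [FiniteDimensional K V]

/-- `(B - θ'_1) (A - θ_0)` -/
def M1 (A B : End K V) (θ θ' : ℕ → K) : End K V := (B - θ' 1 • 1) * (A - θ 0 • 1)

omit [FiniteDimensional K V] in
lemma M1_apply (A B : End K V) (θ θ' : ℕ → K) (v : V) :
    M1 A B θ θ' v = B (A v - θ 0 • v) - θ' 1 • (A v - θ 0 • v) := rfl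

omit [FiniteDimensional K V] in
lemma B_TT_one (A B : End K V) (θ θ' : ℕ → K) (v : V) :
    B (TT A θ 1 v) = θ' 1 • TT A θ 1 v + M1 A B θ θ' v := by
  rw [M1_apply, show (1 : ℕ) = 0 + 1 from rfl, TT_succ, TT_zero]
  abel

omit [FiniteDimensional K V] in
lemma B_modR {A B : End K V} {θ : ℕ → K} {d : ℕ} (hA : Std A B d θ) (hd : 1 ≤ d) {x : V}
    (hx : x ∈ GG A θ d d) : B (A x - θ (d - 1) • x) ∈ GG A θ d d := by
  obtain ⟨n, rfl⟩ : ∃ n, d = n + 1 := ⟨d - 1, by omega⟩
  exact GG_B hA _ (GG_A _ hx)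

lemma vth_one {d : ℕ} {θ : ℕ → K} (h : θ 0 ≠ θ d) : vth d θ 1 = 1 := by
  rw [vth, Finset.sum_range_one, Nat.sub_zero, div_self (sub_ne_zero.2 h)]

lemma vth_eq (d : ℕ) (θ : ℕ → K) (i : ℕ) : vth d θ i = ss d θ i / (θ 0 - θ d) := rfl

section

variable {A B : End K V} {θ θ' : ℕ → K} {d ρ : ℕ}

lemma M1_mem (hA : Std A B d θ)
    (hB : Std B A d θ') (irr : Irr A B)
    (hρ : ∀ i ≤ d, finrank K (A.eigenspace (θ i)) = ρ) (hd : 1 ≤ d) {u : V}
    (hu : u ∈ GG B θ' d 1) : M1 A B θ θ' u ∈ GG B θ' d 1 := by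
  obtain ⟨u', hu', h⟩ := lower hA hB irr hρ (i := 0) hd hu
  rw [zero_add, B_TT_one, TT_zero] at h
  rw [add_left_cancel h]
  exact hu'

lemma split_form (hA : Std A B d θ)
    (hB : Std B A d θ') (irr : Irr A B)
    (hρ : ∀ i ≤ d, finrank K (A.eigenspace (θ i)) = ρ) {c : K}
    (hc : ∀ i, i + 3 ≤ d → θ i - θ (i + 3) = c * (θ (i + 1) - θ (i + 2))) (i : ℕ)
    (hi : i + 1 ≤ d) (u : V) (hu : u ∈ GG B θ' d 1) :
    B (TT A θ (i + 1) u) = θ' (i + 1) • TT A θ (i + 1) u + TT A θ i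
      (vth d θ (i + 1) • (M1 A B θ θ' u + ((θ 0 - θ d) * (θ' 0 - θ' 1)) • u) +
        ((θ' (i + 1) - θ' 0) * (θ i - θ d)) • u) := by
  have hd : 1 ≤ d := by omega
  have h0d : θ 0 ≠ θ d := fun h => by
    have := hA.inj 0 (by omega) d le_rfl h
    omega
  induction i with
  | zero =>
    rw [zero_add, B_TT_one, TT_zero, vth_one h0d]
    module
  | succ k ih =>
    specialize ih (by omega)
    obtain ⟨u', hu', h⟩ := lower hA hB irr hρ (i := k + 1) hi hu
    rw [h]
    congr 2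
    -- scalar identity
    have hJ : (θ k - θ d) * (vth d θ (k + 1 + 1) - 1) =
        (θ (k + 1) - θ (d - 1)) * vth d θ (k + 1) := by
      have hrec : ∀ i, i + 2 ≤ d → θ i - (c - 1) * θ (i + 1) + θ (i + 2) =
          θ 0 - (c - 1) * θ 1 + θ 2 := by
        intro i
        induction i with
        | zero => intro _; rfl
        | succ i ih2 =>
          intro h2
          rw [← ih2 (by omega)]
          have := hc i (by omega)
          simp only [show i + 1 + 1 = i + 2 by ring, show i + 1 + 2 = i + 3 by ring]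
          linear_combination -this
      have := identJ (c - 1) _ d θ hrec (k + 1) (by omega) (by omega)
      rw [Nat.add_sub_cancel, ss_one] at this
      rw [vth_eq, vth_eq]
      have hne : θ 0 - θ d ≠ 0 := sub_ne_zero.2 h0d
      field_simp
      linear_combination this
    -- the relation modulo `R`
    have hx := B_modR hA hd (TT_modR hA u (k + 1))
    have hy : (θ' (k + 2) * tau θ (θ d) (k + 2)) • u + tau θ (θ d) (k + 1) • u' +
        (θ (k + 1) - θ (d - 1)) • ((θ' (k + 1) * tau θ (θ d) (k + 1)) • u + tau θ (θ d) k •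
          (vth d θ (k + 1) • (M1 A B θ θ' u + ((θ 0 - θ d) * (θ' 0 - θ' 1)) • u) +
            ((θ' (k + 1) - θ' 0) * (θ k - θ d)) • u)) -
        tau θ (θ d) (k + 1) • ((θ' 1 * tau θ (θ d) 1) • u + M1 A B θ θ' u +
          ((θ 0 - θ (d - 1)) * θ' 0) • u) ∈ GG A θ d d := by
      set w := vth d θ (k + 1) • (M1 A B θ θ' u + ((θ 0 - θ d) * (θ' 0 - θ' 1)) • u) +
            ((θ' (k + 1) - θ' 0) * (θ k - θ d)) • u with hw
      have m1 := TT_modR hA u (k + 2)
      have m2 := TT_modR hA u' (k + 1)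
      have m3 := TT_modR hA u (k + 1)
      have m4 := TT_modR hA w k
      have m5 := TT_modR hA u 1
      have e1 : B (A (TT A θ (k + 1) u - tau θ (θ d) (k + 1) • u) -
          θ (d - 1) • (TT A θ (k + 1) u - tau θ (θ d) (k + 1) • u)) =
          θ' (k + 2) • TT A θ (k + 2) u + TT A θ (k + 1) u' +
          (θ (k + 1) - θ (d - 1)) • (θ' (k + 1) • TT A θ (k + 1) u + TT A θ k w) -
          tau θ (θ d) (k + 1) • (θ' 1 • TT A θ 1 u + M1 A B θ θ' u +
            ((θ 0 - θ (d - 1)) * θ' 0) • u) := by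
        have e2 : A (TT A θ (k + 1) u - tau θ (θ d) (k + 1) • u) -
            θ (d - 1) • (TT A θ (k + 1) u - tau θ (θ d) (k + 1) • u) =
            TT A θ (k + 1 + 1) u + (θ (k + 1) - θ (d - 1)) • TT A θ (k + 1) u -
              tau θ (θ d) (k + 1) • (TT A θ 1 u + (θ 0 - θ (d - 1)) • u) := by
          rw [map_sub, A_TT, map_smul]
          have : A u = TT A θ 1 u + θ 0 • u := by
            have := A_TT A θ 0 u
            rwa [TT_zero, zero_add] at this
          rw [this]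
          module
        rw [e2, map_sub, map_add, map_smul, map_smul, map_add, map_smul, h, ih, B_TT_one, B_W hu]
        module
      rw [e1] at hx
      have hz := Submodule.sub_mem _ (Submodule.sub_mem _ (Submodule.sub_mem _
        (Submodule.sub_mem _ (Submodule.sub_mem _ hx (Submodule.smul_mem _ (θ' (k + 2)) m1)) m2)
          (Submodule.smul_mem _ ((θ (k + 1) - θ (d - 1)) * θ' (k + 1)) m3))
            (Submodule.smul_mem _ (θ (k + 1) - θ (d - 1)) m4))
              (Submodule.smul_mem _ (-(tau θ (θ d) (k + 1) * θ' 1)) m5)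
      convert hz using 1
      module
    have hmem : ∀ v ∈ GG B θ' d 1, M1 A B θ θ' v ∈ GG B θ' d 1 := fun v hv =>
      M1_mem hA hB irr hρ hd hv
    have hM := hmem u hu
    have hyW : (θ' (k + 2) * tau θ (θ d) (k + 2)) • u + tau θ (θ d) (k + 1) • u' +
        (θ (k + 1) - θ (d - 1)) • ((θ' (k + 1) * tau θ (θ d) (k + 1)) • u + tau θ (θ d) k •
          (vth d θ (k + 1) • (M1 A B θ θ' u + ((θ 0 - θ d) * (θ' 0 - θ' 1)) • u) +
            ((θ' (k + 1) - θ' 0) * (θ k - θ d)) • u)) -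
        tau θ (θ d) (k + 1) • ((θ' 1 * tau θ (θ d) 1) • u + M1 A B θ θ' u +
          ((θ 0 - θ (d - 1)) * θ' 0) • u) ∈ GG B θ' d 1 := by
      have s := fun (a : K) {v : V} (hv : v ∈ GG B θ' d 1) => Submodule.smul_mem _ a hv
      have ad := fun {v w : V} (hv : v ∈ GG B θ' d 1) (hw : w ∈ GG B θ' d 1) =>
        Submodule.add_mem _ hv hw
      refine Submodule.sub_mem _ (ad (ad (s _ hu) (s _ hu')) (s _ (ad (s _ hu) (s _
        (ad (s _ (ad hM (s _ hu))) (s _ hu)))))) (s _ (ad (ad (s _ hu) hM) (s _ hu)))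
    have h0 := Submodule.mem_inf.2 ⟨hyW, hy⟩
    rw [W_R hA hB irr, Submodule.mem_bot] at h0
    have ht1 : tau θ (θ d) (k + 1) = (θ d - θ k) * tau θ (θ d) k := rfl
    have ht2 : tau θ (θ d) (k + 2) = (θ d - θ (k + 1)) * tau θ (θ d) (k + 1) := rfl
    have ht0 : tau θ (θ d) 1 = θ d - θ 0 := by
      show (θ d - θ 0) * 1 = _
      rw [mul_one]
    have hne := tau_ne hA.inj (show k + 1 ≤ d by omega)
    have ha : θ' (k + 2) * tau θ (θ d) (k + 2) + (θ (k + 1) - θ (d - 1)) *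
        (θ' (k + 1) * tau θ (θ d) (k + 1) + tau θ (θ d) k * (vth d θ (k + 1) *
          ((θ 0 - θ d) * (θ' 0 - θ' 1)) + (θ' (k + 1) - θ' 0) * (θ k - θ d))) -
        tau θ (θ d) (k + 1) * (θ' 1 * tau θ (θ d) 1 + (θ 0 - θ (d - 1)) * θ' 0) +
        tau θ (θ d) (k + 1) * (vth d θ (k + 2) * ((θ 0 - θ d) * (θ' 0 - θ' 1)) +
          (θ' (k + 2) - θ' 0) * (θ (k + 1) - θ d)) = 0 := by
      rw [ht2, ht1, ht0]
      linear_combination (-tau θ (θ d) k * ((θ 0 - θ d) * (θ' 0 - θ' 1))) * hJ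
    have hb : (θ (k + 1) - θ (d - 1)) * (tau θ (θ d) k * vth d θ (k + 1)) -
        tau θ (θ d) (k + 1) + tau θ (θ d) (k + 1) * vth d θ (k + 2) = 0 := by
      rw [ht1]
      linear_combination (-tau θ (θ d) k) * hJ
    have hfin : tau θ (θ d) (k + 1) • (u' - (vth d θ (k + 1 + 1) •
        (M1 A B θ θ' u + ((θ 0 - θ d) * (θ' 0 - θ' 1)) • u) +
          ((θ' (k + 1 + 1) - θ' 0) * (θ (k + 1) - θ d)) • u)) = 0 := by
      rw [← h0]
      have : ∀ (a b : K), a = 0 → b = 0 → ∀ (y z : V), y + a • u + b • M1 A B θ θ' u = z →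
          y = z := by
        intro a b ha hb y z hyz
        rw [← hyz, ha, hb, zero_smul, zero_smul, add_zero, add_zero]
      refine this _ _ ha hb _ _ ?_
      module
    have := (smul_eq_zero.1 hfin).resolve_left hne
    rw [sub_eq_zero] at this
    exact this

end

end Pool.Agent.H13.TD
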