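import Mathlib
import Pool.Agent.H13.TDForm
import Pool.Agent.H13.TDCyc

/-! Every tridiagonal pair of constant shape is isomorphic to a model. -/

open Module Polynomial

namespace Pool.Agent.H13.TD

section Model

variable {K L : Type*} [Field K] [CommRing L] [Algebra K L]

/-- the first model map, `L`-linear -/
def LA (L : Type*) [CommRing L] [Algebra K L] (d : ℕ) (θ : ℕ → K) : End L (Fin (d + 1) → L) :=
  Matrix.mulVecLin (modelMatA d θ)

/-- the second model map, `L`-linear -/
noncomputable def LB (d : ℕ) (θ θ' : ℕ → K) (x : L) : End L (Fin (d + 1) → L) :=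
  Matrix.mulVecLin (modelMatB d θ θ' x)

lemma LA_zero (d : ℕ) (θ : ℕ → K) (f : Fin (d + 1) → L) :
    LA L d θ f 0 = algebraMap K L (θ 0) * f 0 := by
  rw [LA, Matrix.mulVecLin_apply, Matrix.mulVec, dotProduct, Finset.sum_eq_single 0]
  · simp [modelMatA]
  · intro j _ hj
    simp only [modelMatA, if_neg (Ne.symm hj)]
    simp
  · simp

lemma LA_succ (d : ℕ) (θ : ℕ → K) (f : Fin (d + 1) → L) (i : Fin d) :
    LA L d θ f i.succ = algebraMap K L (θ (i + 1)) * f i.succ + f i.castSucc := by
  rw [LA, Matrix.mulVecLin_apply, Matrix.mulVec, dotProduct]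
  have h : ∀ j : Fin (d + 1), (modelMatA d θ : Matrix _ _ L) i.succ j * f j =
      (if j = i.succ then algebraMap K L (θ (i + 1)) * f j else 0) +
        (if j = i.castSucc then f j else 0) := by
    intro j
    simp only [modelMatA]
    by_cases h1 : j = i.succ
    · subst h1
      have h2 : i.succ ≠ i.castSucc := by
        intro h
        have := congrArg Fin.val h
        simp at this
      simp [h2]
    · rw [if_neg (Ne.symm h1), if_neg h1, zero_add]
      by_cases h2 : j = i.castSucc
      · subst h2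
        simp
      · rw [if_neg h2, if_neg, zero_mul]
        intro h3
        apply h2
        ext
        simp only [Fin.val_succ] at h3
        simp only [Fin.val_castSucc]
        omega
  rw [Finset.sum_congr rfl fun j _ => h j, Finset.sum_add_distrib, Finset.sum_ite_eq',
    Finset.sum_ite_eq']
  simp

lemma LB_last (d : ℕ) (θ θ' : ℕ → K) (x : L) (f : Fin (d + 1) → L) :
    LB d θ θ' x f (Fin.last d) = algebraMap K L (θ' d) * f (Fin.last d) := by
  rw [LB, Matrix.mulVecLin_apply, Matrix.mulVec, dotProduct, Finset.sum_eq_single (Fin.last d)]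
  · simp [modelMatB]
  · intro j _ hj
    simp only [modelMatB, if_neg (Ne.symm hj)]
    rw [if_neg, zero_mul]
    simp only [Fin.val_last]
    omega
  · simp

lemma LB_castSucc (d : ℕ) (θ θ' : ℕ → K) (x : L) (f : Fin (d + 1) → L) (i : Fin d) :
    LB d θ θ' x f i.castSucc = algebraMap K L (θ' i) * f i.castSucc +
      splitSeq d θ θ' x (i + 1) * f i.succ := by
  rw [LB, Matrix.mulVecLin_apply, Matrix.mulVec, dotProduct]
  have h : ∀ j : Fin (d + 1), (modelMatB d θ θ' x) i.castSucc j * f j =
      (if j = i.castSucc then algebraMap K L (θ' i) * f j else 0) +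
        (if j = i.succ then splitSeq d θ θ' x (i + 1) * f j else 0) := by
    intro j
    simp only [modelMatB]
    by_cases h1 : j = i.castSucc
    · subst h1
      have h2 : i.castSucc ≠ i.succ := by
        intro h
        have := congrArg Fin.val h
        simp at this
      simp [h2]
    · rw [if_neg (Ne.symm h1), if_neg h1, zero_add]
      by_cases h2 : j = i.succ
      · subst h2
        simp
      · rw [if_neg h2, if_neg, zero_mul]
        intro h3
        apply h2
        ext
        simp only [Fin.val_castSucc] at h3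
        simp only [Fin.val_succ]
        omega
  rw [Finset.sum_congr rfl fun j _ => h j, Finset.sum_add_distrib, Finset.sum_ite_eq',
    Finset.sum_ite_eq']
  simp

end Model

variable {K V : Type*} [Field K] [AddCommGroup V] [Module K V] [FiniteDimensional K V]

section

variable {A B : End K V} {θ θ' : ℕ → K} {d ρ : ℕ}

omit [FiniteDimensional K V] in
lemma TT_top (hA : Std A B d θ) (v : V) : TT A θ (d + 1) v = 0 := by
  have := TT_FF hA v (d + 1)
  rw [FF_bot A θ (by omega)] at this
  exact this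

lemma W_irr (hA : Std A B d θ)
    (hB : Std B A d θ') (irr : Irr A B)
    (hρ : ∀ i ≤ d, finrank K (A.eigenspace (θ i)) = ρ) {c : K}
    (hc : ∀ i, i + 3 ≤ d → θ i - θ (i + 3) = c * (θ (i + 1) - θ (i + 2)))
    (S : Submodule K V) (hS : S ≤ GG B θ' d 1) (hS1 : ∀ w ∈ S, M1 A B θ θ' w ∈ S) :
    S = ⊥ ∨ S = GG B θ' d 1 := by
  set X : Submodule K V := ⨆ i, S.map (TT A θ i) with hX
  have hle : ∀ i, ∀ w ∈ S, TT A θ i w ∈ X := fun i w hw =>
    (le_iSup (fun i => S.map (TT A θ i)) i) ⟨w, hw, rfl⟩
  have h1 : ∀ w ∈ X, A w ∈ X := by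
    have : X ≤ X.comap A := by
      refine iSup_le fun i => ?_
      rintro _ ⟨w, hw, rfl⟩
      rw [Submodule.mem_comap, A_TT]
      exact Submodule.add_mem _ (hle _ w hw) (Submodule.smul_mem _ _ (hle _ w hw))
    exact this
  have h2 : ∀ w ∈ X, B w ∈ X := by
    have : X ≤ X.comap B := by
      refine iSup_le fun i => ?_
      rintro _ ⟨w, hw, rfl⟩
      rw [Submodule.mem_comap]
      rcases i with _ | i
      · rw [TT_zero, B_W (hS hw)]
        exact Submodule.smul_mem _ _ (hle 0 w hw)
      · by_cases hi : i + 1 ≤ d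
        · rw [split_form hA hB irr hρ hc i hi w (hS hw)]
          refine Submodule.add_mem _ (Submodule.smul_mem _ _ (hle _ w hw)) (hle i _ ?_)
          exact Submodule.add_mem _ (Submodule.smul_mem _ _ (Submodule.add_mem _ (hS1 w hw)
            (Submodule.smul_mem _ _ hw))) (Submodule.smul_mem _ _ hw)
        · have : TT A θ (i + 1) w = 0 := by
            have := TT_FF hA w (i + 1)
            rw [FF_bot A θ (by omega)] at this
            exact this
          rw [this, map_zero]
          exact Submodule.zero_mem _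
    exact this
  rcases irr X h1 h2 with h | h
  · left
    rw [eq_bot_iff, ← h]
    intro w hw
    exact hle 0 w hw
  · right
    apply le_antisymm hS
    intro w hw
    have h3 : X ≤ S ⊔ FF A θ d 1 := by
      refine iSup_le fun i => ?_
      rintro _ ⟨w, hw, rfl⟩
      rcases i with _ | i
      · exact Submodule.mem_sup_left hw
      · exact Submodule.mem_sup_right (FF_anti A θ d (by omega) (TT_FF hA w (i + 1)))
    have h4 : w ∈ S ⊔ FF A θ d 1 := h3 (by rw [h]; exact Submodule.mem_top)
    obtain ⟨s, hs, f, hf, rfl⟩ := Submodule.mem_sup.1 h4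
    have h5 : f ∈ GG B θ' d 1 ⊓ FF A θ d 1 := by
      refine ⟨?_, hf⟩
      have := Submodule.sub_mem _ hw (hS hs)
      rwa [add_sub_cancel_left] at this
    rw [GF_bot hA hB irr 1] at h5
    have h6 : f = 0 := h5
    rw [h6, add_zero]
    exact hs

omit [FiniteDimensional K V] in
lemma scalar_of_d_zero (hA : Std A B 0 θ) (v : V) : A v = θ 0 • v := by
  have := TT_top hA v
  rw [TT_succ, TT_zero, sub_eq_zero] at this
  exact this

lemma d_pos (hA : Std A B d θ)
    (hB : Std B A d θ') (irr : Irr A B)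
    (hρ : ∀ i ≤ d, finrank K (A.eigenspace (θ i)) = ρ) (h2 : 2 ≤ ρ) : 1 ≤ d := by
  by_contra hd
  have hd : d = 0 := by omega
  subst hd
  obtain ⟨v, hv, hv0⟩ := Submodule.exists_mem_ne_zero_of_ne_bot (hA.ne 0 le_rfl)
  have h3 : Submodule.span K {v} = ⊤ := by
    rcases irr (Submodule.span K {v}) (fun w hw => by
      rw [scalar_of_d_zero hA]; exact Submodule.smul_mem _ _ hw) (fun w hw => by
      rw [scalar_of_d_zero hB]; exact Submodule.smul_mem _ _ hw) with h | h
    · rw [Submodule.span_singleton_eq_bot] at h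
      exact absurd h hv0
    · exact h
  have h4 := finrank_V hA hρ
  have h5 := finrank_span_singleton (K := K) hv0
  rw [h3, finrank_top, h4] at h5
  omega

theorem forward (hA : Std A B d θ) (hB : Std B A d θ') (irr : Irr A B)
    (hρ : ∀ i ≤ d, finrank K (A.eigenspace (θ i)) = ρ) (h2 : 2 ≤ ρ) :
    ∃ m : K[X], Admissible ρ d θ θ' m ∧ PairIso A B (modelA d θ m) (modelB d θ θ' m) := by
  obtain ⟨c, hc⟩ := rec_exists hA hB irr
  have hd := d_pos hA hB irr hρ h2
  have hMW : ∀ v ∈ GG B θ' d 1, M1 A B θ θ' v ∈ GG B θ' d 1 := fun v hv =>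
    M1_mem hA hB irr hρ hd hv
  have hfW : finrank K (GG B θ' d 1) = ρ := by
    rw [finrank_GG hA hB irr hρ 1 (by omega), one_mul]
  have : Nontrivial (GG B θ' d 1) := Module.nontrivial_of_finrank_pos (R := K) (by omega)
  obtain ⟨m, hm, hirr, hdeg, e, he⟩ := cyclic_model ((M1 A B θ θ').restrict hMW) (by
    intro S hS
    have h3 := W_irr hA hB irr hρ (fun i hi => (hc i hi).1) (S.map (GG B θ' d 1).subtype)
      (by rintro _ ⟨w, _, rfl⟩; exact w.2)
      (by
        rintro _ ⟨w, hw, rfl⟩
        exact ⟨_, hS w hw, rfl⟩)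
    rcases h3 with h3 | h3
    · left
      rw [eq_bot_iff]
      intro w hw
      have h4 : (w : V) ∈ S.map (GG B θ' d 1).subtype := ⟨w, hw, rfl⟩
      rw [h3, Submodule.mem_bot] at h4
      exact Subtype.ext h4
    · right
      rw [eq_top_iff]
      rintro w -
      have : (w : V) ∈ S.map (GG B θ' d 1).subtype := by rw [h3]; exact w.2
      obtain ⟨w', hw', hww⟩ := this
      have : w' = w := Subtype.ext hww
      rw [← this]
      exact hw')
  rw [hfW] at hdeg
  refine ⟨m, ⟨hd, hA.inj, hB.inj, ⟨c, hc⟩, hm, hirr, hdeg⟩, ?_⟩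
  have he' : ∀ a, ((e (AdjoinRoot.root m * a) : GG B θ' d 1) : V) = M1 A B θ θ' (e a) := by
    intro a
    rw [he]
    rfl
  set Ψ : (Fin (d + 1) → AdjoinRoot m) →ₗ[K] V := ∑ i : Fin (d + 1),
    (TT A θ i) ∘ₗ (GG B θ' d 1).subtype ∘ₗ e.toLinearMap ∘ₗ (LinearMap.proj i) with hΨ
  have hΨa : ∀ f, Ψ f = ∑ i : Fin (d + 1), TT A θ i (e (f i) : V) := by
    intro f
    rw [hΨ, LinearMap.sum_apply]
    rfl
  have hes : ∀ (s : K) (a : AdjoinRoot m), ((e (algebraMap K (AdjoinRoot m) s * a) :
      GG B θ' d 1) : V) = s • (e a : V) := by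
    intro s a
    rw [← Algebra.smul_def, map_smul]
    rfl
  have hsplit : ∀ (i : ℕ) (a : AdjoinRoot m), ((e (splitSeq d θ θ' (AdjoinRoot.root m) (i + 1) * a) :
      GG B θ' d 1) : V) = vth d θ (i + 1) • (M1 A B θ θ' (e a) +
        ((θ 0 - θ d) * (θ' 0 - θ' 1)) • (e a : V)) +
        ((θ' (i + 1) - θ' 0) * (θ i - θ d)) • (e a : V) := by
    intro i a
    have : splitSeq d θ θ' (AdjoinRoot.root m) (i + 1) * a =
        algebraMap K (AdjoinRoot m) (vth d θ (i + 1)) * (AdjoinRoot.root m * a) +
        algebraMap K (AdjoinRoot m) (vth d θ (i + 1) * ((θ 0 - θ d) * (θ' 0 - θ' 1))) * a +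
        algebraMap K (AdjoinRoot m) ((θ' (i + 1) - θ' 0) * (θ i - θ d)) * a := by
      rw [splitSeq, Nat.add_sub_cancel, map_mul (algebraMap K (AdjoinRoot m)) (vth d θ (i + 1))]
      ring
    rw [this, map_add, map_add, Submodule.coe_add, Submodule.coe_add, hes, hes, hes, he']
    module
  have hΨA : ∀ f, Ψ (modelA d θ m f) = A (Ψ f) := by
    intro f
    rw [hΨa, hΨa, map_sum, Fin.sum_univ_succ]
    have h3 : ∀ i : Fin (d + 1), A (TT A θ i (e (f i) : V)) =
        TT A θ (i + 1) (e (f i) : V) + θ i • TT A θ i (e (f i) : V) := fun i => A_TT A θ i _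
    rw [Finset.sum_congr rfl fun i _ => h3 i, Finset.sum_add_distrib, Fin.sum_univ_castSucc]
    rw [Fin.sum_univ_succ (fun i : Fin (d + 1) => θ i • TT A θ i (e (f i) : V))]
    have h4 : (modelA d θ m f) 0 = algebraMap K _ (θ 0) * f 0 := LA_zero d θ f
    have h5 : ∀ i : Fin d, (modelA d θ m f) i.succ = algebraMap K _ (θ (i + 1)) * f i.succ +
      f i.castSucc := fun i => LA_succ d θ f i
    have h6 : ∀ i : Fin d, TT A θ (i.succ : Fin (d + 1)) (e ((modelA d θ m f) i.succ) : V) =
        θ (i.succ : Fin (d + 1)) • TT A θ (i.succ : Fin (d + 1)) (e (f i.succ) : V) +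
        TT A θ ((i.castSucc : Fin (d + 1)) + 1) (e (f i.castSucc) : V) := by
      intro i
      rw [h5, map_add, Submodule.coe_add, hes, map_add, map_smul]
      rfl
    rw [Finset.sum_congr rfl fun i _ => h6 i, Finset.sum_add_distrib, h4, hes, map_smul]
    have h7 : TT A θ ((Fin.last d : Fin (d + 1)) + 1) (e (f (Fin.last d)) : V) = 0 :=
      TT_top hA _
    rw [h7]
    have h8 : ∀ a b c : V, a + (b + c) = c + 0 + (a + b) := fun a b c => by abel
    exact h8 _ _ _
  have hΨB : ∀ f, Ψ (modelB d θ θ' m f) = B (Ψ f) := by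
    intro f
    rw [hΨa, hΨa, map_sum, Fin.sum_univ_castSucc, Fin.sum_univ_succ (fun i : Fin (d + 1) =>
      B (TT A θ i (e (f i) : V)))]
    have h3 : ∀ i : Fin d, B (TT A θ (i.succ : Fin (d + 1)) (e (f i.succ) : V)) =
        θ' (i.succ : Fin (d + 1)) • TT A θ (i.succ : Fin (d + 1)) (e (f i.succ) : V) +
        TT A θ i ((e (splitSeq d θ θ' (AdjoinRoot.root m) (i + 1) * f i.succ) :
          GG B θ' d 1) : V) := by
      intro i
      rw [hsplit]
      exact split_form hA hB irr hρ (fun i hi => (hc i hi).1) i (by omega) _ (e (f i.succ)).2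
    have h4 : (modelB d θ θ' m f) (Fin.last d) = algebraMap K _ (θ' d) * f (Fin.last d) :=
      LB_last d θ θ' _ f
    have h5 : ∀ i : Fin d, (modelB d θ θ' m f) i.castSucc =
        algebraMap K _ (θ' i) * f i.castSucc +
          splitSeq d θ θ' (AdjoinRoot.root m) (i + 1) * f i.succ :=
      fun i => LB_castSucc d θ θ' _ f i
    rw [Finset.sum_congr rfl fun i _ => h3 i, Finset.sum_add_distrib, h4, hes, map_smul]
    have h6 : ∀ i : Fin d, TT A θ (i.castSucc : Fin (d + 1))
        (e ((modelB d θ θ' m f) i.castSucc) : V) =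
        θ' (i.castSucc : Fin (d + 1)) • TT A θ (i.castSucc : Fin (d + 1)) (e (f i.castSucc) : V) +
        TT A θ i ((e (splitSeq d θ θ' (AdjoinRoot.root m) (i + 1) * f i.succ) :
          GG B θ' d 1) : V) := by
      intro i
      rw [h5, map_add, Submodule.coe_add, hes, map_add, map_smul]
      rfl
    rw [Finset.sum_congr rfl fun i _ => h6 i, Finset.sum_add_distrib]
    have h7 : B (TT A θ (0 : Fin (d + 1)) (e (f 0) : V)) =
        θ' (0 : Fin (d + 1)) • TT A θ (0 : Fin (d + 1)) (e (f 0) : V) := B_W (e (f 0)).2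
    rw [h7]
    have h8 := Fin.sum_univ_castSucc (fun i : Fin (d + 1) => θ' i • TT A θ i (e (f i) : V))
    have h9 := Fin.sum_univ_succ (fun i : Fin (d + 1) => θ' i • TT A θ i (e (f i) : V))
    have h10 : θ' d • TT A θ (Fin.last d : Fin (d + 1)) (e (f (Fin.last d)) : V) =
      θ' (Fin.last d : Fin (d + 1)) • TT A θ (Fin.last d : Fin (d + 1)) (e (f (Fin.last d)) : V) :=
      rfl
    rw [h10]
    rw [h8] at h9
    rw [← add_assoc, ← h9]
    abel
  have hsurj : Function.Surjective Ψ := by
    rw [← LinearMap.range_eq_top]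
    rcases irr (LinearMap.range Ψ) (by
      rintro _ ⟨f, rfl⟩
      exact ⟨_, hΨA f⟩) (by
      rintro _ ⟨f, rfl⟩
      exact ⟨_, hΨB f⟩) with h | h
    · exfalso
      obtain ⟨w, hw0⟩ := exists_ne (0 : GG B θ' d 1)
      have h3 : Ψ (Pi.single 0 (e.symm w)) ∈ LinearMap.range Ψ := ⟨_, rfl⟩
      rw [h, Submodule.mem_bot, hΨa, Fin.sum_univ_succ] at h3
      simp only [Pi.single_eq_same, LinearEquiv.apply_symm_apply] at h3
      rw [Finset.sum_eq_zero] at h3
      · rw [add_zero] at h3
        apply hw0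
        ext
        exact h3
      · intro i _
        rw [Pi.single_eq_of_ne (Fin.succ_ne_zero i), map_zero, Submodule.coe_zero, map_zero]
    · exact h
  have : FiniteDimensional K (AdjoinRoot m) := e.symm.finiteDimensional
  have hfin : finrank K (Fin (d + 1) → AdjoinRoot m) = finrank K V := by
    rw [finrank_V hA hρ, Module.finrank_pi_fintype]
    have : finrank K (AdjoinRoot m) = ρ := by rw [e.finrank_eq, hfW]
    simp [this]
  have hinj : Function.Injective Ψ :=
    (LinearMap.injective_iff_surjective_of_finrank_eq_finrank hfin).2 hsurj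
  set E := LinearEquiv.ofBijective Ψ ⟨hinj, hsurj⟩ with hE
  refine ⟨E.symm, fun v => ?_, fun v => ?_⟩
  · rw [LinearEquiv.symm_apply_eq]
    obtain ⟨f, rfl⟩ := E.surjective v
    rw [LinearEquiv.symm_apply_apply]
    exact (hΨA f).symm
  · rw [LinearEquiv.symm_apply_eq]
    obtain ⟨f, rfl⟩ := E.surjective v
    rw [LinearEquiv.symm_apply_apply]
    exact (hΨB f).symm

end

end Pool.Agent.H13.TD
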