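import Mathlib
import Pool.Agent.H13.TDDefs
import Pool.Agent.H13.TDScalar

/-! The scalar side of the Askey-Wilson relation. -/

namespace Pool.Agent.H13.TD

variable {F : Type*} [Field F]

/-- recurrence -/
def Rec (d : ℕ) (β γ : F) (t : ℕ → F) : Prop := ∀ j, j + 2 ≤ d → t j - β * t (j + 1) + t (j + 2) = γ

lemma Rec.rev {d : ℕ} {β γ : F} {t : ℕ → F} (h : Rec d β γ t) : Rec d β γ (fun i => t (d - i)) := by
  intro j hj
  have := h (d - j - 2) (by omega)
  rw [show d - j - 2 + 1 = d - (j + 1) by omega, show d - j - 2 + 2 = d - j by omega,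
    show d - j - 2 = d - (j + 2) by omega] at this
  linear_combination this

/-- split sequence over `F` -/
def ph (d : ℕ) (t s : ℕ → F) (x : F) (i : ℕ) : F :=
  (x + (t 0 - t d) * (s 0 - s 1)) * (ss d t i / (t 0 - t d)) + (s i - s 0) * (t (i - 1) - t d)

/-- right side of the recurrence for the split sequence -/
def gg (β γ γ' : F) (t s : ℕ → F) (j : ℕ) : F :=
  γ' * (t j + t (j + 1)) + γ * (s j + s (j + 1)) + β * (t j * s j + t (j + 1) * s (j + 1)) -
    (t j + t (j + 1)) * (s j + s (j + 1))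

/-- diagonal coefficient -/
def dd (β γ γ' ϱ ω η : F) (tm tj tp sj f fp : F) : F :=
  f * (tm + tj - β * tj - γ) + fp * (tj + tp - β * tj - γ) +
    sj * (2 * tj ^ 2 - β * tj ^ 2 - 2 * γ * tj - ϱ) - γ' * tj ^ 2 - ω * tj - η

/-- scalar data for the Askey-Wilson relation -/
structure AWD (d : ℕ) (β γ γ' ϱ ω η : F) (t s f : ℕ → F) : Prop where
  r' : Rec d β γ' s
  rho : ∀ j, j + 1 ≤ d →
    t j ^ 2 - β * (t j * t (j + 1)) + t (j + 1) ^ 2 - γ * (t j + t (j + 1)) = ϱ
  al0 : 2 ≤ d → - β * f 1 + f 2 = ω + gg β γ γ' t s 0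
  al : ∀ j, j + 3 ≤ d → f (j + 1) - β * f (j + 2) + f (j + 3) = ω + gg β γ γ' t s (j + 1)
  be0 : 2 ≤ d → dd β γ γ' ϱ ω η 0 (t 0) (t 1) (s 0) 0 (f 1) = 0
  be : ∀ j, j + 3 ≤ d →
    dd β γ γ' ϱ ω η (t j) (t (j + 1)) (t (j + 2)) (s (j + 1)) (f (j + 1)) (f (j + 2)) = 0

lemma rho_of_rec {d : ℕ} {β γ : F} {t : ℕ → F} (h : Rec d β γ t) (j : ℕ) (hj : j + 1 ≤ d) :
    t j ^ 2 - β * (t j * t (j + 1)) + t (j + 1) ^ 2 - γ * (t j + t (j + 1)) =
      t 0 ^ 2 - β * (t 0 * t 1) + t 1 ^ 2 - γ * (t 0 + t 1) := by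
  induction j with
  | zero => rfl
  | succ j ih =>
    rw [← ih (by omega)]
    have := h j (by omega)
    simp only [show j + 1 + 1 = j + 2 by ring]
    linear_combination (t (j + 2) - t j) * this

lemma alg1 (a b c e p q r u β γ γ' z T : F) (E1 : a - β * b + c = γ) (E2 : b - β * c + e = γ)
    (E3 : p - β * q + r = γ') (E4 : q - β * r + u = γ') :
    ((p - z) * (a - T) - β * ((q - z) * (b - T)) + (r - z) * (c - T)) -
      (γ' * (b + c) + γ * (p + q) + β * (b * p + c * q) - (b + c) * (p + q)) =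
    ((q - z) * (b - T) - β * ((r - z) * (c - T)) + (u - z) * (e - T)) -
      (γ' * (c + e) + γ * (q + r) + β * (c * q + e * r) - (c + e) * (q + r)) := by
  obtain rfl : a = γ + β * b - c := by linear_combination E1
  obtain rfl : e = γ - b + β * c := by linear_combination E2
  obtain rfl : u = γ' - q + β * r := by linear_combination E4
  obtain rfl : r = γ' - p + β * q := by linear_combination E3
  ring

lemma alg2 (a b c e p q β γ γ' ϱ ω η f0 f1 f2 : F) (E1 : a - β * b + c = γ)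
    (E2 : b - β * c + e = γ) (E3 : b ^ 2 - β * (b * c) + c ^ 2 - γ * (b + c) = ϱ)
    (E4 : f0 - β * f1 + f2 = ω + (γ' * (b + c) + γ * (p + q) + β * (b * p + c * q) -
      (b + c) * (p + q))) :
    dd β γ γ' ϱ ω η b c e q f1 f2 = dd β γ γ' ϱ ω η a b c p f0 f1 := by
  unfold dd
  obtain rfl : a = γ + β * b - c := by linear_combination E1
  obtain rfl : e = γ - b + β * c := by linear_combination E2
  obtain rfl : f2 = ω + (γ' * (b + c) + γ * (p + q) + β * (b * p + c * q) -
      (b + c) * (p + q)) - f0 + β * f1 := by linear_combination E4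
  rw [← E3]
  ring

section

variable {d : ℕ} {β γ γ' : F} {t s : ℕ → F}

lemma ph_zero (x : F) : ph d t s x 0 = 0 := by simp [ph, ss_zero]

lemma ph_one (h : t 0 ≠ t d) (x : F) : ph d t s x 1 = x := by
  have : t 0 - t d ≠ 0 := sub_ne_zero.2 h
  rw [ph, ss_one, div_self this, Nat.sub_self]
  ring

/-- constancy of `f_j - β f_{j+1} + f_{j+2} - g_j` -/
lemma al_step (ht : Rec d β γ t) (hs : Rec d β γ' s) (x : F) (j : ℕ) (hj : j + 3 ≤ d) :
    ph d t s x j - β * ph d t s x (j + 1) + ph d t s x (j + 2) - gg β γ γ' t s j =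
    ph d t s x (j + 1) - β * ph d t s x (j + 2) + ph d t s x (j + 3) - gg β γ γ' t s (j + 1) := by
  have h1 := ss_rec β γ d t ht j (by omega)
  have h2 : ss d t j / (t 0 - t d) - β * (ss d t (j + 1) / (t 0 - t d)) +
      ss d t (j + 2) / (t 0 - t d) = ss d t (j + 1) / (t 0 - t d) -
      β * (ss d t (j + 2) / (t 0 - t d)) + ss d t (j + 3) / (t 0 - t d) := by
    linear_combination (-(1 / (t 0 - t d))) * h1
  have h3 : ((s j - s 0) * (t (j - 1) - t d) - β * ((s (j + 1) - s 0) * (t j - t d)) +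
      (s (j + 2) - s 0) * (t (j + 1) - t d)) - gg β γ γ' t s j =
      ((s (j + 1) - s 0) * (t j - t d) - β * ((s (j + 2) - s 0) * (t (j + 1) - t d)) +
      (s (j + 3) - s 0) * (t (j + 2) - t d)) - gg β γ γ' t s (j + 1) := by
    unfold gg
    simp only [show j + 1 + 1 = j + 2 by ring]
    have e2 := ht j (by omega)
    have e3 := hs j (by omega)
    have e4 := hs (j + 1) hj
    simp only [show j + 1 + 1 = j + 2 by ring, show j + 1 + 2 = j + 3 by ring] at e4
    rcases j with _ | j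
    · have := alg1 (γ + β * t 0 - t 1) (t 0) (t 1) (t 2) (s 0) (s 1) (s 2) (s 3) β γ γ' (s 0) (t d)
        (by ring) e2 e3 e4
      simp only [zero_add] at *
      linear_combination this
    · have e1 := ht j (by omega)
      simp only [show j + 1 + 1 = j + 2 by ring] at *
      exact alg1 (t j) (t (j + 1)) (t (j + 2)) (t (j + 1 + 2)) (s (j + 1)) (s (j + 2))
        (s (j + 1 + 2)) (s (j + 1 + 3)) β γ γ' (s 0) (t d) e1 e2 e3 e4
  unfold ph
  simp only [Nat.add_sub_cancel, show j + 2 - 1 = j + 1 by omega, show j + 3 - 1 = j + 2 by omega]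
  linear_combination h3 + (x + (t 0 - t d) * (s 0 - s 1)) * h2

lemma awd_ph (hd : t 0 ≠ t d) (ht : Rec d β γ t) (hs : Rec d β γ' s) (x ω η ϱ : F)
    (hϱ : ϱ = t 0 ^ 2 - β * (t 0 * t 1) + t 1 ^ 2 - γ * (t 0 + t 1))
    (hω : 2 ≤ d → ω = - β * ph d t s x 1 + ph d t s x 2 - gg β γ γ' t s 0)
    (hη : 2 ≤ d → η = x * (t 0 + t 1 - β * t 0 - γ) +
      s 0 * (2 * t 0 ^ 2 - β * t 0 ^ 2 - 2 * γ * t 0 - ϱ) - γ' * t 0 ^ 2 - ω * t 0) :
    AWD d β γ γ' ϱ ω η t s (ph d t s x) := by
  have hal0 : 2 ≤ d → - β * ph d t s x 1 + ph d t s x 2 = ω + gg β γ γ' t s 0 := by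
    intro h2
    rw [hω h2]; ring
  have hall : ∀ j, j + 2 ≤ d → ph d t s x j - β * ph d t s x (j + 1) + ph d t s x (j + 2) =
      ω + gg β γ γ' t s j := by
    intro j
    induction j with
    | zero =>
      intro h2
      rw [ph_zero]
      linear_combination hal0 h2
    | succ j ih =>
      intro h2
      have h3 := ih (by omega)
      have h4 := al_step ht hs x j (by omega)
      simp only [show j + 1 + 1 = j + 2 by ring, show j + 1 + 2 = j + 3 by ring]
      linear_combination h3 - h4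
  have hrho : ∀ j, j + 1 ≤ d →
    t j ^ 2 - β * (t j * t (j + 1)) + t (j + 1) ^ 2 - γ * (t j + t (j + 1)) = ϱ := by
    intro j hj
    rw [rho_of_rec ht j hj, hϱ]
  have hbe0 : 2 ≤ d → dd β γ γ' ϱ ω η 0 (t 0) (t 1) (s 0) 0 (ph d t s x 1) = 0 := by
    intro h2
    rw [ph_one hd]
    unfold dd
    rw [hη h2]
    ring
  refine ⟨hs, hrho, hal0, fun j hj => ?_, hbe0, fun j hj => ?_⟩
  · have := hall (j + 1) (by omega)
    simpa only [show j + 1 + 1 = j + 2 by ring, show j + 1 + 2 = j + 3 by ring] using this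
  · induction j with
    | zero =>
      rw [zero_add]
      rw [alg2 (γ + β * t 0 - t 1) (t 0) (t 1) (t 2) (s 0) (s 1) β γ γ' ϱ ω η 0 (ph d t s x 1)
        (ph d t s x 2) (by ring) (ht 0 (by omega)) (hrho 0 (by omega)) (by
          have := hal0 (by omega)
          unfold gg at this
          simp only [zero_add] at this
          linear_combination this)]
      have := hbe0 (by omega)
      unfold dd at *
      linear_combination this
    | succ j ih =>
      rw [← ih (by omega)]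
      have e1 := ht j (by omega)
      have e2 := ht (j + 1) (by omega)
      have e3 := hrho (j + 1) (by omega)
      have e4 := hall (j + 1) (by omega)
      unfold gg at e4
      simp only [show j + 1 + 1 = j + 2 by ring, show j + 1 + 2 = j + 3 by ring] at *
      exact alg2 (t j) (t (j + 1)) (t (j + 2)) (t (j + 3)) (s (j + 1)) (s (j + 2)) β γ γ' ϱ ω η
        (ph d t s x (j + 1)) (ph d t s x (j + 2)) (ph d t s x (j + 3)) e1 e2 e3 e4

/-- the data and the data with `t` reversed satisfy the same relation -/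
lemma awd_both (hd : t 0 ≠ t d) (ht : Rec d β γ t) (hs : Rec d β γ' s) (x : F) :
    ∃ ϱ ω η : F, AWD d β γ γ' ϱ ω η t s (ph d t s x) ∧
      AWD d β γ γ' ϱ ω η (fun i => t (d - i)) s
        (ph d (fun i => t (d - i)) s (x + (t 0 - t d) * (s 0 - s 1))) := by
  by_cases h2 : 2 ≤ d
  · obtain ⟨ω, hω⟩ : ∃ ω, ω = - β * ph d t s x 1 + ph d t s x 2 - gg β γ γ' t s 0 := ⟨_, rfl⟩
    obtain ⟨ϱ, hϱ⟩ : ∃ ϱ, ϱ = t 0 ^ 2 - β * (t 0 * t 1) + t 1 ^ 2 - γ * (t 0 + t 1) := ⟨_, rfl⟩
    obtain ⟨η, hη⟩ : ∃ η, η = x * (t 0 + t 1 - β * t 0 - γ) +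
      s 0 * (2 * t 0 ^ 2 - β * t 0 ^ 2 - 2 * γ * t 0 - ϱ) - γ' * t 0 ^ 2 - ω * t 0 := ⟨_, rfl⟩
    refine ⟨ϱ, ω, η, awd_ph hd ht hs x ω η ϱ hϱ (fun _ => hω) (fun _ => hη),
      awd_ph ?_ ht.rev hs _ ω η ϱ ?_ (fun _ => ?_) (fun _ => ?_)⟩
    · simp only [Nat.sub_zero, Nat.sub_self]
      exact Ne.symm hd
    · have := rho_of_rec ht (d - 1) (by omega)
      simp only [Nat.sub_zero]
      rw [show d - 1 + 1 = d by omega] at this
      rw [hϱ]
      linear_combination -this
    · -- ω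
      have e0 := ph_one (s := s) hd x
      have e1 : ph d (fun i => t (d - i)) s (x + (t 0 - t d) * (s 0 - s 1)) 1 =
          x + (t 0 - t d) * (s 0 - s 1) := ph_one (by
            simp only [Nat.sub_zero, Nat.sub_self]
            exact Ne.symm hd) _
      rw [hω, e0, e1]
      have hne : t 0 - t d ≠ 0 := sub_ne_zero.2 hd
      have e2 : ss d t 2 = (t 0 - t d) + (t 1 - t (d - 1)) := by
        rw [ss_succ, ss_one]
      have e3 : ss d (fun i => t (d - i)) 2 = (t d - t 0) + (t (d - 1) - t 1) := by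
        rw [ss_succ, ss_one]
        simp only [Nat.sub_zero, Nat.sub_self]
        rw [show d - (d - 1) = 1 by omega]
      have e4 : ph d t s x 2 = (x + (t 0 - t d) * (s 0 - s 1)) *
          (1 + (t 1 - t (d - 1)) / (t 0 - t d)) + (s 2 - s 0) * (t 1 - t d) := by
        rw [ph, e2]
        field_simp
      have e5 : ph d (fun i => t (d - i)) s (x + (t 0 - t d) * (s 0 - s 1)) 2 =
          x * (1 + (t 1 - t (d - 1)) / (t 0 - t d)) + (s 2 - s 0) * (t (d - 1) - t 0) := by
        rw [ph, e3]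
        simp only [Nat.sub_zero, Nat.sub_self, show 2 - 1 = 1 from rfl]
        have hne2 : t d - t 0 ≠ 0 := sub_ne_zero.2 (Ne.symm hd)
        have : (t d - t 0 + (t (d - 1) - t 1)) / (t d - t 0) =
            1 + (t 1 - t (d - 1)) / (t 0 - t d) := by
          rw [← neg_sub (t 0) (t d), ← neg_sub (t 1) (t (d - 1)), ← neg_add, neg_div_neg_eq,
            add_div, div_self hne]
        rw [this]
        ring
      rw [e4, e5]
      unfold gg
      simp only [Nat.sub_zero, zero_add]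
      have e6 := hs 0 (by omega)
      simp only [zero_add] at e6
      have e7 : (t 0 - t d) * ((t 1 - t (d - 1)) / (t 0 - t d)) = t 1 - t (d - 1) := by
        field_simp
      rw [← e6]
      linear_combination (s 0 - s 1) * e7
    · -- η
      have e0 := ph_one (s := s) hd x
      have hne : t 0 - t d ≠ 0 := sub_ne_zero.2 hd
      have e2 : ss d t 2 = (t 0 - t d) + (t 1 - t (d - 1)) := by
        rw [ss_succ, ss_one]
      have e4 : ph d t s x 2 = (x + (t 0 - t d) * (s 0 - s 1)) *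
          (1 + (t 1 - t (d - 1)) / (t 0 - t d)) + (s 2 - s 0) * (t 1 - t d) := by
        rw [ph, e2]
        field_simp
      simp only [Nat.sub_zero]
      rw [hη, ← sub_eq_zero]
      have e7 : (t 0 - t d) * ((t 1 - t (d - 1)) / (t 0 - t d)) = t 1 - t (d - 1) := by
        field_simp
      have e6 := hs 0 (by omega)
      simp only [zero_add] at e6
      rw [hω, e0, e4]
      unfold gg
      simp only [zero_add]
      rw [← e6]
      linear_combination (-(x + (t 0 - t d) * (s 0 - s 1))) * e7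
  · refine ⟨t 0 ^ 2 - β * (t 0 * t 1) + t 1 ^ 2 - γ * (t 0 + t 1), 0, 0,
      awd_ph hd ht hs x _ _ _ rfl (fun h => absurd h h2) (fun h => absurd h h2),
      awd_ph ?_ ht.rev hs _ _ _ _ ?_ (fun h => absurd h h2) (fun h => absurd h h2)⟩
    · simp only [Nat.sub_zero, Nat.sub_self]
      exact Ne.symm hd
    · have h1 : d = 0 ∨ d = 1 := by omega
      rcases h1 with rfl | rfl
      · exact absurd rfl hd
      · simp only [Nat.sub_zero, Nat.sub_self]
        ring

end

end Pool.Agent.H13.TD
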