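import Mathlib
import Pool.Agent.H13.TDForward
import Pool.Agent.H13.TDScalar2

/-! The Askey-Wilson relation and the reversed split form. -/

open Module Polynomial

namespace Pool.Agent.H13.TD

section AW

variable {F X : Type*} [Field F] [AddCommGroup X] [Module F X]

/-- the Askey-Wilson expression -/
def AW (β γ γ' ϱ ω η : F) (A B : End F X) : End F X :=
  A * A * B - β • (A * B * A) + B * A * A - γ • (A * B + B * A) - ϱ • B - γ' • (A * A) -
    ω • A - η • 1

lemma AW_apply (β γ γ' ϱ ω η : F) (A B : End F X) (v : X) : AW β γ γ' ϱ ω η A B v =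
    A (A (B v)) - β • A (B (A v)) + B (A (A v)) - γ • (A (B v) + B (A v)) - ϱ • B v -
      γ' • A (A v) - ω • A v - η • v := rfl

lemma core {β γ γ' ϱ ω η : F} {A B : End F X} {v0 v1 v2 z : X} {tm t0 t1 s0 s1 s2 f0 f1 f2 : F}
    (hA0 : A v0 = v1 + t0 • v0) (hA1 : A v1 = v2 + t1 • v1)
    (hB0 : B v0 = s0 • v0 + z) (hz : A z = f0 • v0 + tm • z)
    (hB1 : B v1 = s1 • v1 + f1 • v0)
    (c2 : s0 - β * s1 + s2 = γ')
    (c1 : f0 - β * f1 + f2 = ω + (γ' * (t0 + t1) + γ * (s0 + s1) + β * (t0 * s0 + t1 * s1) -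
      (t0 + t1) * (s0 + s1)))
    (c0 : dd β γ γ' ϱ ω η tm t0 t1 s0 f0 f1 = 0)
    (cz : (tm ^ 2 - β * (tm * t0) + t0 ^ 2 - γ * (tm + t0) - ϱ) • z = 0) :
    AW β γ γ' ϱ ω η A B v0 = B v2 - s2 • v2 - f2 • v1 := by
  rw [AW_apply]
  have e1 : A (A (B v0)) = s0 • (v2 + t1 • v1 + t0 • (v1 + t0 • v0)) +
      (f0 • (v1 + t0 • v0) + tm • (f0 • v0 + tm • z)) := by
    rw [hB0]
    simp only [map_add, map_smul, hA0, hA1, hz]
  have e2 : A (B (A v0)) = s1 • (v2 + t1 • v1) + f1 • (v1 + t0 • v0) +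
      t0 • (s0 • (v1 + t0 • v0) + (f0 • v0 + tm • z)) := by
    rw [hA0]
    simp only [map_add, map_smul, hB0, hB1, hA0, hA1, hz]
  have e3 : B (A (A v0)) = B v2 + t1 • (s1 • v1 + f1 • v0) + t0 • (s1 • v1 + f1 • v0 +
      t0 • (s0 • v0 + z)) := by
    rw [hA0]
    simp only [map_add, map_smul, hA1, hA0, hB1, hB0]
  have e4 : A (B v0) = s0 • (v1 + t0 • v0) + (f0 • v0 + tm • z) := by
    rw [hB0]
    simp only [map_add, map_smul, hA0, hz]
  have e5 : B (A v0) = s1 • v1 + f1 • v0 + t0 • (s0 • v0 + z) := by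
    rw [hA0]
    simp only [map_add, map_smul, hB0, hB1]
  have e6 : A (A v0) = v2 + t1 • v1 + t0 • (v1 + t0 • v0) := by
    rw [hA0]
    simp only [map_add, map_smul, hA0, hA1]
  rw [e1, e2, e3, e4, e5, e6, hA0, hB0]
  have g2 : s0 - β * s1 + s2 - γ' = 0 := by rw [c2, sub_self]
  have g1 : f0 - β * f1 + f2 - (ω + (γ' * (t0 + t1) + γ * (s0 + s1) + β * (t0 * s0 + t1 * s1) -
      (t0 + t1) * (s0 + s1))) = 0 := by rw [c1, sub_self]
  unfold dd at c0
  have key : ∀ (a b c : F) (x y w : X), a = 0 → b = 0 → c = 0 → x = y + a • v2 + b • v1 +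
      c • v0 + w → w = 0 → x = y := by
    intro a b c x y w ha hb hc h hw
    rw [h, ha, hb, hc, hw]
    simp
  refine key _ _ _ _ _ _ g2 g1 c0 ?_ cz
  module

lemma expand {d : ℕ} {β γ γ' ϱ ω η : F} {t s f : ℕ → F} (h : AWD d β γ γ' ϱ ω η t s f)
    {A B : End F X} {v : X} (h0 : B v = s 0 • v) (j : ℕ) (hj : j + 2 ≤ d)
    (hB : ∀ i, i ≤ j → B (TT A t (i + 1) v) = s (i + 1) • TT A t (i + 1) v +
      f (i + 1) • TT A t i v) :
    AW β γ γ' ϱ ω η A B (TT A t j v) = B (TT A t (j + 2) v) - s (j + 2) • TT A t (j + 2) v -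
      f (j + 2) • TT A t (j + 1) v := by
  rcases j with _ | j
  · refine core (v1 := TT A t 1 v) (z := 0) (tm := 0) (t0 := t 0) (t1 := t 1) (s0 := s 0)
      (s1 := s 1) (f0 := 0) (f1 := f 1) ?_ ?_ ?_ ?_ ?_ (h.r' 0 hj) ?_ ?_ ?_
    · have := A_TT A t 0 v
      rwa [TT_zero, zero_add] at this
    · exact A_TT A t 1 v
    · rw [TT_zero, add_zero, h0]
    · simp
    · have := hB 0 le_rfl
      rwa [zero_add] at this
    · have := h.al0 (by omega)
      unfold gg at this
      simp only [zero_add] at this ⊢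
      linear_combination this
    · exact h.be0 (by omega)
    · rw [smul_zero]
  · refine core (v1 := TT A t (j + 2) v) (z := f (j + 1) • TT A t j v) (tm := t j)
      (t0 := t (j + 1)) (t1 := t (j + 2)) (s0 := s (j + 1))
      (s1 := s (j + 2)) (f0 := f (j + 1)) (f1 := f (j + 2)) ?_ ?_ ?_ ?_ ?_ (h.r' (j + 1) hj) ?_ ?_ ?_
    · exact A_TT A t (j + 1) v
    · exact A_TT A t (j + 2) v
    · exact hB j (by omega)
    · rw [map_smul, A_TT, smul_add, smul_comm]
    · exact hB (j + 1) le_rfl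
    · have := h.al j (by omega)
      unfold gg at this
      exact this
    · exact h.be j (by omega)
    · have := h.rho j (by omega)
      rw [← this]
      rw [show t j ^ 2 - β * (t j * t (j + 1)) + t (j + 1) ^ 2 - γ * (t j + t (j + 1)) -
        (t j ^ 2 - β * (t j * t (j + 1)) + t (j + 1) ^ 2 - γ * (t j + t (j + 1))) = 0 by ring,
        zero_smul]

lemma TT_span {A : End F X} (t t' : ℕ → F) (v : X) (N : Submodule F X) (n : ℕ)
    (h : ∀ i ≤ n, TT A t i v ∈ N) : ∀ i ≤ n, TT A t' i v ∈ N := by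
  have key : ∀ i, ∀ w ∈ Submodule.span F {x | ∃ k ≤ i, x = TT A t k v},
      A w ∈ Submodule.span F {x | ∃ k ≤ i + 1, x = TT A t k v} := by
    intro i w hw
    have : Submodule.span F {x | ∃ k ≤ i, x = TT A t k v} ≤
        (Submodule.span F {x | ∃ k ≤ i + 1, x = TT A t k v}).comap A := by
      rw [Submodule.span_le]
      rintro _ ⟨k, hk, rfl⟩
      rw [SetLike.mem_coe, Submodule.mem_comap, A_TT]
      exact Submodule.add_mem _ (Submodule.subset_span ⟨k + 1, by omega, rfl⟩)
        (Submodule.smul_mem _ _ (Submodule.subset_span ⟨k, by omega, rfl⟩))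
    exact this hw
  have key2 : ∀ i, TT A t' i v ∈ Submodule.span F {x | ∃ k ≤ i, x = TT A t k v} := by
    intro i
    induction i with
    | zero => exact Submodule.subset_span ⟨0, le_rfl, rfl⟩
    | succ i ih =>
      rw [TT_succ]
      refine Submodule.sub_mem _ (key i _ ih) (Submodule.smul_mem _ _ ?_)
      refine (Submodule.span_mono ?_) ih
      rintro _ ⟨k, hk, rfl⟩
      exact ⟨k, by omega, rfl⟩
  intro i hi
  have : Submodule.span F {x | ∃ k ≤ i, x = TT A t k v} ≤ N := by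
    rw [Submodule.span_le]
    rintro _ ⟨k, hk, rfl⟩
    exact h k (by omega)
  exact this (key2 i)

lemma rstep {d : ℕ} {β γ γ' ϱ ω η : F} {t t' s f f' : ℕ → F} (h : AWD d β γ γ' ϱ ω η t s f)
    (h' : AWD d β γ γ' ϱ ω η t' s f') {A B : End F X} {v : X} (h0 : B v = s 0 • v)
    (hB : ∀ i, i + 1 ≤ d → B (TT A t (i + 1) v) = s (i + 1) • TT A t (i + 1) v +
      f (i + 1) • TT A t i v) (hf : f' 1 = f 1 + (t 0 - t' 0) * (s 0 - s 1)) :
    ∀ i, i + 1 ≤ d → B (TT A t' (i + 1) v) = s (i + 1) • TT A t' (i + 1) v +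
      f' (i + 1) • TT A t' i v := by
  have hAW : ∀ j, j + 2 ≤ d → AW β γ γ' ϱ ω η A B (TT A t' j v) = 0 := by
    intro j hj
    have := TT_span t t' v (LinearMap.ker (AW β γ γ' ϱ ω η A B)) (d - 2) (by
      intro i hi
      rw [LinearMap.mem_ker, expand h h0 i (by omega) (fun k hk => hB k (by omega)),
        hB (i + 1) (by omega)]
      abel) j (by omega)
    exact this
  intro i
  induction i using Nat.strong_induction_on with
  | _ i ih =>
    intro hi
    rcases i with _ | i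
    · have e1 := hB 0 hi
      rw [zero_add] at *
      have e2 : TT A t 1 v = A v - t 0 • v := rfl
      have e3 : TT A t' 1 v = A v - t' 0 • v := rfl
      rw [TT_zero] at *
      rw [e2] at e1
      rw [e3, hf, map_sub, map_smul, h0]
      rw [map_sub, map_smul, h0, sub_eq_iff_eq_add] at e1
      rw [e1]
      module
    · have e1 := expand h' h0 i (by omega) (fun k hk => ih k (by omega) (by omega))
      rw [hAW i (by omega)] at e1
      rw [show i + 1 + 1 = i + 2 by ring]
      have e2 : B (TT A t' (i + 2) v) - (s (i + 2) • TT A t' (i + 2) v +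
        f' (i + 2) • TT A t' (i + 1) v) = 0 := by
        rw [e1]; abel
      exact sub_eq_zero.1 e2

end AW

section Build

variable {K L X : Type*} [Field K] [Field L] [Algebra K L] [AddCommGroup X] [Module L X]

lemma build (d : ℕ) (θ θ' : ℕ → K) (x : L) {A B : End L X} {v : X}
    (hT : TT A (fun i => algebraMap K L (θ i)) (d + 1) v = 0)
    (h0 : B v = algebraMap K L (θ' 0) • v)
    (hB : ∀ i, i + 1 ≤ d → B (TT A (fun i => algebraMap K L (θ i)) (i + 1) v) =
      algebraMap K L (θ' (i + 1)) • TT A (fun i => algebraMap K L (θ i)) (i + 1) v +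
      splitSeq d θ θ' x (i + 1) • TT A (fun i => algebraMap K L (θ i)) i v) :
    ∃ Ψ : (Fin (d + 1) → L) →ₗ[L] X,
      (∀ f, Ψ f = ∑ i : Fin (d + 1), f i • TT A (fun i => algebraMap K L (θ i)) i v) ∧
      (∀ f, Ψ (LA L d θ f) = A (Ψ f)) ∧ (∀ f, Ψ (LB d θ θ' x f) = B (Ψ f)) := by
  set t : ℕ → L := fun i => algebraMap K L (θ i) with ht
  set Ψ : (Fin (d + 1) → L) →ₗ[L] X := ∑ i : Fin (d + 1),
    (LinearMap.toSpanSingleton L X (TT A t i v)) ∘ₗ (LinearMap.proj i) with hΨ
  have hΨa : ∀ f, Ψ f = ∑ i : Fin (d + 1), f i • TT A t i v := by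
    intro f
    rw [hΨ, LinearMap.sum_apply]
    rfl
  refine ⟨Ψ, hΨa, fun f => ?_, fun f => ?_⟩
  · rw [hΨa, hΨa, map_sum, Fin.sum_univ_succ]
    have h3 : ∀ i : Fin (d + 1), A (f i • TT A t i v) =
        f i • TT A t (i + 1) v + (t i * f i) • TT A t i v := fun i => by
      rw [map_smul, A_TT, smul_add, smul_smul, mul_comm]
    rw [Finset.sum_congr rfl fun i _ => h3 i, Finset.sum_add_distrib, Fin.sum_univ_castSucc]
    rw [Fin.sum_univ_succ (fun i : Fin (d + 1) => (t i * f i) • TT A t i v)]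
    have h6 : ∀ i : Fin d, (LA L d θ f i.succ) • TT A t (i.succ : Fin (d + 1)) v =
        (t (i.succ : Fin (d + 1)) * f i.succ) • TT A t (i.succ : Fin (d + 1)) v +
        f i.castSucc • TT A t ((i.castSucc : Fin (d + 1)) + 1) v := by
      intro i
      rw [LA_succ, add_smul]
      rfl
    rw [Finset.sum_congr rfl fun i _ => h6 i, Finset.sum_add_distrib, LA_zero]
    have h7 : TT A t ((Fin.last d : Fin (d + 1)) + 1) v = 0 := hT
    rw [h7, smul_zero]
    have h8 : ∀ a b c : X, a + (b + c) = c + 0 + (a + b) := fun a b c => by abel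
    exact h8 _ _ _
  · rw [hΨa, hΨa, map_sum, Fin.sum_univ_castSucc, Fin.sum_univ_succ (fun i : Fin (d + 1) =>
      B (f i • TT A t i v))]
    have h3 : ∀ i : Fin d, B (f i.succ • TT A t (i.succ : Fin (d + 1)) v) =
        (algebraMap K L (θ' (i.succ : Fin (d + 1))) * f i.succ) • TT A t (i.succ : Fin (d + 1)) v +
        (splitSeq d θ θ' x (i + 1) * f i.succ) • TT A t i v := by
      intro i
      have := hB i (by omega)
      rw [map_smul]
      rw [show TT A t (i.succ : Fin (d + 1)) v = TT A t (i + 1) v from rfl, this, smul_add,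
        smul_smul, smul_smul, mul_comm, mul_comm (f i.succ)]
      rfl
    have h6 : ∀ i : Fin d, (LB d θ θ' x f i.castSucc) • TT A t (i.castSucc : Fin (d + 1)) v =
        (algebraMap K L (θ' (i.castSucc : Fin (d + 1))) * f i.castSucc) •
          TT A t (i.castSucc : Fin (d + 1)) v +
        (splitSeq d θ θ' x (i + 1) * f i.succ) • TT A t i v := by
      intro i
      rw [LB_castSucc, add_smul]
      rfl
    rw [Finset.sum_congr rfl fun i _ => h3 i, Finset.sum_add_distrib, LB_last,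
      Finset.sum_congr rfl fun i _ => h6 i, Finset.sum_add_distrib]
    have h7 : B (f 0 • TT A t (0 : Fin (d + 1)) v) =
        (algebraMap K L (θ' (0 : Fin (d + 1))) * f 0) • TT A t (0 : Fin (d + 1)) v := by
      rw [map_smul, mul_comm, mul_smul]
      congr 1
    rw [h7]
    have h8 := Fin.sum_univ_castSucc (fun i : Fin (d + 1) =>
      (algebraMap K L (θ' i) * f i) • TT A t i v)
    have h9 := Fin.sum_univ_succ (fun i : Fin (d + 1) =>
      (algebraMap K L (θ' i) * f i) • TT A t i v)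
    have h10 : (algebraMap K L (θ' d) * f (Fin.last d)) • TT A t (Fin.last d : Fin (d + 1)) v =
      (algebraMap K L (θ' (Fin.last d : Fin (d + 1))) * f (Fin.last d)) •
        TT A t (Fin.last d : Fin (d + 1)) v := rfl
    rw [h10]
    rw [h8] at h9
    rw [← add_assoc, ← h9]
    abel

end Build

end Pool.Agent.H13.TD
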