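import Mathlib
import Pool.Agent.H13.TDCore

/-! General facts on sums of eigenspaces and standard orders. -/

open Module Polynomial

namespace Pool.Agent.H13.TD

variable {K V W : Type*} [Field K] [AddCommGroup V] [Module K V] [AddCommGroup W] [Module K W]

lemma TT_aeval (A : End K V) (t : ℕ → K) (n : ℕ) :
    TT A t n = aeval A (∏ i ∈ Finset.range n, (X - C (t i))) := by
  induction n with
  | zero => simp [TT]
  | succ n ih =>
    rw [Finset.prod_range_succ, mul_comm, map_mul, ← ih, TT]
    congr 1
    simp [Algebra.algebraMap_eq_smul_one]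

lemma Sp_of_nodal {A : End K V} {θ : ℕ → K} (I : Finset ℕ)
    (inj : ∀ i ∈ I, ∀ j ∈ I, θ i = θ j → i = j) :
    ∀ v, aeval A (∏ i ∈ I, (X - C (θ i))) v = 0 → v ∈ Sp A θ I := by
  induction I using Finset.induction_on with
  | empty =>
    intro v hv
    rw [Sp_empty]
    simpa using hv
  | insert a J ha ih =>
    intro v hv
    rw [Finset.prod_insert ha, map_mul, Module.End.mul_apply] at hv
    set w := aeval A (∏ i ∈ J, (X - C (θ i))) v with hw
    have hwe : A w = θ a • w := by
      rw [map_sub, aeval_X, aeval_C, LinearMap.sub_apply, Module.algebraMap_end_apply,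
        sub_eq_zero] at hv
      exact hv
    set c := (∏ i ∈ J, (X - C (θ i))).eval (θ a) with hc
    have hc0 : c ≠ 0 := by
      rw [hc, eval_prod, Finset.prod_ne_zero_iff]
      intro i hi
      rw [eval_sub, eval_X, eval_C, sub_ne_zero]
      intro h
      have := inj a (Finset.mem_insert_self _ _) i (Finset.mem_insert_of_mem hi) h
      subst this
      exact ha hi
    have h1 : v - c⁻¹ • w ∈ Sp A θ J := by
      apply ih (fun i hi j hj => inj i (Finset.mem_insert_of_mem hi) j (Finset.mem_insert_of_mem hj))
      rw [map_sub, map_smul, ← hw, aeval_eig hwe, ← hc, smul_smul, inv_mul_cancel₀ hc0, one_smul,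
        sub_self]
    have h2 : w ∈ Sp A θ (insert a J) :=
      eig_le_Sp (Finset.mem_insert_self _ _) (Module.End.mem_eigenspace_iff.2 hwe)
    have h3 := Submodule.add_mem _ (Sp_mono (Finset.subset_insert a J) h1)
      (Submodule.smul_mem _ c⁻¹ h2)
    rwa [sub_add_cancel] at h3

lemma nodal_of_Sp {A : End K V} {θ : ℕ → K} {I : Finset ℕ} {v : V} (hv : v ∈ Sp A θ I) :
    aeval A (∏ i ∈ I, (X - C (θ i))) v = 0 := by
  have := Sp_le (A := A) (θ := θ) (I := I) (Q := ⊥) (aeval A (∏ i ∈ I, (X - C (θ i)))) (by
    intro k hk w hw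
    rw [Submodule.mem_bot, aeval_eig hw, eval_prod, Finset.prod_eq_zero hk, zero_smul]
    simp) v hv
  exact this

lemma Sp_inf {A : End K V} {θ : ℕ → K} {d : ℕ} (inj : ∀ i ≤ d, ∀ j ≤ d, θ i = θ j → i = j)
    {I J : Finset ℕ} (hI : ∀ i ∈ I, i ≤ d) (hJ : ∀ i ∈ J, i ≤ d) {v : V} (h1 : v ∈ Sp A θ I)
    (h2 : v ∈ Sp A θ J) : v ∈ Sp A θ (I ∩ J) := by
  apply Sp_of_nodal
  · intro i hi j hj h
    rw [Finset.mem_inter] at hi hj
    exact inj i (hI i hi.1) j (hI j hj.1) h
  · have hcop : IsCoprime (∏ i ∈ I \ J, (X - C (θ i))) (∏ i ∈ J \ I, (X - C (θ i))) := by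
      refine IsCoprime.prod_left fun i hi => IsCoprime.prod_right fun j hj => ?_
      rw [Finset.mem_sdiff] at hi hj
      apply Polynomial.isCoprime_X_sub_C_of_isUnit_sub
      rw [isUnit_iff_ne_zero, sub_ne_zero]
      intro h
      have := inj i (hI i hi.1) j (hJ j hj.1) h
      subst this
      exact hj.2 hi.1
    obtain ⟨a, b, hab⟩ := hcop
    have e1 : ∏ i ∈ I ∩ J, (X - C (θ i)) = a * ∏ i ∈ I, (X - C (θ i)) +
        b * ∏ i ∈ J, (X - C (θ i)) := by
      have f1 : ∏ i ∈ I, (X - C (θ i)) = (∏ i ∈ I \ J, (X - C (θ i))) *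
          ∏ i ∈ I ∩ J, (X - C (θ i)) := by
        rw [← Finset.prod_union]
        · congr 1
          ext i
          simp only [Finset.mem_union, Finset.mem_sdiff, Finset.mem_inter]
          tauto
        · rw [Finset.disjoint_left]
          intro i hi hi2
          simp only [Finset.mem_sdiff, Finset.mem_inter] at hi hi2
          tauto
      have f2 : ∏ i ∈ J, (X - C (θ i)) = (∏ i ∈ J \ I, (X - C (θ i))) *
          ∏ i ∈ I ∩ J, (X - C (θ i)) := by
        rw [← Finset.prod_union]
        · congr 1
          ext i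
          simp only [Finset.mem_union, Finset.mem_sdiff, Finset.mem_inter]
          tauto
        · rw [Finset.disjoint_left]
          intro i hi hi2
          simp only [Finset.mem_sdiff, Finset.mem_inter] at hi hi2
          tauto
      rw [f1, f2]
      linear_combination (-∏ i ∈ I ∩ J, (X - C (θ i))) * hab
    rw [e1, map_add, map_mul, map_mul, LinearMap.add_apply, Module.End.mul_apply,
      Module.End.mul_apply, nodal_of_Sp h1, nodal_of_Sp h2, map_zero, map_zero, add_zero]

/-- conjugation of polynomials in an operator -/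
lemma aeval_conj {A : End K V} {A' : End K W} (σ : V →ₗ[K] W) (h : ∀ v, σ (A v) = A' (σ v))
    (p : K[X]) (v : V) : σ (aeval A p v) = aeval A' p (σ v) := by
  have hpow : ∀ (n : ℕ) (v : V), σ ((A ^ n) v) = (A' ^ n) (σ v) := by
    intro n
    induction n with
    | zero => intro v; simp
    | succ n ih => intro v; rw [pow_succ, Module.End.mul_apply, ih, h, pow_succ,
        Module.End.mul_apply]
  induction p using Polynomial.induction_on' with
  | add p q hp hq => rw [map_add, LinearMap.add_apply, map_add, hp, hq, map_add,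
      LinearMap.add_apply]
  | monomial n a =>
    rw [aeval_monomial, aeval_monomial, Module.End.mul_apply, Module.End.mul_apply,
      Module.algebraMap_end_apply, Module.algebraMap_end_apply, map_smul, hpow]

lemma eig_map {A : End K V} {A' : End K W} (σ : V ≃ₗ[K] W) (h : ∀ v, σ (A v) = A' (σ v)) (μ : K)
    (v : V) : v ∈ A.eigenspace μ ↔ σ v ∈ A'.eigenspace μ := by
  rw [Module.End.mem_eigenspace_iff, Module.End.mem_eigenspace_iff, ← h, ← map_smul]
  exact σ.injective.eq_iff.symm

lemma Sp_map {A : End K V} {A' : End K W} (σ : V ≃ₗ[K] W) (h : ∀ v, σ (A v) = A' (σ v))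
    {θ : ℕ → K} {I : Finset ℕ} {v : V} (hv : v ∈ Sp A θ I) : σ v ∈ Sp A' θ I := by
  have : Sp A θ I ≤ (Sp A' θ I).comap σ.toLinearMap := iSup₂_le fun k hk w hw =>
    eig_le_Sp hk ((eig_map σ h _ _).1 hw)
  exact this hv

lemma symm_comm {A : End K V} {A' : End K W} (σ : V ≃ₗ[K] W) (h : ∀ v, σ (A v) = A' (σ v))
    (w : W) : σ.symm (A' w) = A (σ.symm w) := by
  rw [LinearEquiv.symm_apply_eq, h, LinearEquiv.apply_symm_apply]

lemma Std.congr {A B : End K V} {A' B' : End K W} {d : ℕ} {θ : ℕ → K} (hs : Std A B d θ)
    (σ : V ≃ₗ[K] W) (hA : ∀ v, σ (A v) = A' (σ v)) (hB : ∀ v, σ (B v) = B' (σ v)) :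
    Std A' B' d θ where
  inj := hs.inj
  ne := by
    intro i hi h
    apply hs.ne i hi
    rw [eq_bot_iff]
    intro v hv
    rw [eig_map σ hA, h, Submodule.mem_bot] at hv
    exact σ.map_eq_zero_iff.1 hv
  top := by
    rw [eq_top_iff]
    intro w _
    have := Sp_map σ hA (θ := θ) (I := Finset.range (d + 1)) (v := σ.symm w)
      (by rw [hs.top]; exact Submodule.mem_top)
    rwa [LinearEquiv.apply_symm_apply] at this
  tri := by
    intro i hi v hv
    have h1 : A (σ.symm v) = θ i • σ.symm v := by
      rw [← symm_comm σ hA, hv, map_smul]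
    have h2 := Sp_map σ hA (hs.tri i hi _ h1)
    rwa [hB, LinearEquiv.apply_symm_apply] at h2

lemma Irr.congr {A B : End K V} {A' B' : End K W} (irr : Irr A B)
    (σ : V ≃ₗ[K] W) (hA : ∀ v, σ (A v) = A' (σ v)) (hB : ∀ v, σ (B v) = B' (σ v)) :
    Irr A' B' := by
  intro S hSA hSB
  rcases irr (S.comap σ.toLinearMap) (fun w hw => by
      rw [Submodule.mem_comap] at hw ⊢
      have := hSA _ hw
      exact (hA w).symm ▸ this) (fun w hw => by
      rw [Submodule.mem_comap] at hw ⊢
      have := hSB _ hw
      exact (hB w).symm ▸ this) with h | h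
  · left
    rw [eq_bot_iff]
    intro s hs
    have : σ.symm s ∈ S.comap σ.toLinearMap := by
      rw [Submodule.mem_comap]
      simpa using hs
    rw [h, Submodule.mem_bot] at this
    simpa using this
  · right
    rw [eq_top_iff]
    intro s _
    have : σ.symm s ∈ S.comap σ.toLinearMap := by rw [h]; exact Submodule.mem_top
    rw [Submodule.mem_comap] at this
    simpa using this

/-- the eigenvalues of `A` -/
lemma Std.eigenvalue_iff {A B : End K V} {d : ℕ} {θ : ℕ → K} (hs : Std A B d θ) (μ : K) :
    A.HasEigenvalue μ ↔ ∃ i ≤ d, θ i = μ := by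
  constructor
  · intro h
    obtain ⟨v, hv⟩ := h.exists_hasEigenvector
    have h1 : A v = μ • v := hv.apply_eq_smul
    have h2 : v ∈ Sp A θ (Finset.range (d + 1)) := by rw [hs.top]; exact Submodule.mem_top
    have h3 := nodal_of_Sp h2
    rw [aeval_eig h1, smul_eq_zero, eval_prod, Finset.prod_eq_zero_iff] at h3
    rcases h3 with ⟨i, hi, h4⟩ | h3
    · rw [eval_sub, eval_X, eval_C, sub_eq_zero] at h4
      rw [Finset.mem_range] at hi
      exact ⟨i, by omega, h4.symm⟩
    · exact absurd h3 hv.2
  · rintro ⟨i, hi, rfl⟩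
    exact hs.ne i hi

lemma Std.standardOrder {A B : End K V} {d : ℕ} {θ : ℕ → K} (hs : Std A B d θ) :
    StandardOrder A B d θ := by
  refine ⟨hs.inj, hs.eigenvalue_iff, fun i hi v hv => ?_⟩
  have h1 := hs.tri i hi v (Module.End.mem_eigenspace_iff.1 hv)
  refine (show Sp A θ _ ≤ _ from ?_) h1
  refine iSup₂_le fun k hk => ?_
  rw [Finset.mem_Icc] at hk
  exact le_iSup₂_of_le k (show k ∈ {j : ℕ | j ≤ d ∧ j ≤ i + 1 ∧ i ≤ j + 1} from by
    simp only [Set.mem_ofPred_eq]; omega) le_rfl

lemma StandardOrder.std {A B : End K V} {d : ℕ} {θ : ℕ → K} (hs : StandardOrder A B d θ)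
    (htop : ⨆ μ : K, A.eigenspace μ = ⊤) : Std A B d θ where
  inj := hs.1
  ne := fun i hi => (hs.2.1 (θ i)).2 ⟨i, hi, rfl⟩
  top := by
    rw [eq_top_iff, ← htop]
    refine iSup_le fun μ => ?_
    by_cases h : A.HasEigenvalue μ
    · obtain ⟨i, hi, rfl⟩ := (hs.2.1 μ).1 h
      exact eig_le_Sp (by rw [Finset.mem_range]; omega)
    · have : A.eigenspace μ = ⊥ := by
        by_contra h2
        exact h h2
      rw [this]
      exact bot_le
  tri := by
    intro i hi v hv
    have h1 := hs.2.2 i hi v (Module.End.mem_eigenspace_iff.2 hv)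
    refine (show (⨆ j ∈ {j : ℕ | j ≤ d ∧ j ≤ i + 1 ∧ i ≤ j + 1}, A.eigenspace (θ j)) ≤ _ from ?_) h1
    refine iSup₂_le fun k hk => ?_
    simp only [Set.mem_ofPred_eq] at hk
    exact eig_le_Sp (by rw [Finset.mem_Icc]; omega)

lemma Std.iSup_top {A B : End K V} {d : ℕ} {θ : ℕ → K} (hs : Std A B d θ) :
    ⨆ μ : K, A.eigenspace μ = ⊤ := by
  rw [eq_top_iff, ← hs.top]
  exact iSup₂_le fun k _ => le_iSup (fun μ => A.eigenspace μ) (θ k)

lemma not_lower {A B : End K V} {d : ℕ} {θ : ℕ → K} (hs : Std A B d θ)
    (irr : Irr A B) (i : ℕ) (hi : i + 1 ≤ d) :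
    ∃ v, A v = θ i • v ∧ B v ∉ GG A θ d (i + 1) := by
  by_contra hcon
  push Not at hcon
  have h1 : ∀ w ∈ GG A θ d (i + 1), B w ∈ GG A θ d (i + 1) := by
    apply Sp_le
    intro k hk v hv
    simp only [Finset.mem_filter, Finset.mem_range] at hk
    by_cases hki : k = i
    · subst hki
      exact hcon v hv
    · refine Sp_mono ?_ (hs.tri k (by omega) v hv)
      intro l hl
      simp only [Finset.mem_Icc] at hl
      simp only [Finset.mem_filter, Finset.mem_range]
      omega
  rcases irr (GG A θ d (i + 1)) (fun w hw => GG_stable hw) h1 with h | h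
  · apply hs.ne 0 (by omega)
    rw [eq_bot_iff, ← h]
    exact eig_le_Sp (by simp only [Finset.mem_filter, Finset.mem_range]; omega)
  · have h2 := Sp_disjoint (A := A) (θ := θ) (I := (Finset.range (d + 1)).filter (fun k => k < i + 1))
      (J := {d}) hs.inj (by
        intro k hk
        simp only [Finset.mem_filter, Finset.mem_range] at hk
        omega) (by simp) (by
        simp only [Finset.disjoint_singleton_right, Finset.mem_filter, Finset.mem_range]
        omega)
    change GG A θ d (i + 1) ⊓ Sp A θ {d} = ⊥ at h2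
    rw [h, top_inf_eq] at h2
    apply hs.ne d le_rfl
    rw [eq_bot_iff, ← h2]
    exact eig_le_Sp (by simp)

/-- two standard orders agree up to reversal -/
lemma order_unique {A B : End K V} {d e : ℕ} {θ η : ℕ → K} (hs : Std A B d θ)
    (ht : Std A B e η) (irr : Irr A B) :
    e = d ∧ ((∀ i ≤ d, η i = θ i) ∨ (∀ i ≤ d, η i = θ (d - i))) := by
  classical
  have hex : ∀ i, i ≤ d → ∃ j ≤ e, η j = θ i := fun i hi =>
    (ht.eigenvalue_iff _).1 ((hs.eigenvalue_iff _).2 ⟨i, hi, rfl⟩)
  have hex2 : ∀ i, i ≤ e → ∃ j ≤ d, θ j = η i := fun i hi =>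
    (hs.eigenvalue_iff _).1 ((ht.eigenvalue_iff _).2 ⟨i, hi, rfl⟩)
  choose! p hp1 hp2 using hex
  choose! q hq1 hq2 using hex2
  have hpq : ∀ i ≤ e, p (q i) = i := by
    intro i hi
    apply ht.inj _ (hp1 _ (hq1 i hi)) _ hi
    rw [hp2 _ (hq1 i hi), hq2 i hi]
  have hqp : ∀ i ≤ d, q (p i) = i := by
    intro i hi
    apply hs.inj _ (hq1 _ (hp1 i hi)) _ hi
    rw [hq2 _ (hp1 i hi), hp2 i hi]
  have hde : e = d := by
    apply le_antisymm
    · have : (Finset.range (e + 1)).card ≤ (Finset.range (d + 1)).card :=
        Finset.card_le_card_of_injOn q (by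
          intro i hi
          simp only [Finset.coe_range, Set.mem_Iio] at hi ⊢
          have := hq1 i (by omega)
          omega) (by
          intro i hi j hj hij
          simp only [Finset.coe_range, Set.mem_Iio] at hi hj
          rw [← hpq i (by omega), ← hpq j (by omega), hij])
      simpa using this
    · have : (Finset.range (d + 1)).card ≤ (Finset.range (e + 1)).card :=
        Finset.card_le_card_of_injOn p (by
          intro i hi
          simp only [Finset.coe_range, Set.mem_Iio] at hi ⊢
          have := hp1 i (by omega)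
          omega) (by
          intro i hi j hj hij
          simp only [Finset.coe_range, Set.mem_Iio] at hi hj
          rw [← hqp i (by omega), ← hqp j (by omega), hij])
      simpa using this
  subst hde
  refine ⟨rfl, ?_⟩
  -- consecutive indices go to consecutive indices
  have hstep : ∀ i, i + 1 ≤ e → p (i + 1) ≤ p i + 1 ∧ p i ≤ p (i + 1) + 1 := by
    intro i hi
    obtain ⟨v, hv, hBv⟩ := not_lower hs irr i hi
    by_contra hcon
    apply hBv
    have hpi := hp1 i (by omega)
    have h1 := ht.tri (p i) hpi v (by rw [hp2 i (by omega)]; exact hv)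
    have h2 := hs.tri i (by omega) v hv
    -- write the second in terms of `θ`
    have h3 : B v ∈ Sp A θ ((Finset.Icc (p i - 1) (min (p i + 1) e)).image q) := by
      refine (show Sp A η _ ≤ _ from ?_) h1
      refine iSup₂_le fun k hk => ?_
      rw [← hq2 k (by rw [Finset.mem_Icc] at hk; omega)]
      exact eig_le_Sp (Finset.mem_image_of_mem q hk)
    have h4 := Sp_inf hs.inj (by
      intro k hk
      rw [Finset.mem_Icc] at hk
      omega) (by
      intro k hk
      rw [Finset.mem_image] at hk
      obtain ⟨l, hl, rfl⟩ := hk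
      rw [Finset.mem_Icc] at hl
      exact hq1 l (by omega)) h2 h3
    refine Sp_mono ?_ h4
    intro k hk
    rw [Finset.mem_inter, Finset.mem_Icc, Finset.mem_image] at hk
    obtain ⟨hk1, l, hl, rfl⟩ := hk
    rw [Finset.mem_Icc] at hl
    simp only [Finset.mem_filter, Finset.mem_range]
    have h5 := hq1 l (by omega)
    refine ⟨by omega, ?_⟩
    by_contra h6
    have h7 : q l = i + 1 := by omega
    have h8 := hpq l (by omega)
    rw [h7] at h8
    omega
  -- an injective map with steps at most one is monotone
  have hinj : ∀ i ≤ e, ∀ j ≤ e, p i = p j → i = j := by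
    intro i hi j hj hij
    rw [← hqp i hi, ← hqp j hj, hij]
  have hmono : (∀ i ≤ e, p i = i) ∨ (∀ i ≤ e, p i = e - i) := by
    rcases Nat.eq_zero_or_pos e with h0 | h0
    · left
      intro i hi
      have := hp1 i hi
      omega
    · have h1 := hstep 0 (by omega)
      have hne : p 1 ≠ p 0 := fun h => by
        have := hinj 1 (by omega) 0 (by omega) h
        omega
      rw [zero_add] at h1
      have hcase : p 1 = p 0 + 1 ∨ p 0 = p 1 + 1 := by omega
      rcases hcase with hc | hc
      · left
        have h2 : ∀ i, i + 1 ≤ e → p i = p 0 + i ∧ p (i + 1) = p 0 + (i + 1) := by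
          intro i
          induction i with
          | zero => intro _; exact ⟨rfl, hc⟩
          | succ i ih =>
            intro hi
            obtain ⟨a, b⟩ := ih (by omega)
            refine ⟨b, ?_⟩
            have h3 := hstep (i + 1) (by omega)
            have h4 : p (i + 1 + 1) ≠ p (i + 1) := fun h => by
              have := hinj _ (by omega) _ (by omega) h
              omega
            have h5 : p (i + 1 + 1) ≠ p i := fun h => by
              have := hinj _ (by omega) _ (by omega) h
              omega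
            omega
        have h3 : p 0 = 0 := by
          have h4 := (h2 (e - 1) (by omega)).2
          rw [show e - 1 + 1 = e by omega] at h4
          have := hp1 e le_rfl
          omega
        intro i hi
        rcases i with _ | i
        · exact h3
        · have := (h2 i hi).2
          omega
      · right
        have h2 : ∀ i, i + 1 ≤ e → p i + i = p 0 ∧ p (i + 1) + (i + 1) = p 0 := by
          intro i
          induction i with
          | zero => intro _; exact ⟨rfl, by rw [zero_add]; omega⟩
          | succ i ih =>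
            intro hi
            obtain ⟨a, b⟩ := ih (by omega)
            refine ⟨b, ?_⟩
            have h3 := hstep (i + 1) (by omega)
            have h4 : p (i + 1 + 1) ≠ p (i + 1) := fun h => by
              have := hinj _ (by omega) _ (by omega) h
              omega
            have h5 : p (i + 1 + 1) ≠ p i := fun h => by
              have := hinj _ (by omega) _ (by omega) h
              omega
            omega
        have h3 : p 0 = e := by
          have h4 := (h2 (e - 1) (by omega)).2
          rw [show e - 1 + 1 = e by omega] at h4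
          have := hp1 0 (by omega)
          omega
        intro i hi
        rcases i with _ | i
        · omega
        · have := (h2 i hi).2
          omega
  rcases hmono with h | h
  · left
    intro i hi
    rw [← hp2 i hi, h i hi]
  · right
    intro i hi
    rw [← hp2 (e - i) (by omega), h (e - i) (by omega), show e - (e - i) = i by omega]

end Pool.Agent.H13.TD
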