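import Mathlib
import Pool.Agent.H13.TDGen

/-! The model: reversed and swapped forms. -/

open Module Polynomial

namespace Pool.Agent.H13.TD

/-- the numerical data -/
structure Dat {K : Type*} [Field K] (d : ℕ) (θ θ' : ℕ → K) : Prop where
  hd : 1 ≤ d
  inj : ∀ i ≤ d, ∀ j ≤ d, θ i = θ j → i = j
  inj' : ∀ i ≤ d, ∀ j ≤ d, θ' i = θ' j → i = j
  rc : ∃ c : K, ∀ i, i + 3 ≤ d → θ i - θ (i + 3) = c * (θ (i + 1) - θ (i + 2)) ∧
    θ' i - θ' (i + 3) = c * (θ' (i + 1) - θ' (i + 2))

section Dat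

variable {K : Type*} [Field K] {d : ℕ} {θ θ' : ℕ → K}

lemma rc_rev {c : K} (h : ∀ i, i + 3 ≤ d → θ i - θ (i + 3) = c * (θ (i + 1) - θ (i + 2)))
    (i : ℕ) (hi : i + 3 ≤ d) :
    θ (d - i) - θ (d - (i + 3)) = c * (θ (d - (i + 1)) - θ (d - (i + 2))) := by
  have := h (d - i - 3) (by omega)
  rw [show d - i - 3 + 3 = d - i by omega, show d - i - 3 + 2 = d - (i + 1) by omega,
    show d - i - 3 + 1 = d - (i + 2) by omega, show d - i - 3 = d - (i + 3) by omega] at this
  linear_combination -this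

omit [Field K] in
lemma inj_rev (h : ∀ i ≤ d, ∀ j ≤ d, θ i = θ j → i = j) :
    ∀ i ≤ d, ∀ j ≤ d, θ (d - i) = θ (d - j) → i = j := by
  intro i hi j hj hij
  have := h (d - i) (by omega) (d - j) (by omega) hij
  omega

lemma Dat.rev1 (D : Dat d θ θ') : Dat d (fun i => θ (d - i)) θ' where
  hd := D.hd
  inj := inj_rev D.inj
  inj' := D.inj'
  rc := by
    obtain ⟨c, hc⟩ := D.rc
    exact ⟨c, fun i hi => ⟨rc_rev (fun i hi => (hc i hi).1) i hi, (hc i hi).2⟩⟩

lemma Dat.rev2 (D : Dat d θ θ') : Dat d θ (fun i => θ' (d - i)) where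
  hd := D.hd
  inj := D.inj
  inj' := inj_rev D.inj'
  rc := by
    obtain ⟨c, hc⟩ := D.rc
    exact ⟨c, fun i hi => ⟨(hc i hi).1, rc_rev (fun i hi => (hc i hi).2) i hi⟩⟩

lemma Dat.swap (D : Dat d θ θ') : Dat d θ' θ where
  hd := D.hd
  inj := D.inj'
  inj' := D.inj
  rc := by
    obtain ⟨c, hc⟩ := D.rc
    exact ⟨c, fun i hi => ⟨(hc i hi).2, (hc i hi).1⟩⟩

lemma rec_of_rc {c : K} (h : ∀ i, i + 3 ≤ d → θ i - θ (i + 3) = c * (θ (i + 1) - θ (i + 2))) :
    Rec d (c - 1) (θ 0 - (c - 1) * θ 1 + θ 2) θ := by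
  intro i
  induction i with
  | zero => intro _; rfl
  | succ i ih2 =>
    intro h2
    rw [← ih2 (by omega)]
    have := h i (by omega)
    simp only [show i + 1 + 1 = i + 2 by ring, show i + 1 + 2 = i + 3 by ring]
    linear_combination -this

lemma Dat.recs (D : Dat d θ θ') : ∃ β γ γ' : K, Rec d β γ θ ∧ Rec d β γ' θ' := by
  obtain ⟨c, hc⟩ := D.rc
  exact ⟨c - 1, _, _, rec_of_rc fun i hi => (hc i hi).1, rec_of_rc fun i hi => (hc i hi).2⟩

lemma Dat.ne (D : Dat d θ θ') : θ 0 ≠ θ d := fun h => by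
  have := D.inj 0 (by omega) d le_rfl h
  have := D.hd
  omega

lemma vth_rev (i : ℕ) (hi : i ≤ d + 1) : vth d (fun j => θ (d - j)) i = vth d θ i := by
  rw [vth, vth]
  simp only [Nat.sub_zero, Nat.sub_self]
  rw [← neg_sub (θ 0) (θ d), div_neg, ← neg_div, ← Finset.sum_neg_distrib]
  congr 1
  apply Finset.sum_congr rfl
  intro h hh
  rw [Finset.mem_range] at hh
  rw [show d - (d - h) = h by omega]
  ring

lemma Dat.ratio (D : Dat d θ θ') : ∀ h, h ≤ d →
    (θ h - θ (d - h)) * (θ' 0 - θ' d) = (θ' h - θ' (d - h)) * (θ 0 - θ d) := by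
  obtain ⟨β, γ, γ', h1, h2⟩ := D.recs
  have key : ∀ h, 2 * h ≤ d →
      (θ h - θ (d - h)) * (θ' 0 - θ' d) = (θ' h - θ' (d - h)) * (θ 0 - θ d) := by
    intro h
    induction h with
    | zero => intro _; rw [Nat.sub_zero]; ring
    | succ h ih =>
      intro hh
      have h3 := ih (by omega)
      have h4 := Pool.Agent.H13.TD.ratio β θ θ' h h (d - 2 * (h + 1)) d γ γ' (by omega) (by omega)
        h1 h2
      rw [show h + (d - 2 * (h + 1)) + 2 = d - h by omega,
        show h + (d - 2 * (h + 1)) + 1 = d - (h + 1) by omega] at h4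
      have h5 : θ h - θ (d - h) ≠ 0 := by
        rw [sub_ne_zero]
        intro h6
        have := D.inj h (by omega) (d - h) (by omega) h6
        omega
      apply mul_left_cancel₀ h5
      linear_combination (θ (h + 1) - θ (d - (h + 1))) * h3 - (θ 0 - θ d) * h4
  intro h hh
  by_cases h2 : 2 * h ≤ d
  · exact key h h2
  · have := key (d - h) (by omega)
    rw [show d - (d - h) = h by omega] at this
    linear_combination -this

lemma Dat.vth_eq (D : Dat d θ θ') (i : ℕ) (hi : i ≤ d + 1) : vth d θ i = vth d θ' i := by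
  rw [vth, vth, div_eq_div_iff (sub_ne_zero.2 D.ne) (sub_ne_zero.2 D.swap.ne), Finset.sum_mul,
    Finset.sum_mul]
  apply Finset.sum_congr rfl
  intro h hh
  rw [Finset.mem_range] at hh
  exact D.ratio h (by omega)

lemma vth_symm (i : ℕ) (hi : i ≤ d + 1) : vth d θ (d + 1 - i) = vth d θ i := by
  have h1 := ss_symm d θ i hi
  have h2 : vth d θ (d + 1 - i) = ss d θ (d + 1 - i) / (θ 0 - θ d) := rfl
  have h3 : vth d θ i = ss d θ i / (θ 0 - θ d) := rfl
  rw [h2, h3, h1]

end Dat

section Split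

variable {K L : Type*} [Field K] [Field L] [Algebra K L] {d : ℕ} {θ θ' : ℕ → K}

lemma splitSeq_eq_ph (x : L) (i : ℕ) : splitSeq d θ θ' x i =
    ph d (fun i => algebraMap K L (θ i)) (fun i => algebraMap K L (θ' i)) x i := by
  simp only [splitSeq, ph, vth, ss, map_mul, map_sub, map_sum, map_div₀]

lemma splitSeq_one (D : Dat d θ θ') (x : L) : splitSeq d θ θ' x 1 = x := by
  rw [splitSeq, vth_one D.ne, map_one, mul_one, Nat.sub_self, add_assoc, ← map_add]
  rw [show (θ 0 - θ d) * (θ' 0 - θ' 1) + (θ' 1 - θ' 0) * (θ 0 - θ d) = 0 by ring, map_zero,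
    add_zero]

lemma splitSeq_ne (D : Dat d θ θ') (x : L) (hx : ∀ a : K, algebraMap K L a ≠ x) (i : ℕ)
    (hi : i + 1 ≤ d) : splitSeq d θ θ' x (i + 1) ≠ 0 := by
  intro h
  rw [splitSeq, Nat.add_sub_cancel] at h
  by_cases h0 : vth d θ (i + 1) = 0
  · rw [h0, map_zero, mul_zero, zero_add, map_eq_zero, mul_eq_zero, sub_eq_zero, sub_eq_zero] at h
    rcases h with h | h
    · have := D.inj' _ hi 0 (by omega) h
      omega
    · have := D.inj _ (by omega) d le_rfl h
      omega
  · apply hx (-((θ' (i + 1) - θ' 0) * (θ i - θ d)) / vth d θ (i + 1) -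
      (θ 0 - θ d) * (θ' 0 - θ' 1))
    have h1 : algebraMap K L (vth d θ (i + 1)) ≠ 0 := by
      rw [Ne, map_eq_zero]; exact h0
    rw [map_sub, map_div₀, map_neg]
    field_simp
    linear_combination -h

/-- coordinate vectors -/
def EE (L : Type*) [Field L] (d n : ℕ) (y : L) : Fin (d + 1) → L := fun i => if (i : ℕ) = n then y else 0

lemma EE_top (n : ℕ) (hn : d < n) (y : L) : EE L d n y = 0 := by
  ext i
  simp only [EE, Pi.zero_apply]
  rw [if_neg]
  omega

lemma EE_smul (n : ℕ) (a y : L) : a • EE L d n y = EE L d n (a * y) := by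
  ext i
  simp only [EE, Pi.smul_apply, smul_eq_mul, mul_ite, mul_zero]

lemma LA_EE (n : ℕ) (y : L) : LA L d θ (EE L d n y) =
    algebraMap K L (θ n) • EE L d n y + EE L d (n + 1) y := by
  ext i
  cases i using Fin.cases with
  | zero =>
    rw [LA_zero]
    simp only [EE, Pi.add_apply, Pi.smul_apply, smul_eq_mul, Fin.val_zero]
    by_cases h : 0 = n
    · subst h; simp
    · simp [h]
  | succ i =>
    rw [LA_succ]
    simp only [EE, Pi.add_apply, Pi.smul_apply, smul_eq_mul, Fin.val_succ, Fin.val_castSucc]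
    by_cases h : (i : ℕ) + 1 = n
    · subst h; simp
    · simp [h]

lemma LB_EE_zero (x : L) (y : L) : LB d θ θ' x (EE L d 0 y) =
    algebraMap K L (θ' 0) • EE L d 0 y := by
  ext i
  cases i using Fin.lastCases with
  | last =>
    rw [LB_last]
    simp only [EE, Pi.smul_apply, smul_eq_mul, Fin.val_last]
    by_cases h : d = 0
    · subst h; simp
    · simp [h]
  | cast i =>
    rw [LB_castSucc]
    simp only [EE, Pi.smul_apply, smul_eq_mul, Fin.val_succ, Fin.val_castSucc]
    by_cases h : (i : ℕ) = 0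
    · simp [h]
    · simp [h]

lemma LB_EE_succ (x : L) (n : ℕ) (hn : n + 1 ≤ d) (y : L) : LB d θ θ' x (EE L d (n + 1) y) =
    algebraMap K L (θ' (n + 1)) • EE L d (n + 1) y + splitSeq d θ θ' x (n + 1) • EE L d n y := by
  ext i
  cases i using Fin.lastCases with
  | last =>
    rw [LB_last]
    simp only [EE, Pi.add_apply, Pi.smul_apply, smul_eq_mul, Fin.val_last]
    have h1 : d ≠ n := by omega
    rw [if_neg h1, mul_zero, add_zero]
    by_cases h : d = n + 1
    · rw [← h]
    · rw [if_neg h, mul_zero, mul_zero]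
  | cast i =>
    rw [LB_castSucc]
    simp only [EE, Pi.add_apply, Pi.smul_apply, smul_eq_mul, Fin.val_succ, Fin.val_castSucc]
    by_cases h : (i : ℕ) = n
    · subst h; simp
    · by_cases h2 : (i : ℕ) = n + 1
      · simp [h2]
      · simp [h, h2]

lemma TT_EE (n : ℕ) (y : L) :
    TT (LA L d θ) (fun i => algebraMap K L (θ i)) n (EE L d 0 y) = EE L d n y := by
  induction n with
  | zero => rfl
  | succ n ih =>
    rw [TT_succ, ih, LA_EE, add_sub_cancel_left]

lemma EE_sum (f : Fin (d + 1) → L) : f = ∑ i : Fin (d + 1), f i • EE L d i 1 := by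
  ext j
  rw [Finset.sum_apply]
  simp only [EE, Pi.smul_apply, smul_eq_mul]
  rw [Finset.sum_eq_single j]
  · simp
  · intro i _ hij
    rw [if_neg, mul_zero]
    intro h
    exact hij (Fin.ext h.symm)
  · simp

lemma span_EE (N : Submodule L (Fin (d + 1) → L)) (h : ∀ i, i ≤ d → EE L d i 1 ∈ N) : N = ⊤ := by
  rw [eq_top_iff]
  intro f _
  rw [EE_sum f]
  exact Submodule.sum_mem _ fun i _ => Submodule.smul_mem _ _ (h i (by omega))

lemma TT_reflect {X : Type*} [AddCommGroup X] [Module L X] (A : End L X) (t : ℕ → L) (d : ℕ) :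
    TT A (fun i => t (d - i)) (d + 1) = TT A t (d + 1) := by
  rw [TT_aeval, TT_aeval]
  congr 1
  rw [← Finset.prod_range_reflect]
  apply Finset.prod_congr rfl
  intro i hi
  rw [Finset.mem_range] at hi
  congr 3
  omega

/-- reversing `θ` -/
theorem revEquiv (D : Dat d θ θ') (x : L) :
    ∃ σ : (Fin (d + 1) → L) ≃ₗ[L] (Fin (d + 1) → L),
      (∀ f, σ (LA L d (fun i => θ (d - i)) f) = LA L d θ (σ f)) ∧
      (∀ f, σ (LB d (fun i => θ (d - i)) θ'
        (x + algebraMap K L ((θ 0 - θ d) * (θ' 0 - θ' 1))) f) = LB d θ θ' x (σ f)) ∧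
      (∀ y, σ (EE L d 0 y) = EE L d 0 y) := by
  obtain ⟨β, γ, γ', h1, h2⟩ := D.recs
  have hmap : ∀ {b g : K} {t : ℕ → K}, Rec d b g t →
      Rec d (algebraMap K L b) (algebraMap K L g) (fun i => algebraMap K L (t i)) := by
    intro b g t h j hj
    rw [← h j hj]
    simp only [map_add, map_sub, map_mul]
  have hne : algebraMap K L (θ 0) ≠ algebraMap K L (θ d) := fun h =>
    D.ne ((algebraMap K L).injective h)
  obtain ⟨ϱ, ω, η, hw1, hw2⟩ := awd_both (t := fun i => algebraMap K L (θ i))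
    (s := fun i => algebraMap K L (θ' i)) hne (hmap h1) (hmap h2) x
  have hB0 : LB d θ θ' x (EE L d 0 1) = algebraMap K L (θ' 0) • EE L d 0 1 := LB_EE_zero x 1
  have hr := rstep (A := LA L d θ) (B := LB d θ θ' x) (v := EE L d 0 1) hw1 hw2 hB0 (by
    intro i hi
    rw [TT_EE, TT_EE, ← splitSeq_eq_ph]
    exact LB_EE_succ x i hi 1) (by
    have q1 := ph_one (t := fun i => algebraMap K L (θ i)) (s := fun i => algebraMap K L (θ' i))
      hne x
    have q2 : ph d (fun i => algebraMap K L (θ (d - i))) (fun i => algebraMap K L (θ' i))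
        (x + (algebraMap K L (θ 0) - algebraMap K L (θ d)) *
          (algebraMap K L (θ' 0) - algebraMap K L (θ' 1))) 1 = _ := ph_one (by
        simp only [Nat.sub_zero, Nat.sub_self]
        exact Ne.symm hne) _
    rw [q1, q2, Nat.sub_zero])
  obtain ⟨Ψ, hΨ, hΨA, hΨB⟩ := build d (fun i => θ (d - i)) θ'
    (x + algebraMap K L ((θ 0 - θ d) * (θ' 0 - θ' 1))) (A := LA L d θ) (B := LB d θ θ' x)
    (v := EE L d 0 1) (by
      have := TT_reflect (LA L d θ) (fun i => algebraMap K L (θ i)) d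
      have h3 := LinearMap.congr_fun this (EE L d 0 1)
      rw [TT_EE, EE_top (d + 1) (by omega)] at h3
      exact h3) hB0 (by
      intro i hi
      rw [splitSeq_eq_ph]
      have := hr i hi
      rw [map_mul, map_sub, map_sub]
      exact this)
  have hE0 : ∀ y, Ψ (EE L d 0 y) = EE L d 0 y := by
    intro y
    rw [hΨ, Fin.sum_univ_succ, Finset.sum_eq_zero]
    · have : EE L d 0 y 0 = y := by simp [EE]
      rw [this, add_zero, Fin.val_zero, TT_zero, EE_smul, mul_one]
    · intro i _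
      have : EE L d 0 y i.succ = 0 := by simp [EE]
      rw [this, zero_smul]
  have hsurj : Function.Surjective Ψ := by
    rw [← LinearMap.range_eq_top]
    apply span_EE
    intro i
    induction i with
    | zero => intro _; exact ⟨_, hE0 1⟩
    | succ i ih =>
      intro hi
      obtain ⟨g, hg⟩ := ih (by omega)
      have h3 := LA_EE (d := d) (θ := θ) i (1 : L)
      rw [← hg, ← hΨA] at h3
      refine ⟨LA L d (fun i => θ (d - i)) g - algebraMap K L (θ i) • g, ?_⟩
      rw [map_sub, map_smul, h3]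
      abel
  have hinj : Function.Injective Ψ := LinearMap.injective_iff_surjective.2 hsurj
  exact ⟨LinearEquiv.ofBijective Ψ ⟨hinj, hsurj⟩, hΨA, hΨB, hE0⟩

/-- swapping the two maps -/
theorem swapEquiv (D : Dat d θ θ') (x : L)
    (hx : ∀ i, i + 1 ≤ d → splitSeq d θ θ' x (i + 1) ≠ 0) :
    ∃ σ : (Fin (d + 1) → L) ≃ₗ[L] (Fin (d + 1) → L),
      (∀ f, σ (LA L d (fun i => θ' (d - i)) f) = LB d θ θ' x (σ f)) ∧
      (∀ f, σ (LB d (fun i => θ' (d - i)) (fun i => θ (d - i))
        (x + algebraMap K L ((θ 0 - θ d) * (θ' 0 - θ' 1) + (θ' d - θ' 0) * (θ (d - 1) - θ d))) f) =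
          LA L d θ (σ f)) := by
  set Φ : ℕ → L := fun j => ∏ h ∈ Finset.range j, splitSeq d θ θ' x (d - h) with hΦ
  have hΦs : ∀ j, Φ (j + 1) = Φ j * splitSeq d θ θ' x (d - j) := fun j =>
    Finset.prod_range_succ _ _
  have hΦ0 : ∀ j ≤ d, Φ j ≠ 0 := by
    intro j hj
    rw [hΦ]
    simp only
    rw [Finset.prod_ne_zero_iff]
    intro h hh
    rw [Finset.mem_range] at hh
    have := hx (d - h - 1) (by omega)
    rwa [show d - h - 1 + 1 = d - h by omega] at this
  have hT : ∀ j ≤ d, TT (LB d θ θ' x) (fun i => algebraMap K L (θ' (d - i))) j (EE L d d 1) =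
      Φ j • EE L d (d - j) 1 := by
    intro j
    induction j with
    | zero =>
      intro _
      rw [TT_zero, Nat.sub_zero]
      simp [hΦ]
    | succ j ih =>
      intro hj
      rw [TT_succ, ih (by omega), map_smul]
      have := LB_EE_succ (d := d) (θ := θ) (θ' := θ') x (d - (j + 1)) (by omega) 1
      rw [show d - (j + 1) + 1 = d - j by omega] at this
      rw [this, hΦs]
      module
  have hTtop : TT (LB d θ θ' x) (fun i => algebraMap K L (θ' (d - i))) (d + 1) (EE L d d 1) =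
      0 := by
    rw [TT_succ, hT d le_rfl, Nat.sub_self, map_smul, LB_EE_zero]
    module
  have hsc : ∀ j, j + 1 ≤ d → splitSeq d (fun i => θ' (d - i)) (fun i => θ (d - i))
      (x + algebraMap K L ((θ 0 - θ d) * (θ' 0 - θ' 1) + (θ' d - θ' 0) * (θ (d - 1) - θ d)))
      (j + 1) = splitSeq d θ θ' x (d - j) := by
    intro j hj
    rw [splitSeq, splitSeq]
    rw [vth_rev (d := d) (θ := θ') (j + 1) (by omega), ← D.vth_eq (j + 1) (by omega),
      ← vth_symm (d := d) (j + 1) (by omega), show d + 1 - (j + 1) = d - j by omega, Nat.add_sub_cancel,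
      show d - (j + 1) = d - j - 1 by omega]
    simp only [Nat.sub_zero, Nat.sub_self]
    rw [add_assoc, ← map_add]
    congr 1
    · congr 3
      ring
    · congr 1
      ring
  obtain ⟨Ψ, hΨ, hΨA, hΨB⟩ := build d (fun i => θ' (d - i)) (fun i => θ (d - i))
    (x + algebraMap K L ((θ 0 - θ d) * (θ' 0 - θ' 1) + (θ' d - θ' 0) * (θ (d - 1) - θ d)))
    (A := LB d θ θ' x) (B := LA L d θ) (v := EE L d d 1) hTtop (by
      rw [LA_EE, EE_top (d + 1) (by omega), add_zero]
      simp only [Nat.sub_zero]) (by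
      intro j hj
      rw [hT (j + 1) hj, hT j (by omega), hsc j hj, map_smul, LA_EE, hΦs,
        show d - (j + 1) + 1 = d - j by omega]
      module)
  have hsurj : Function.Surjective Ψ := by
    rw [← LinearMap.range_eq_top]
    apply span_EE
    intro i hi
    refine ⟨(Φ (d - i))⁻¹ • EE L d (d - i) 1, ?_⟩
    rw [map_smul, hΨ, Finset.sum_eq_single (⟨d - i, by omega⟩ : Fin (d + 1))]
    · simp only [EE, if_true, one_smul]
      rw [hT (d - i) (by omega), smul_smul, inv_mul_cancel₀ (hΦ0 _ (by omega)), one_smul,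
        show d - (d - i) = i by omega]
    · intro j _ hj
      have : EE L d (d - i) 1 j = 0 := by
        simp only [EE]
        rw [if_neg]
        intro h
        exact hj (Fin.ext h)
      rw [this, zero_smul]
    · simp
  have hinj : Function.Injective Ψ := LinearMap.injective_iff_surjective.2 hsurj
  exact ⟨LinearEquiv.ofBijective Ψ ⟨hinj, hsurj⟩, hΨA, hΨB⟩

end Split

end Pool.Agent.H13.TD
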