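import Mathlib
import Pool.Agent.H13.TDModel

/-! The model is a tridiagonal pair. -/

open Module Polynomial

namespace Pool.Agent.H13.TD

section

variable {K L : Type*} [Field K] [Field L] [Algebra K L] {d : ℕ} {θ θ' : ℕ → K}

/-- first model map over `K` -/
def AK (L : Type*) [Field L] [Algebra K L] (d : ℕ) (θ : ℕ → K) : End K (Fin (d + 1) → L) :=
  (LA L d θ).restrictScalars K

/-- second model map over `K` -/
noncomputable def BK (d : ℕ) (θ θ' : ℕ → K) (x : L) : End K (Fin (d + 1) → L) :=
  (LB d θ θ' x).restrictScalars K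

lemma AK_apply (f : Fin (d + 1) → L) : AK L d θ f = LA L d θ f := rfl

lemma BK_apply (x : L) (f : Fin (d + 1) → L) : BK d θ θ' x f = LB d θ θ' x f := rfl

/-- coordinate flag -/
def FB (K L : Type*) [Field K] [Field L] [Algebra K L] (d i : ℕ) :
    Submodule K (Fin (d + 1) → L) where
  carrier := {f | ∀ j : Fin (d + 1), (j : ℕ) < i → f j = 0}
  add_mem' := by
    intro f g hf hg j hj
    rw [Pi.add_apply, hf j hj, hg j hj, add_zero]
  zero_mem' := fun j _ => rfl
  smul_mem' := by
    intro c f hf j hj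
    rw [Pi.smul_apply, hf j hj, smul_zero]

lemma mem_FB {i : ℕ} {f : Fin (d + 1) → L} :
    f ∈ FB K L d i ↔ ∀ j : Fin (d + 1), (j : ℕ) < i → f j = 0 := Iff.rfl

lemma FB_top {i : ℕ} (hi : d + 1 ≤ i) {f : Fin (d + 1) → L} (hf : f ∈ FB K L d i) : f = 0 := by
  ext j
  exact mem_FB.1 hf j (by omega)

lemma smulK (c : K) (f : Fin (d + 1) → L) (j : Fin (d + 1)) :
    (c • f) j = algebraMap K L c * f j := by
  rw [Pi.smul_apply, Algebra.smul_def]

lemma AK_FB (k : ℕ) (f : Fin (d + 1) → L) (hf : f ∈ FB K L d k) :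
    AK L d θ f - θ k • f ∈ FB K L d (k + 1) := by
  rw [mem_FB] at *
  intro j hj
  rw [Pi.sub_apply, smulK, AK_apply]
  cases j using Fin.cases with
  | zero =>
    rw [LA_zero]
    rcases Nat.eq_zero_or_pos k with h | h
    · rw [h, sub_self]
    · rw [hf 0 h, mul_zero, mul_zero, sub_self]
  | succ i =>
    rw [LA_succ]
    rw [Fin.val_succ] at hj
    rw [hf i.castSucc (by rw [Fin.val_castSucc]; omega), add_zero]
    by_cases h : (i : ℕ) + 1 = k
    · rw [← h, sub_self]
    · rw [hf i.succ (by rw [Fin.val_succ]; omega), mul_zero, mul_zero, sub_self]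

lemma TT_FB (i n : ℕ) (f : Fin (d + 1) → L) (hf : f ∈ FB K L d i) :
    TT (AK L d θ) (fun h => θ (i + h)) n f ∈ FB K L d (i + n) := by
  induction n with
  | zero => exact hf
  | succ n ih => exact AK_FB (i + n) _ ih

lemma nodal_FB (i : ℕ) (hi : i ≤ d + 1) (f : Fin (d + 1) → L) (hf : f ∈ FB K L d i) :
    aeval (AK L d θ) (∏ h ∈ Finset.Ico i (d + 1), (X - C (θ h))) f = 0 := by
  rw [Finset.prod_Ico_eq_prod_range, ← TT_aeval]
  have := TT_FB (θ := θ) i (d + 1 - i) f hf
  exact FB_top (by omega) this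

lemma FB_Sp (D : Dat d θ θ') (i : ℕ) (hi : i ≤ d + 1) (f : Fin (d + 1) → L)
    (hf : f ∈ FB K L d i) : f ∈ Sp (AK L d θ) θ (Finset.Ico i (d + 1)) := by
  apply Sp_of_nodal _ _ _ (nodal_FB i hi f hf)
  intro a ha b hb hab
  rw [Finset.mem_Ico] at ha hb
  exact D.inj a (by omega) b (by omega) hab

lemma FB_eig_step (D : Dat d θ θ') (i k : ℕ) (hi : i ≤ d) (hk : k ≠ i) {f : Fin (d + 1) → L}
    (hf : AK L d θ f = θ i • f) (h : f ∈ FB K L d k) : f ∈ FB K L d (k + 1) := by
  by_cases hkd : d < k
  · rw [FB_top (by omega) h]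
    exact Submodule.zero_mem _
  · have h1 := AK_FB (θ := θ) k f h
    rw [hf, ← sub_smul] at h1
    have h2 : θ i - θ k ≠ 0 := by
      rw [sub_ne_zero]
      intro h3
      exact hk (D.inj i hi k (by omega) h3).symm
    have h3 := Submodule.smul_mem _ (θ i - θ k)⁻¹ h1
    rwa [smul_smul, inv_mul_cancel₀ h2, one_smul] at h3

lemma eig_FB (D : Dat d θ θ') (i : ℕ) (hi : i ≤ d) {f : Fin (d + 1) → L}
    (hf : AK L d θ f = θ i • f) : f ∈ FB K L d i := by
  have key : ∀ k, k ≤ i → f ∈ FB K L d k := by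
    intro k
    induction k with
    | zero => intro _ j hj; omega
    | succ k ih => intro hk; exact FB_eig_step D i k hi (by omega) hf (ih (by omega))
  exact key i le_rfl

lemma eig_inj (D : Dat d θ θ') (i : ℕ) (hi : i ≤ d) {f : Fin (d + 1) → L}
    (hf : AK L d θ f = θ i • f) (h : f ⟨i, by omega⟩ = 0) : f = 0 := by
  have key : ∀ k, f ∈ FB K L d (i + 1 + k) := by
    intro k
    induction k with
    | zero =>
      intro j hj
      by_cases hji : (j : ℕ) = i
      · have : j = ⟨i, by omega⟩ := Fin.ext hji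
        rw [this, h]
      · exact mem_FB.1 (eig_FB D i hi hf) j (by omega)
    | succ k ih => exact FB_eig_step D i (i + 1 + k) hi (by omega) hf ih
  exact FB_top (by omega) (key d)

lemma BK_FB (x : L) (i : ℕ) (f : Fin (d + 1) → L) (hf : f ∈ FB K L d (i + 1)) :
    BK d θ θ' x f ∈ FB K L d i := by
  rw [mem_FB] at *
  intro j hj
  rw [BK_apply]
  cases j using Fin.lastCases with
  | last =>
    rw [LB_last, hf _ (by omega), mul_zero]
  | cast k =>
    rw [Fin.val_castSucc] at hj
    rw [LB_castSucc, hf k.castSucc (by rw [Fin.val_castSucc]; omega),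
      hf k.succ (by rw [Fin.val_succ]; omega), mul_zero, mul_zero, add_zero]

lemma half (D : Dat d θ θ') (x : L) (i : ℕ) (hi : i ≤ d) {f : Fin (d + 1) → L}
    (hf : AK L d θ f = θ i • f) :
    BK d θ θ' x f ∈ Sp (AK L d θ) θ (Finset.Ico (i - 1) (d + 1)) := by
  apply FB_Sp D _ (by omega)
  rcases i with _ | i
  · intro j hj; simp at hj
  · rw [Nat.add_sub_cancel]
    exact BK_FB x i f (eig_FB D _ hi hf)

/-- the tridiagonal relation -/
lemma tri_model (D : Dat d θ θ') (x : L) (i : ℕ) (hi : i ≤ d) {f : Fin (d + 1) → L}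
    (hf : AK L d θ f = θ i • f) :
    BK d θ θ' x f ∈ Sp (AK L d θ) θ (Finset.Icc (i - 1) (min (i + 1) d)) := by
  have h1 := half D x i hi hf
  obtain ⟨σ, hA, hB, -⟩ := revEquiv D x
  set τ : (Fin (d + 1) → L) ≃ₗ[K] (Fin (d + 1) → L) := σ.restrictScalars K with hτ
  have hA' : ∀ v, τ (AK L d (fun i => θ (d - i)) v) = AK L d θ (τ v) := hA
  have hB' : ∀ v, τ (BK d (fun i => θ (d - i)) θ'
    (x + algebraMap K L ((θ 0 - θ d) * (θ' 0 - θ' 1))) v) = BK d θ θ' x (τ v) := hB
  have h2 : AK L d (fun i => θ (d - i)) (τ.symm f) =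
      (fun i => θ (d - i)) (d - i) • τ.symm f := by
    rw [← symm_comm τ hA', hf, map_smul]
    beta_reduce
    rw [show d - (d - i) = i by omega]
  have h3 := half D.rev1 (x + algebraMap K L ((θ 0 - θ d) * (θ' 0 - θ' 1))) (d - i) (by omega) h2
  have h4 := Sp_map τ hA' h3
  rw [hB', LinearEquiv.apply_symm_apply] at h4
  have h5 : BK d θ θ' x f ∈ Sp (AK L d θ) θ
      ((Finset.range (d + 1)).filter (fun k => k ≤ i + 1)) := by
    refine (show Sp _ _ _ ≤ _ from ?_) h4
    refine iSup₂_le fun k hk => ?_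
    rw [Finset.mem_Ico] at hk
    exact eig_le_Sp (θ := θ) (h := d - k) (by
      simp only [Finset.mem_filter, Finset.mem_range]; omega)
  have h6 := Sp_inf D.inj (by
    intro k hk
    rw [Finset.mem_Ico] at hk
    omega) (by
    intro k hk
    simp only [Finset.mem_filter, Finset.mem_range] at hk
    omega) h1 h5
  refine Sp_mono ?_ h6
  intro k hk
  simp only [Finset.mem_inter, Finset.mem_Ico, Finset.mem_filter, Finset.mem_range] at hk
  rw [Finset.mem_Icc]
  omega

lemma top_model (D : Dat d θ θ') : Sp (AK L d θ) θ (Finset.range (d + 1)) = ⊤ := by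
  rw [eq_top_iff]
  intro f _
  have := FB_Sp (L := L) D 0 (by omega) f (by intro j hj; omega)
  rwa [← Finset.range_eq_Ico] at this

lemma finrank_eig_le [FiniteDimensional K L] (D : Dat d θ θ') (i : ℕ) (hi : i ≤ d) :
    finrank K ((AK L d θ).eigenspace (θ i)) ≤ finrank K L := by
  have hinj : Function.Injective ((LinearMap.proj (R := K) (φ := fun _ : Fin (d + 1) => L)
      (⟨i, by omega⟩ : Fin (d + 1))).domRestrict ((AK L d θ).eigenspace (θ i))) := by
    rw [← LinearMap.ker_eq_bot, LinearMap.ker_eq_bot']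
    rintro ⟨f, hf⟩ h
    ext1
    exact eig_inj D i hi (Module.End.mem_eigenspace_iff.1 hf) h
  exact LinearMap.finrank_le_finrank_of_injective hinj

lemma finrank_Sp_le [FiniteDimensional K L] (D : Dat d θ θ') (I : Finset ℕ)
    (hI : ∀ i ∈ I, i ≤ d) :
    finrank K (Sp (AK L d θ) θ I) ≤ I.card * finrank K L := by
  induction I using Finset.induction_on with
  | empty => simp [Sp_empty]
  | insert a I ha ih =>
    rw [Sp_insert, Finset.card_insert_of_notMem ha]
    have h1 := Submodule.finrank_add_le_finrank_add_finrank ((AK L d θ).eigenspace (θ a))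
      (Sp (AK L d θ) θ I)
    have h2 := ih (fun i hi => hI i (Finset.mem_insert_of_mem hi))
    have h3 := finrank_eig_le (L := L) D a (hI a (Finset.mem_insert_self _ _))
    rw [add_mul, one_mul]
    omega

lemma finrank_eig [FiniteDimensional K L] (D : Dat d θ θ') (i : ℕ) (hi : i ≤ d) :
    finrank K ((AK L d θ).eigenspace (θ i)) = finrank K L := by
  apply le_antisymm (finrank_eig_le D i hi)
  have h1 : (⊤ : Submodule K (Fin (d + 1) → L)) = (AK L d θ).eigenspace (θ i) ⊔
      Sp (AK L d θ) θ ((Finset.range (d + 1)).erase i) := by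
    rw [← Sp_insert, Finset.insert_erase (by rw [Finset.mem_range]; omega), top_model D]
  have h2 := Submodule.finrank_add_le_finrank_add_finrank ((AK L d θ).eigenspace (θ i))
      (Sp (AK L d θ) θ ((Finset.range (d + 1)).erase i))
  rw [← h1, finrank_top, Module.finrank_pi_fintype] at h2
  have h3 := finrank_Sp_le (L := L) D ((Finset.range (d + 1)).erase i) (by
    intro k hk
    rw [Finset.mem_erase, Finset.mem_range] at hk
    omega)
  rw [Finset.card_erase_of_mem (by rw [Finset.mem_range]; omega), Finset.card_range,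
    Nat.add_sub_cancel] at h3
  simp only [Finset.sum_const, Finset.card_univ, Fintype.card_fin, smul_eq_mul] at h2
  rw [add_mul, one_mul] at h2
  omega

lemma std_model [FiniteDimensional K L] (D : Dat d θ θ') (x : L) :
    Std (AK L d θ) (BK d θ θ' x) d θ where
  inj := D.inj
  ne := by
    intro i hi h
    have h1 := finrank_eig (L := L) D i hi
    rw [h, finrank_bot] at h1
    have := Module.finrank_pos (R := K) (M := L)
    omega
  top := top_model D
  tri := fun i hi _ hv => tri_model D x i hi hv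

lemma std_model_dual [FiniteDimensional K L] (D : Dat d θ θ') (x : L)
    (hx : ∀ a : K, algebraMap K L a ≠ x) :
    Std (BK d θ θ' x) (AK L d θ) d (fun i => θ' (d - i)) := by
  obtain ⟨σ, hA, hB⟩ := swapEquiv D x (fun i hi => splitSeq_ne D x hx i hi)
  exact Std.congr (std_model (L := L) (D.swap.rev1.rev2) _) (σ.restrictScalars K) hA hB

lemma TT_restrict (t : ℕ → K) (n : ℕ) (f : Fin (d + 1) → L) :
    TT (AK L d θ) t n f = TT (LA L d θ) (fun i => algebraMap K L (t i)) n f := by
  induction n with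
  | zero => rfl
  | succ n ih =>
    rw [TT_succ, TT_succ, ih, AK_apply]
    congr 1
    ext j
    rw [smulK]
    rfl

lemma TT_coord_zero (t : ℕ → K) (n : ℕ) (f : Fin (d + 1) → L) :
    TT (AK L d θ) t n f 0 = algebraMap K L (tau t (θ 0) n) * f 0 := by
  induction n with
  | zero => simp [tau]
  | succ n ih =>
    rw [TT_succ, Pi.sub_apply, AK_apply, LA_zero, smulK, ih, tau, map_mul, map_sub]
    ring

lemma irr_model [FiniteDimensional K L] (D : Dat d θ θ') (x : L)
    (hx : ∀ a : K, algebraMap K L a ≠ x) (hgen : ∀ z : L, ∃ p : K[X], aeval x p = z) :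
    Irr (AK L d θ) (BK d θ θ' x) := by
  intro N hNA hNB
  by_cases hN : N = ⊥
  · left; exact hN
  right
  obtain ⟨f0, hf0, hf0ne⟩ := Submodule.exists_mem_ne_zero_of_ne_bot hN
  obtain ⟨σ, hA, hB, hσ0⟩ := revEquiv D x
  have hTN : ∀ (t : ℕ → K) (n : ℕ) (f : Fin (d + 1) → L), f ∈ N → TT (AK L d θ) t n f ∈ N := by
    intro t n f hf
    induction n with
    | zero => exact hf
    | succ n ih =>
      rw [TT_succ]
      exact Submodule.sub_mem _ (hNA _ ih) (Submodule.smul_mem _ _ ih)
  -- an element with nonzero zeroth coordinate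
  have hI1 : ∃ f ∈ N, f 0 ≠ 0 := by
    have hstep : ∀ k, ∀ hk : k < d + 1, (∃ f ∈ N, f ∈ FB K L d k ∧ f ⟨k, hk⟩ ≠ 0) →
        ∃ f ∈ N, f 0 ≠ 0 := by
      intro k
      induction k with
      | zero =>
        rintro hk ⟨f, hf, -, h⟩
        exact ⟨f, hf, h⟩
      | succ k ih =>
        rintro hk ⟨f, hf, hfb, h⟩
        refine ih (by omega) ⟨BK d θ θ' x f, hNB f hf, BK_FB x k f hfb, ?_⟩
        have h1 : BK d θ θ' x f ⟨k, by omega⟩ = splitSeq d θ θ' x (k + 1) * f ⟨k + 1, hk⟩ := by
          have h2 := LB_castSucc d θ θ' x f ⟨k, by omega⟩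
          have h3 : f (Fin.castSucc ⟨k, by omega⟩) = 0 := mem_FB.1 hfb _ (by simp)
          rw [h3, mul_zero, zero_add] at h2
          exact h2
        rw [h1]
        exact mul_ne_zero (splitSeq_ne D x hx k (by omega)) h
    have hex : ∃ k, ∃ hk : k < d + 1, f0 ⟨k, hk⟩ ≠ 0 := by
      by_contra hcon
      push Not at hcon
      apply hf0ne
      ext j
      exact hcon j j.2
    classical
    obtain ⟨hk, h⟩ := Nat.find_spec hex
    refine hstep (Nat.find hex) hk ⟨f0, hf0, ?_, h⟩
    intro j hj
    by_contra hne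
    exact Nat.find_min hex hj ⟨j.2, hne⟩
  -- the last vector of the reversed basis
  have hTσ : ∀ y n, TT (AK L d θ) (fun i => θ (d - i)) n (EE L d 0 y) = σ (EE L d n y) := by
    intro y n
    induction n with
    | zero => exact (hσ0 y).symm
    | succ n ih =>
      rw [TT_succ, ih, AK_apply, ← hA, LA_EE, map_add, map_smul, algebraMap_smul,
        add_sub_cancel_left]
  have hkill : ∀ g ∈ FB K L d 1, TT (AK L d θ) (fun i => θ (d - i)) d g = 0 := by
    intro g hg
    have h1 := nodal_FB (θ := θ) 1 (by omega) g hg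
    rw [Finset.prod_Ico_eq_prod_range, Nat.add_sub_cancel] at h1
    rw [TT_aeval]
    rw [← h1]
    congr 2
    rw [← Finset.prod_range_reflect]
    apply Finset.prod_congr rfl
    intro i hi
    rw [Finset.mem_range] at hi
    congr 3
    omega
  have hlast : ∀ f ∈ N, σ (EE L d d (f 0)) ∈ N := by
    intro f hf
    rw [← hTσ]
    have h1 : f - EE L d 0 (f 0) ∈ FB K L d 1 := by
      intro j hj
      have : j = 0 := Fin.ext (by rw [Fin.val_zero]; omega)
      subst this
      rw [Pi.sub_apply]
      simp [EE]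
    have h2 := hkill _ h1
    rw [map_sub, sub_eq_zero] at h2
    rw [← h2]
    exact hTN _ _ _ hf
  set Y : Submodule K L :=
    { carrier := {y | σ (EE L d d y) ∈ N}
      add_mem' := by
        intro a b ha hb
        simp only [Set.mem_ofPred_eq] at *
        have : EE L d d (a + b) = EE L d d a + EE L d d b := by
          ext i; simp only [EE, Pi.add_apply]; split_ifs <;> simp
        rw [this, map_add]
        exact Submodule.add_mem _ ha hb
      zero_mem' := by
        simp only [Set.mem_ofPred_eq]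
        have : EE L d d (0 : L) = 0 := by
          ext i; simp [EE]
        rw [this, map_zero]
        exact Submodule.zero_mem _
      smul_mem' := by
        intro c a ha
        simp only [Set.mem_ofPred_eq] at *
        have h1 : EE L d d (c • a) = algebraMap K L c • EE L d d a := by
          rw [EE_smul, Algebra.smul_def]
        rw [h1, map_smul]
        rw [algebraMap_smul]
        exact Submodule.smul_mem _ _ ha } with hY
  have hYmem : ∀ y, y ∈ Y ↔ σ (EE L d d y) ∈ N := fun y => Iff.rfl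
  have hYx : ∀ y ∈ Y, x * y ∈ Y := by
    intro y hy
    obtain ⟨n, hn⟩ : ∃ n, d = n + 1 := ⟨d - 1, by have := D.hd; omega⟩
    subst hn
    set g := σ (EE L (n + 1) (n + 1) y) with hg
    have hgN : g ∈ N := hy
    have h1 := hlast _ (hNB g hgN)
    rw [← hYmem] at h1
    have h2 : BK (n + 1) θ θ' x g 0 = algebraMap K L (θ' 0) * g 0 + x * g 1 := by
      have := LB_castSucc (n + 1) θ θ' x g 0
      rw [Fin.val_zero, zero_add, splitSeq_one D] at this
      exact this
    have hAg : LA L (n + 1) θ g = algebraMap K L (θ 0) • g := by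
      rw [hg, ← hA, LA_EE, EE_top (n + 1 + 1) (by omega), add_zero, map_smul, Nat.sub_self]
    have h3 : algebraMap K L (θ 1) * g 1 + g 0 = algebraMap K L (θ 0) * g 1 := by
      have h4 := LA_succ (n + 1) θ g 0
      rw [hAg, Pi.smul_apply, smul_eq_mul, Fin.val_zero, zero_add] at h4
      exact h4.symm
    have h5 : g 0 = algebraMap K L (tau (fun i => θ (n + 1 - i)) (θ 0) (n + 1)) * y := by
      rw [hg, ← hTσ, TT_coord_zero]
      simp [EE]
    set P := tau (fun i => θ (n + 1 - i)) (θ 0) (n + 1) with hP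
    have hP0 : P ≠ 0 := by
      have := tau_ne (θ := fun i => θ (n + 1 - i)) (d := n + 1) D.rev1.inj le_rfl
      simpa [hP] using this
    have h01 : θ 0 - θ 1 ≠ 0 := by
      rw [sub_ne_zero]
      intro h
      have := D.inj 0 (by omega) 1 (by omega) h
      omega
    have h01' : algebraMap K L (θ 0 - θ 1) ≠ 0 := by rwa [Ne, map_eq_zero]
    have h6 : g 1 = algebraMap K L (P / (θ 0 - θ 1)) * y := by
      rw [map_div₀]
      rw [div_mul_eq_mul_div, eq_div_iff h01', map_sub]
      linear_combination -h3 + h5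
    rw [h2, h5, h6] at h1
    have h7 : x * y = ((θ 0 - θ 1) / P) • (algebraMap K L (θ' 0) * (algebraMap K L P * y) +
        x * (algebraMap K L (P / (θ 0 - θ 1)) * y)) - ((θ 0 - θ 1) * θ' 0) • y := by
      rw [Algebra.smul_def, Algebra.smul_def]
      have hP' : algebraMap K L P ≠ 0 := by rwa [Ne, map_eq_zero]
      rw [map_div₀, map_div₀, map_mul]
      field_simp
      ring
    rw [h7]
    exact Submodule.sub_mem _ (Submodule.smul_mem _ _ h1) (Submodule.smul_mem _ _ hy)
  have hYp : ∀ (p : K[X]) (y : L), y ∈ Y → aeval x p * y ∈ Y := by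
    intro p y hy
    induction p using Polynomial.induction_on' with
    | add p q hp hq => rw [map_add, add_mul]; exact Submodule.add_mem _ hp hq
    | monomial n a =>
      rw [aeval_monomial, mul_assoc, ← Algebra.smul_def]
      apply Submodule.smul_mem
      induction n with
      | zero => rwa [pow_zero, one_mul]
      | succ n ih => rw [pow_succ', mul_assoc]; exact hYx _ ih
  have hYtop : ∀ y : L, y ∈ Y := by
    intro y
    obtain ⟨f, hf, hf1⟩ := hI1
    obtain ⟨p, hp⟩ := hgen (y / f 0)
    have := hYp p (f 0) (hlast f hf)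
    rwa [hp, div_mul_cancel₀ _ hf1] at this
  -- descend
  have hx' : ∀ a : K, algebraMap K L a ≠ x + algebraMap K L ((θ 0 - θ d) * (θ' 0 - θ' 1)) := by
    intro a ha
    apply hx (a - (θ 0 - θ d) * (θ' 0 - θ' 1))
    rw [map_sub, ha]
    ring
  have hall : ∀ k, k ≤ d → ∀ y, σ (EE L d (d - k) y) ∈ N := by
    intro k
    induction k with
    | zero => intro _ y; exact hYtop y
    | succ k ih =>
      intro hk y
      have h1 := splitSeq_ne D.rev1 _ hx' (d - (k + 1)) (by omega)
      set s := splitSeq d (fun i => θ (d - i)) θ'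
        (x + algebraMap K L ((θ 0 - θ d) * (θ' 0 - θ' 1))) (d - (k + 1) + 1) with hs
      have h2 := LB_EE_succ (d := d) (θ := fun i => θ (d - i)) (θ' := θ')
        (x + algebraMap K L ((θ 0 - θ d) * (θ' 0 - θ' 1))) (d - (k + 1)) (by omega) (s⁻¹ * y)
      rw [← hs, EE_smul (d - (k + 1)) s, ← mul_assoc, mul_inv_cancel₀ h1, one_mul,
        show d - (k + 1) + 1 = d - k by omega] at h2
      have h3 : σ (EE L d (d - (k + 1)) y) = BK d θ θ' x (σ (EE L d (d - k) (s⁻¹ * y))) -
          θ' (d - k) • σ (EE L d (d - k) (s⁻¹ * y)) := by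
        rw [BK_apply, ← hB, h2, map_add, map_smul, algebraMap_smul, add_sub_cancel_left]
      rw [h3]
      exact Submodule.sub_mem _ (hNB _ (ih (by omega) _)) (Submodule.smul_mem _ _ (ih (by omega) _))
  rw [eq_top_iff]
  intro f _
  have h1 : f = σ (σ.symm f) := (σ.apply_symm_apply f).symm
  rw [h1, EE_sum (σ.symm f), map_sum]
  apply Submodule.sum_mem
  intro i _
  rw [EE_smul, mul_one]
  have := hall (d - i) (by omega) ((σ.symm f) i)
  rwa [show d - (d - (i : ℕ)) = i by omega] at this

theorem model_isTridiagonalPair [FiniteDimensional K L] (D : Dat d θ θ') (x : L)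
    (hx : ∀ a : K, algebraMap K L a ≠ x) (hgen : ∀ z : L, ∃ p : K[X], aeval x p = z) :
    IsTridiagonalPair (AK L d θ) (BK d θ θ' x) :=
  ⟨(std_model D x).iSup_top, (std_model_dual D x hx).iSup_top,
    ⟨d, θ, (std_model D x).standardOrder⟩, ⟨d, _, (std_model_dual D x hx).standardOrder⟩,
    irr_model D x hx hgen⟩

end

end Pool.Agent.H13.TD
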