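import Mathlib
import Pool.Agent.H13.TDPair

/-! Classification of tridiagonal pairs of constant shape: assembly. -/

open Module Polynomial

namespace Pool.Agent.H13.TD

section PairIso

variable {K V W U : Type*} [Field K] [AddCommGroup V] [Module K V] [AddCommGroup W] [Module K W]
  [AddCommGroup U] [Module K U]

lemma PairIso.refl (A B : End K V) : PairIso A B A B :=
  ⟨LinearEquiv.refl K V, fun _ => rfl, fun _ => rfl⟩

lemma PairIso.symm {A B : End K V} {A' B' : End K W} (h : PairIso A B A' B') :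
    PairIso A' B' A B := by
  obtain ⟨σ, hA, hB⟩ := h
  exact ⟨σ.symm, fun v => symm_comm σ hA v, fun v => symm_comm σ hB v⟩

lemma PairIso.trans {A B : End K V} {A' B' : End K W} {A'' B'' : End K U}
    (h : PairIso A B A' B') (h' : PairIso A' B' A'' B'') : PairIso A B A'' B'' := by
  obtain ⟨σ, hA, hB⟩ := h
  obtain ⟨τ, hA', hB'⟩ := h'
  exact ⟨σ.trans τ, fun v => by rw [LinearEquiv.trans_apply, LinearEquiv.trans_apply, hA, hA'],
    fun v => by rw [LinearEquiv.trans_apply, LinearEquiv.trans_apply, hB, hB']⟩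

lemma PairIso.swap {A B : End K V} {A' B' : End K W} (h : PairIso A B A' B') :
    PairIso B A B' A' := by
  obtain ⟨σ, hA, hB⟩ := h
  exact ⟨σ, hB, hA⟩

end PairIso

section

variable {K L : Type*} [Field K] [Field L] [Algebra K L] {d : ℕ} {θ θ' : ℕ → K}

lemma AK_congr {η : ℕ → K} (h : ∀ i ≤ d, η i = θ i) : AK L d η = AK L d θ := by
  have : (modelMatA d η : Matrix _ _ L) = modelMatA d θ := by
    ext i j
    simp only [modelMatA, h i (by omega)]
  rw [AK, LA, this]
  rfl

lemma BK_congr {η η' : ℕ → K} (hd : 1 ≤ d) (h : ∀ i ≤ d, η i = θ i) (h' : ∀ i ≤ d, η' i = θ' i)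
    (x : L) : BK d η η' x = BK d θ θ' x := by
  have hv : ∀ j ≤ d, vth d η j = vth d θ j := by
    intro j hj
    rw [vth, vth, h 0 (by omega), h d le_rfl]
    congr 1
    apply Finset.sum_congr rfl
    intro k hk
    rw [Finset.mem_range] at hk
    rw [h k (by omega), h (d - k) (by omega)]
  have : (modelMatB d η η' x) = modelMatB d θ θ' x := by
    ext i j
    simp only [modelMatB, splitSeq]
    rw [h' i (by omega), h' j (by omega), h' 0 (by omega), h' 1 hd, h 0 (by omega), h d le_rfl,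
      h (j - 1) (by omega), hv j (by omega)]
  rw [BK, LB, this]
  rfl

lemma not_mem_add {x : L} (hx : ∀ a : K, algebraMap K L a ≠ x) (b : K) :
    ∀ a : K, algebraMap K L a ≠ x + algebraMap K L b := by
  intro a ha
  apply hx (a - b)
  rw [map_sub, ha]
  ring

/-- reversal of `θ` -/
lemma isoR (D : Dat d θ θ') (x : L) :
    PairIso (AK L d (fun i => θ (d - i))) (BK d (fun i => θ (d - i)) θ'
      (x + algebraMap K L ((θ 0 - θ d) * (θ' 0 - θ' 1)))) (AK L d θ) (BK d θ θ' x) := by
  obtain ⟨σ, hA, hB, -⟩ := revEquiv D x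
  exact ⟨σ.restrictScalars K, hA, hB⟩

/-- swap -/
lemma isoS (D : Dat d θ θ') (x : L) (hx : ∀ a : K, algebraMap K L a ≠ x) :
    PairIso (AK L d (fun i => θ' (d - i))) (BK d (fun i => θ' (d - i)) (fun i => θ (d - i))
      (x + algebraMap K L ((θ 0 - θ d) * (θ' 0 - θ' 1) + (θ' d - θ' 0) * (θ (d - 1) - θ d))))
      (BK d θ θ' x) (AK L d θ) := by
  obtain ⟨σ, hA, hB⟩ := swapEquiv D x (fun i hi => splitSeq_ne D x hx i hi)
  exact ⟨σ.restrictScalars K, hA, hB⟩

/-- reversal of `θ'` -/
lemma isoR' (D : Dat d θ θ') (x : L) (hx : ∀ a : K, algebraMap K L a ≠ x) :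
    PairIso (AK L d θ) (BK d θ (fun i => θ' (d - i))
      (x + algebraMap K L ((θ' 0 - θ' d) * (θ 0 - θ 1)))) (AK L d θ) (BK d θ θ' x) := by
  have hd := D.hd
  have h1 := isoS D x hx
  set x1 : L := x + algebraMap K L ((θ 0 - θ d) * (θ' 0 - θ' 1) +
    (θ' d - θ' 0) * (θ (d - 1) - θ d)) with hx1
  have hx1n : ∀ a : K, algebraMap K L a ≠ x1 := not_mem_add hx _
  have D1 : Dat d (fun i => θ' (d - i)) (fun i => θ (d - i)) := D.swap.rev1.rev2
  have h2 := isoR D1 x1
  have hrr : ∀ (t : ℕ → K), ∀ i ≤ d, (fun i => t (d - (d - i))) i = t i := by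
    intro t i hi
    simp only [show d - (d - i) = i by omega]
  have e1 : AK L d (fun i => θ' (d - (d - i))) = AK L d θ' := AK_congr (hrr θ')
  have e2 : ∀ z : L, BK d (fun i => θ' (d - (d - i))) (fun i => θ (d - i)) z =
      BK d θ' (fun i => θ (d - i)) z := fun z => BK_congr hd (hrr θ') (fun _ _ => rfl) z
  rw [e1, e2] at h2
  have D2 : Dat d θ' (fun i => θ (d - i)) := D.swap.rev2
  set x2 : L := x1 + algebraMap K L ((θ' (d - 0) - θ' (d - d)) * (θ (d - 0) - θ (d - 1)))
    with hx2
  have hx2n : ∀ a : K, algebraMap K L a ≠ x2 := not_mem_add hx1n _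
  have h3 := isoS D2 x2 hx2n
  have e3 : AK L d (fun i => θ (d - (d - i))) = AK L d θ := AK_congr (hrr θ)
  have e4 : ∀ z : L, BK d (fun i => θ (d - (d - i))) (fun i => θ' (d - i)) z =
      BK d θ (fun i => θ' (d - i)) z := fun z => BK_congr hd (hrr θ) (fun _ _ => rfl) z
  rw [e3, e4] at h3
  have h4 := h3.trans (h2.swap.trans h1.swap)
  have e5 : x + algebraMap K L ((θ' 0 - θ' d) * (θ 0 - θ 1)) = x2 + algebraMap K L
      ((θ' 0 - θ' d) * (θ (d - 0) - θ (d - 1)) +
        (θ (d - d) - θ (d - 0)) * (θ' (d - 1) - θ' d)) := by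
    rw [hx2, hx1, add_assoc, add_assoc, ← map_add, ← map_add]
    congr 2
    simp only [Nat.sub_zero, Nat.sub_self]
    have := D.ratio 1 hd
    linear_combination -this
  rw [e5]
  exact h4

lemma isoRR' (D : Dat d θ θ') (x : L) (hx : ∀ a : K, algebraMap K L a ≠ x) :
    PairIso (AK L d (fun i => θ (d - i))) (BK d (fun i => θ (d - i)) (fun i => θ' (d - i))
      (x + algebraMap K L ((θ' 0 - θ' d) * (θ 0 - θ 1) + (θ 0 - θ d) * (θ' d - θ' (d - 1)))))
      (AK L d θ) (BK d θ θ' x) := by
  have h1 := isoR' D x hx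
  have h2 := isoR D.rev2 (x + algebraMap K L ((θ' 0 - θ' d) * (θ 0 - θ 1)))
  simp only [Nat.sub_zero] at h2
  rw [map_add, ← add_assoc]
  exact h2.trans h1

lemma BK_eig_zero (D : Dat d θ θ') (x : L) {w : Fin (d + 1) → L} (hw : BK d θ θ' x w = θ' 0 • w) :
    w = EE L d 0 (w 0) := by
  have key : ∀ k, k < d → ∀ j : Fin (d + 1), (j : ℕ) + k = d → w j = 0 := by
    intro k
    induction k with
    | zero =>
      intro hk j hj
      have hj' : j = Fin.last d := Fin.ext (by rw [Fin.val_last]; omega)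
      have h1 := congrFun hw (Fin.last d)
      rw [BK_apply, LB_last, smulK] at h1
      have h2 : algebraMap K L (θ' d) - algebraMap K L (θ' 0) ≠ 0 := by
        rw [← map_sub, Ne, map_eq_zero, sub_eq_zero]
        intro h
        have := D.inj' d le_rfl 0 (by omega) h
        omega
      rw [hj']
      apply mul_left_cancel₀ h2
      rw [mul_zero, sub_mul, h1, sub_self]
    | succ k ih =>
      intro hk j hj
      obtain ⟨i, hi⟩ : ∃ i : Fin d, j = i.castSucc := ⟨⟨j, by omega⟩, Fin.ext rfl⟩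
      have h1 := congrFun hw j
      rw [hi, BK_apply, LB_castSucc, smulK] at h1
      have h3 : w i.succ = 0 := by
        apply ih (by omega)
        rw [Fin.val_succ]
        rw [hi, Fin.val_castSucc] at hj
        omega
      rw [h3, mul_zero, add_zero] at h1
      have h2 : algebraMap K L (θ' i) - algebraMap K L (θ' 0) ≠ 0 := by
        rw [← map_sub, Ne, map_eq_zero, sub_eq_zero]
        intro h
        have := D.inj' i (by omega) 0 (by omega) h
        rw [hi, Fin.val_castSucc] at hj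
        omega
      rw [hi]
      apply mul_left_cancel₀ h2
      rw [mul_zero, sub_mul, h1, sub_self]
  ext j
  simp only [EE]
  by_cases hj : (j : ℕ) = 0
  · rw [if_pos hj]
    congr 1
    exact Fin.ext hj
  · rw [if_neg hj]
    exact key (d - j) (by omega) j (by omega)

lemma M1_EE (D : Dat d θ θ') (x y : L) :
    M1 (AK L d θ) (BK d θ θ' x) θ θ' (EE L d 0 y) = EE L d 0 (x * y) := by
  rw [M1_apply, AK_apply, LA_EE, algebraMap_smul, add_sub_cancel_left, BK_apply, zero_add]
  have := LB_EE_succ (θ := θ) (θ' := θ') x 0 D.hd y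
  rw [zero_add] at this
  rw [this, algebraMap_smul, add_sub_cancel_left, splitSeq_one D, EE_smul]

lemma aeval_M1_EE (D : Dat d θ θ') (x : L) (p : K[X]) (y : L) :
    aeval (M1 (AK L d θ) (BK d θ θ' x) θ θ') p (EE L d 0 y) = EE L d 0 (aeval x p * y) := by
  induction p using Polynomial.induction_on' with
  | add p q hp hq =>
    rw [map_add, LinearMap.add_apply, hp, hq, map_add, add_mul]
    ext i
    simp only [EE, Pi.add_apply]
    split_ifs <;> simp
  | monomial n a =>
    rw [aeval_monomial, aeval_monomial, Module.End.mul_apply, Module.algebraMap_end_apply]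
    have h : ∀ n : ℕ, ((M1 (AK L d θ) (BK d θ θ' x) θ θ') ^ n) (EE L d 0 y) =
        EE L d 0 (x ^ n * y) := by
      intro n
      induction n with
      | zero => rw [pow_zero, pow_zero, one_mul, Module.End.one_apply]
      | succ n ih => rw [pow_succ', Module.End.mul_apply, ih, M1_EE D, pow_succ', mul_assoc]
    rw [h, ← algebraMap_smul L a, EE_smul, mul_assoc]

variable {L' : Type*} [Field L'] [Algebra K L']

lemma iso_algEquiv (ψ : L ≃ₐ[K] L') (x : L) :
    PairIso (AK L d θ) (BK d θ θ' x) (AK L' d θ) (BK d θ θ' (ψ x)) := by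
  have hs : ∀ i, ψ (splitSeq d θ θ' x i) = splitSeq d θ θ' (ψ x) i := by
    intro i
    simp only [splitSeq, map_add, map_mul ψ, AlgEquiv.commutes]
  refine ⟨LinearEquiv.piCongrRight fun _ => ψ.toLinearEquiv, fun f => ?_, fun f => ?_⟩
  · ext j
    rw [LinearEquiv.piCongrRight_apply, AK_apply, AK_apply]
    cases j using Fin.cases with
    | zero =>
      rw [LA_zero, LA_zero, LinearEquiv.piCongrRight_apply]
      simp
    | succ i =>
      rw [LA_succ, LA_succ, LinearEquiv.piCongrRight_apply, LinearEquiv.piCongrRight_apply]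
      simp
  · ext j
    rw [LinearEquiv.piCongrRight_apply, BK_apply, BK_apply]
    cases j using Fin.lastCases with
    | last =>
      rw [LB_last, LB_last, LinearEquiv.piCongrRight_apply]
      simp
    | cast i =>
      rw [LB_castSucc, LB_castSucc, LinearEquiv.piCongrRight_apply,
        LinearEquiv.piCongrRight_apply]
      simp [hs]

/-- isomorphic models with the same `θ`, `θ'` have the same annihilating polynomials -/
lemma iso_same (D : Dat d θ θ') (x : L) (x' : L')
    (h : PairIso (AK L d θ) (BK d θ θ' x) (AK L' d θ) (BK d θ θ' x')) (p : K[X])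
    (hp : aeval x p = 0) : aeval x' p = 0 := by
  obtain ⟨σ, hA, hB⟩ := h
  have hM : ∀ v, σ (M1 (AK L d θ) (BK d θ θ' x) θ θ' v) =
      M1 (AK L' d θ) (BK d θ θ' x') θ θ' (σ v) := by
    intro v
    rw [M1_apply, M1_apply, map_sub, hB, map_smul, map_sub, map_smul, hA]
  have h1 : BK d θ θ' x (EE L d 0 1) = θ' 0 • EE L d 0 1 := by
    rw [BK_apply, LB_EE_zero, algebraMap_smul]
  have h2 : BK d θ θ' x' (σ (EE L d 0 1)) = θ' 0 • σ (EE L d 0 1) := by
    rw [← hB, h1, map_smul]
  have h3 := BK_eig_zero D x' h2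
  have h4 := aeval_conj σ.toLinearMap hM p (EE L d 0 1)
  rw [aeval_M1_EE D, hp, zero_mul] at h4
  have h5 : EE L d 0 (0 : L) = 0 := by ext i; simp [EE]
  rw [h5, map_zero] at h4
  have h6 : (aeval (M1 (AK L' d θ) (BK d θ θ' x') θ θ') p) (σ (EE L d 0 1)) = 0 := h4.symm
  rw [h3, aeval_M1_EE D] at h6
  have h7 := congrFun h6 0
  simp only [EE, Fin.val_zero, if_true, Pi.zero_apply] at h7
  rcases mul_eq_zero.1 h7 with h8 | h8
  · exact h8
  · exfalso
    rw [h8] at h3
    have h9 : EE L' d 0 (0 : L') = 0 := by ext i; simp [EE]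
    rw [h9] at h3
    have h10 := σ.map_eq_zero_iff.1 h3
    have h11 := congrFun h10 0
    simp [EE] at h11

end

section Adjoin

variable {K : Type*} [Field K]

lemma root_not_mem {m : K[X]} (h2 : 2 ≤ m.natDegree) :
    ∀ a : K, algebraMap K (AdjoinRoot m) a ≠ AdjoinRoot.root m := by
  intro a ha
  have h1 : AdjoinRoot.mk m (X - C a) = 0 := by
    rw [map_sub, AdjoinRoot.mk_X, AdjoinRoot.mk_C, sub_eq_zero]
    exact ha.symm
  rw [AdjoinRoot.mk_eq_zero] at h1
  have h3 := Polynomial.natDegree_le_of_dvd h1 (X_sub_C_ne_zero a)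
  rw [natDegree_X_sub_C] at h3
  omega

lemma root_gen (m : K[X]) : ∀ z : AdjoinRoot m, ∃ p : K[X], aeval (AdjoinRoot.root m) p = z := by
  intro z
  obtain ⟨p, hp⟩ := AdjoinRoot.mk_surjective z
  exact ⟨p, by rw [AdjoinRoot.aeval_eq, hp]⟩

lemma fin_adjoin {m : K[X]} (hm : m ≠ 0) : FiniteDimensional K (AdjoinRoot m) :=
  (AdjoinRoot.powerBasis hm).finite

lemma finrank_adjoin (m : K[X]) : finrank K (AdjoinRoot m) = m.natDegree :=
  finrank_quotient_span_eq_natDegree (f := m)

lemma comp_irr {m : K[X]} (a : K) (h : Irreducible m) : Irreducible (m.comp (X - C a)) := by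
  have h1 : m.comp (X - C a) = algEquivAevalXAddC (-a) m := by
    rw [algEquivAevalXAddC_apply, comp, eval₂_eq_sum, aeval_def, eval₂_eq_sum]
    rw [map_neg, ← sub_eq_add_neg]
    rfl
  rw [h1]
  exact (MulEquiv.irreducible_iff (algEquivAevalXAddC (-a))).2 h

lemma comp_monic {m : K[X]} (a : K) (h : m.Monic) : (m.comp (X - C a)).Monic :=
  h.comp_X_sub_C a

lemma comp_natDegree (m : K[X]) (a : K) : (m.comp (X - C a)).natDegree = m.natDegree := by
  rw [natDegree_comp, natDegree_X_sub_C, mul_one]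

lemma adjoin_shift {m : K[X]} (hm : Irreducible m) (a : K) :
    ∃ ψ : AdjoinRoot (m.comp (X - C a)) ≃ₐ[K] AdjoinRoot m,
      ψ (AdjoinRoot.root _) = AdjoinRoot.root m + algebraMap K _ a := by
  have : Fact (Irreducible m) := ⟨hm⟩
  have : Fact (Irreducible (m.comp (X - C a))) := ⟨comp_irr a hm⟩
  have hev : aeval (AdjoinRoot.root m + algebraMap K _ a) (m.comp (X - C a)) = 0 := by
    rw [aeval_comp, map_sub, aeval_X, aeval_C, add_sub_cancel_right, AdjoinRoot.aeval_eq,
      AdjoinRoot.mk_self]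
  set ψ : AdjoinRoot (m.comp (X - C a)) →ₐ[K] AdjoinRoot m :=
    AdjoinRoot.liftAlgHom _ (Algebra.ofId K _) (AdjoinRoot.root m + algebraMap K _ a) (by
      exact hev) with hψ
  have := fin_adjoin hm.ne_zero
  have := fin_adjoin (comp_irr a hm).ne_zero
  have hinj : Function.Injective ψ := ψ.toRingHom.injective
  have hfin : finrank K (AdjoinRoot (m.comp (X - C a))) = finrank K (AdjoinRoot m) := by
    rw [finrank_adjoin, finrank_adjoin, comp_natDegree]
  have hsurj : Function.Surjective ψ :=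
    (LinearMap.injective_iff_surjective_of_finrank_eq_finrank
      (f := ψ.toLinearMap) hfin).1 hinj
  refine ⟨AlgEquiv.ofBijective ψ ⟨hinj, hsurj⟩, ?_⟩
  rw [AlgEquiv.ofBijective_apply, hψ, AdjoinRoot.liftAlgHom_root]

end Adjoin

end Pool.Agent.H13.TD
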